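/-
MP_f77932_co (rational distance sets by height): definitions.  helper43, folder Pool/Agent/H43/RH.
-/
import Mathlib

namespace Pool.Agent.H43.RH

open Polynomial Polynomial.Bivariate

/-! ### Statement level -/

/-- all pairwise distances are rational -/
def RatDist (S : Set ℂ) : Prop := ∀ P ∈ S, ∀ Q ∈ S, ∃ q : ℚ, ‖P - Q‖ = q

/-- `x` is a quotient of two integers between `0` and `H` -/
def Ht (H : ℕ) (x : ℝ) : Prop := ∃ a b : ℕ, 1 ≤ b ∧ a ≤ H ∧ b ≤ H ∧ x = (a : ℝ) / b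

/-- the points of `S` whose distances to `A` and to `B` have height at most `H` -/
def SH (S : Set ℂ) (A B : ℂ) (H : ℕ) : Set ℂ := {P | P ∈ S ∧ Ht H ‖P - A‖ ∧ Ht H ‖P - B‖}

/-- lines and circles -/
def IsLC (Γ : Set ℂ) : Prop :=
  (∃ a b : ℂ, a ≠ b ∧ Γ = {z | ∃ t : ℝ, z = a + (t : ℂ) * (b - a)}) ∨
    ∃ c : ℂ, ∃ r : ℝ, 0 < r ∧ Γ = Metric.sphere c r

/-! ### Working level -/

/-- the curve `α |z|² + 2 Re (β z) + γ = 0` -/
def GC (α γ : ℝ) (β : ℂ) : Set ℂ := {z | α * ‖z‖ ^ 2 + 2 * (β * z).re + γ = 0}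

/-- a normalised configuration: bounded points with bounded multipliers `c P` such that all
`c P * c Q * |P - Q|` are integers -/
structure Cfg (T : Finset ℂ) (c : ℂ → ℕ) (Λ : ℝ) : Prop where
  two : 2 ≤ Λ
  one : ∀ P ∈ T, 1 ≤ c P
  le : ∀ P ∈ T, (c P : ℝ) ≤ Λ
  norm : ∀ P ∈ T, ‖P‖ ≤ Λ
  int : ∀ P ∈ T, ∀ Q ∈ T, ∃ m : ℕ, (c P : ℝ) * c Q * ‖P - Q‖ = m

/-- the bivariate polynomial `(X - p) (Y - p')` -/
noncomputable def qq (p p' : ℂ) : ℂ[X][Y] := C (X - C p) * (X - C (C p'))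

/-- for all base points taken from `D` the products of distances to the base points satisfy a
linear relation on `S` -/
def RelP (S D : Finset ℂ) (m : ℕ) : Prop :=
  ∀ p : Fin m → ℂ, Function.Injective p → (∀ i, p i ∈ D) →
    ∃ a : Finset (Fin m) → ℝ, a ≠ 0 ∧ ∀ P ∈ S, ∑ I, a I * ∏ i ∈ I, ‖P - p i‖ = 0

/-- base points `p i` together with simple points `(p i, w i)` of the curve `F = 0` -/
structure GoodPts (F : ℂ[X][Y]) (m : ℕ) (p w : Fin m → ℂ) : Prop where
  inj : Function.Injective p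
  zero : ∀ i, F.evalEval (p i) (w i) = 0
  simple : ∀ i, (derivative F).evalEval (p i) (w i) ≠ 0
  off : ∀ i j, w i ≠ (starRingEnd ℂ) (p j)

/-- the universal identity satisfied by the norm polynomial of the linear form with coefficients
`a` in the products of the square roots -/
def NormId (m : ℕ) (a : Finset (Fin m) → ℂ) (N : MvPolynomial (Fin m) ℂ) : Prop :=
  ∀ (K : Type) [CommRing K] [Algebra ℂ K] (s : Fin m → K),
    MvPolynomial.aeval (fun i => s i ^ 2) N
      = ∏ σ : Finset (Fin m), ∑ I : Finset (Fin m),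
          a I • ∏ i ∈ I, (if i ∈ σ then - s i else s i)

/-- number of base points needed for one component -/
def NN (m δ : ℕ) : ℕ := 2 * δ ^ 2 + 2 * δ + m * (δ + 2) + 1

end Pool.Agent.H43.RH
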