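/-
I1 (Ind).  Independence of products of square roots.  MATHLIB ONLY, about 120 lines.
PROOF.  Induction on m, for all fields L.  m = 0: the family is constant 1.  Step m + 1: t = s (last), q' = q (last).
t is not in L (image): otherwise q' is a square in L, against hq for I = {last}.  L' = L(t) (IntermediateField.adjoin,
or Algebra.adjoin; t² in L so {1, t} is a basis of L' over L).  For I ⊆ the first m, ∏_{I} q is not a square in L':
if ∏ q = (x + y t)² = x² + y² q' + 2 x y t then 2 x y = 0 (independence of 1, t), so ∏ q = x², against hq I, or
∏ q = y² q', so (∏ q) q' = (y q')², against hq (I ∪ {last}).  By induction the products ∏_I s (I ⊆ first m) are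
independent over L'; with the basis {1, t} (LinearIndependent.smul / tower) the products ∏_I s * t^ε are independent
over L, and these are all the products for Fin (m + 1) (reindex).
Alternative without intermediate fields: prove the stronger statement for a subfield / for all a : a relation
A + B t = 0 with A, B in the span; multiply etc.
-/
import Pool.Agent.H43.RH.Defs

namespace Pool.Agent.H43.RH

/-- sum over the subsets of `Fin (m + 1)` -/
private lemma ind_sum {M : Type*} [AddCommMonoid M] (m : ℕ) (f : Finset (Fin (m + 1)) → M) :
    ∑ J : Finset (Fin (m + 1)), f J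
      = ∑ I : Finset (Fin m), f (I.map Fin.castSuccEmb)
        + ∑ I : Finset (Fin m), f (insert (Fin.last m) (I.map Fin.castSuccEmb)) := by
  classical
  have h1 : (Finset.univ : Finset (Finset (Fin (m + 1))))
      = (insert (Fin.last m) (Finset.univ.map (Fin.castSuccEmb (n := m)))).powerset := by
    rw [← Finset.cons_eq_insert _ _ (by simp), ← Fin.univ_castSuccEmb]
    simp
  have h2 : ∀ g : Finset (Fin (m + 1)) → M,
      ∑ J ∈ (Finset.univ.map (Fin.castSuccEmb (n := m))).powerset, g J
        = ∑ I : Finset (Fin m), g (I.map Fin.castSuccEmb) := by
    intro g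
    rw [Finset.map_eq_image, Finset.powerset_image, Finset.sum_image]
    · simp [Finset.map_eq_image]
    · intro a _ b _ hab
      exact Finset.image_injective (Fin.castSuccEmb (n := m)).injective hab
  rw [h1, Finset.sum_powerset_insert (by simp), h2, h2]

/-- every element of `L(t)` with `t² ∈ L` is `a + b t` -/
private lemma ind_form {L K : Type} [Field L] [Field K] [Algebra L K] {t : K} {q : L}
    (ht : t ^ 2 = algebraMap L K q) (hq : ¬ IsSquare q) {x : K}
    (hx : x ∈ IntermediateField.adjoin L {t}) :
    ∃ a b : L, x = algebraMap L K a + algebraMap L K b * t := by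
  induction hx using IntermediateField.adjoin_induction with
  | mem x hx =>
    rw [Set.mem_singleton_iff] at hx
    exact ⟨0, 1, by simp [hx]⟩
  | algebraMap x => exact ⟨x, 0, by simp⟩
  | add x y _ _ hx hy =>
    obtain ⟨a, b, rfl⟩ := hx
    obtain ⟨c, d, rfl⟩ := hy
    exact ⟨a + c, b + d, by rw [map_add, map_add]; ring⟩
  | inv x _ hx =>
    obtain ⟨a, b, rfl⟩ := hx
    by_cases h0 : a ^ 2 - b ^ 2 * q = 0
    · have hb : b = 0 := by
        by_contra hb
        exact hq ⟨a / b, by field_simp; linear_combination -h0⟩
      have ha : a = 0 := by
        rw [hb] at h0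
        simpa using h0
      exact ⟨0, 0, by simp [ha, hb]⟩
    · refine ⟨a / (a ^ 2 - b ^ 2 * q), - b / (a ^ 2 - b ^ 2 * q), ?_⟩
      have h1 : algebraMap L K a ^ 2 - algebraMap L K b ^ 2 * algebraMap L K q ≠ 0 := by
        intro h
        apply h0
        apply (algebraMap L K).injective
        simpa using h
      rw [map_div₀, map_div₀, map_sub, map_mul, map_pow, map_pow, map_neg]
      rw [← ht] at h1 ⊢
      have h2 : algebraMap L K a ^ 2 - algebraMap L K b ^ 2 * t ^ 2
          = (algebraMap L K a + algebraMap L K b * t) * (algebraMap L K a - algebraMap L K b * t) := by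
        ring
      rw [h2] at h1 ⊢
      have h3 := left_ne_zero_of_mul h1
      have h4 := right_ne_zero_of_mul h1
      field_simp
      ring
  | mul x y _ _ hx hy =>
    obtain ⟨a, b, rfl⟩ := hx
    obtain ⟨c, d, rfl⟩ := hy
    refine ⟨a * c + b * d * q, a * d + b * c, ?_⟩
    simp only [map_add, map_mul]
    rw [← ht]
    ring

theorem ind (m : ℕ) : ∀ (L K : Type) [Field L] [Field K] [Algebra L K] [CharZero L]
    (s : Fin m → K) (q : Fin m → L), (∀ i, s i ^ 2 = algebraMap L K (q i)) →
    (∀ I : Finset (Fin m), I.Nonempty → ¬ IsSquare (∏ i ∈ I, q i)) →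
    LinearIndependent L (fun I : Finset (Fin m) => ∏ i ∈ I, s i) := by
  classical
  induction m with
  | zero =>
    intro L K _ _ _ _ s q hs hq
    rw [linearIndependent_unique_iff]
    have : (default : Finset (Fin 0)) = ∅ := Subsingleton.elim _ _
    rw [this]
    simp
  | succ m ih =>
    intro L K _ _ _ _ s q hs hq
    set t : K := s (Fin.last m) with ht
    set q' : L := q (Fin.last m) with hq'
    have htq : t ^ 2 = algebraMap L K q' := hs _
    have hnq' : ¬ IsSquare q' := by
      have := hq {Fin.last m} (Finset.singleton_nonempty _)
      simpa using this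
    -- `1, t` are independent over `L`
    have h1t : ∀ a b : L, algebraMap L K a + algebraMap L K b * t = 0 → a = 0 ∧ b = 0 := by
      intro a b hab
      have hb : b = 0 := by
        by_contra hb
        apply hnq'
        refine ⟨a / b, ?_⟩
        apply (algebraMap L K).injective
        have hb' : algebraMap L K b ≠ 0 := by
          intro h
          exact hb ((algebraMap L K).injective (by simpa using h))
        rw [← htq, map_mul, map_div₀]
        field_simp
        have : algebraMap L K b * t = - algebraMap L K a := by linear_combination hab
        linear_combination (algebraMap L K b * t - algebraMap L K a) * this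
      refine ⟨?_, hb⟩
      rw [hb] at hab
      exact (algebraMap L K).injective (by simpa using hab)
    let L' : IntermediateField L K := IntermediateField.adjoin L {t}
    have htL' : t ∈ L' := IntermediateField.mem_adjoin_simple_self L t
    have : CharZero L' := charZero_of_injective_algebraMap (algebraMap L L').injective
    have hI : ∀ I : Finset (Fin m), I.Nonempty →
        ¬ IsSquare (∏ i ∈ I, algebraMap L L' (q i.castSucc)) := by
      intro I hne ⟨y, hy⟩
      obtain ⟨a, b, hab⟩ := ind_form htq hnq' y.2
      have hp : (algebraMap L K (∏ i ∈ I, q i.castSucc)) = (y : K) * y := by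
        have := congrArg (algebraMap L' K) hy
        rw [map_prod, map_mul] at this
        rw [map_prod]
        exact this
      rw [hab] at hp
      have h0 := h1t (a ^ 2 + b ^ 2 * q' - ∏ i ∈ I, q i.castSucc) (2 * a * b) (by
        simp only [map_sub, map_add, map_mul, map_pow, hp, map_ofNat]
        rw [← htq]
        ring)
      obtain ⟨h2, h3⟩ := h0
      have h4 : a = 0 ∨ b = 0 := by
        rcases mul_eq_zero.mp h3 with h | h
        · rcases mul_eq_zero.mp h with h | h
          · exact absurd h two_ne_zero
          · exact Or.inl h
        · exact Or.inr h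
      rcases h4 with h | h
      · apply hq (insert (Fin.last m) (I.map Fin.castSuccEmb)) (Finset.insert_nonempty _ _)
        rw [Finset.prod_insert (by simp), Finset.prod_map]
        refine ⟨b * q', ?_⟩
        have : ∏ i ∈ I, q (Fin.castSuccEmb i) = b ^ 2 * q' := by
          rw [h] at h2
          have h5 : ∏ i ∈ I, q i.castSucc = b ^ 2 * q' := by linear_combination -h2
          exact h5
        rw [this]
        ring
      · apply hq (I.map Fin.castSuccEmb) (by simpa using hne)
        rw [Finset.prod_map]
        refine ⟨a, ?_⟩
        rw [h] at h2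
        have h5 : ∏ i ∈ I, q i.castSucc = a * a := by linear_combination -h2
        exact h5
    have hind := ih L' K (fun i => s i.castSucc) (fun i => algebraMap L L' (q i.castSucc))
      (fun i => hs _) hI
    rw [Fintype.linearIndependent_iff] at hind ⊢
    intro g hg
    rw [ind_sum] at hg
    set c : Finset (Fin m) → L' := fun I =>
      algebraMap L L' (g (I.map Fin.castSuccEmb))
        + algebraMap L L' (g (insert (Fin.last m) (I.map Fin.castSuccEmb))) * ⟨t, htL'⟩ with hc
    have hcK : ∀ I, (algebraMap L' K (c I)) = algebraMap L K (g (I.map Fin.castSuccEmb))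
        + algebraMap L K (g (insert (Fin.last m) (I.map Fin.castSuccEmb))) * t := by
      intro I
      rw [hc]
      rfl
    have h0 : ∑ I : Finset (Fin m), c I • ∏ i ∈ I, s i.castSucc = 0 := by
      rw [← hg, ← Finset.sum_add_distrib]
      apply Finset.sum_congr rfl
      intro I _
      rw [Algebra.smul_def, hcK, Algebra.smul_def, Algebra.smul_def, Finset.prod_insert (by simp),
        Finset.prod_map]
      simp only [Fin.castSuccEmb_apply]
      rw [← ht]
      ring
    have h1 := hind c h0
    have h2 : ∀ I : Finset (Fin m), g (I.map Fin.castSuccEmb) = 0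
        ∧ g (insert (Fin.last m) (I.map Fin.castSuccEmb)) = 0 := by
      intro I
      apply h1t
      rw [← hcK, h1 I, map_zero]
    intro J
    by_cases hJ : Fin.last m ∈ J
    · have hJ' : insert (Fin.last m)
          ((Finset.univ.filter (fun i : Fin m => i.castSucc ∈ J)).map Fin.castSuccEmb) = J := by
        ext j
        refine Fin.lastCases ?_ (fun i => ?_) j
        · simp [hJ]
        · simp [Fin.castSucc_ne_last]
      rw [← hJ']
      exact (h2 _).2
    · have hJ' : ((Finset.univ.filter (fun i : Fin m => i.castSucc ∈ J)).map Fin.castSuccEmb) = J := by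
        ext j
        refine Fin.lastCases ?_ (fun i => ?_) j
        · simp [hJ]
        · simp
      rw [← hJ']
      exact (h2 _).1

end Pool.Agent.H43.RH
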