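/-
S1 (Swp).  Degrees and the swap of the two variables.  MATHLIB ONLY, about 100 lines.
(1) coeff i of F has natDegree ≤ natDegree (swap F): coefficient j of coefficient i of F is coefficient i of coefficient
 j of swap F (linearity + swap_monomial_monomial), so it vanishes for j > natDegree (swap F).
(2) evalEval of the swap: Bivariate.aevalAeval_swap with A = ℂ (aevalAeval = evalEval).
(3) the converse of (1): if all coefficients of F have natDegree ≤ d then natDegree (swap F) ≤ d.
(4) (F.eval (C c)).natDegree ≤ natDegree (swap F) (sum of C c ^ i * coeff i).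
(5) derivative: natDegree (swap (derivative F)) ≤ natDegree (swap F), from (1), (3), coeff_derivative.
(6), (7) qq.
-/
import Pool.Agent.H43.RH.Defs

namespace Pool.Agent.H43.RH
open Polynomial Polynomial.Bivariate

theorem coeff_coeff_swap (F : ℂ[X][Y]) (i j : ℕ) :
    ((swap F).coeff j).coeff i = (F.coeff i).coeff j := by
  induction F using Polynomial.induction_on' with
  | add p q hp hq => rw [map_add, coeff_add, coeff_add, hp, hq, coeff_add, coeff_add]
  | monomial n a =>
    induction a using Polynomial.induction_on' with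
    | add p q hp hq => rw [map_add (monomial n), map_add, coeff_add, coeff_add, hp, hq, coeff_add,
        coeff_add]
    | monomial m r =>
      rw [swap_monomial_monomial, coeff_monomial, coeff_monomial]
      by_cases h1 : m = j
      · by_cases h2 : n = i
        · rw [if_pos h1, if_pos h2, coeff_monomial, coeff_monomial, if_pos h1, if_pos h2]
        · rw [if_pos h1, if_neg h2, coeff_monomial, if_neg h2, coeff_zero]
      · by_cases h2 : n = i
        · rw [if_neg h1, if_pos h2, coeff_monomial, if_neg h1, coeff_zero]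
        · rw [if_neg h1, if_neg h2, coeff_zero, coeff_zero]

theorem coeff_natDegree_le (F : ℂ[X][Y]) (i : ℕ) : (F.coeff i).natDegree ≤ (swap F).natDegree := by
  rw [natDegree_le_iff_coeff_eq_zero]
  intro j hj
  rw [← coeff_coeff_swap, coeff_eq_zero_of_natDegree_lt hj, coeff_zero]

theorem evalEval_swap (F : ℂ[X][Y]) (z w : ℂ) : (swap F).evalEval z w = F.evalEval w z := by
  have h := Bivariate.aevalAeval_swap (A := ℂ) z w F
  rw [coe_aevalAeval_eq_evalEval, coe_aevalAeval_eq_evalEval] at h
  exact h

theorem swap_natDegree_le (F : ℂ[X][Y]) (d : ℕ) (h : ∀ i, (F.coeff i).natDegree ≤ d) :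
    (swap F).natDegree ≤ d := by
  rw [natDegree_le_iff_coeff_eq_zero]
  intro j hj
  ext i
  rw [coeff_coeff_swap, coeff_zero]
  exact coeff_eq_zero_of_natDegree_lt (lt_of_le_of_lt (h i) hj)

theorem eval_C_natDegree_le (F : ℂ[X][Y]) (c : ℂ) : (F.eval (C c)).natDegree ≤ (swap F).natDegree := by
  rw [eval_eq_sum_range]
  refine natDegree_sum_le_of_forall_le _ _ fun i _ => ?_
  rw [← C_pow]
  refine le_trans (natDegree_mul_C_le _ _) (coeff_natDegree_le F i)

theorem swap_derivative_natDegree_le (F : ℂ[X][Y]) :
    (swap (derivative F)).natDegree ≤ (swap F).natDegree := by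
  refine swap_natDegree_le _ _ fun i => ?_
  rw [coeff_derivative]
  have h : ((i : ℂ[X]) + 1) = C ((i : ℂ) + 1) := by simp
  rw [h]
  exact le_trans (natDegree_mul_C_le _ _) (coeff_natDegree_le F (i + 1))

theorem qq_natDegree (p p' : ℂ) : (qq p p').natDegree ≤ 1 ∧ (swap (qq p p')).natDegree ≤ 1 := by
  constructor
  · unfold qq
    exact le_trans (natDegree_C_mul_le _ _) (natDegree_X_sub_C_le _)
  · refine swap_natDegree_le _ _ fun i => ?_
    unfold qq
    rw [coeff_C_mul, coeff_sub]
    have hc : (X : ℂ[X][Y]).coeff i - (C (C p') : ℂ[X][Y]).coeff i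
        = C ((X : ℂ[X]).coeff i - (C p' : ℂ[X]).coeff i) := by
      rw [coeff_X, coeff_X, coeff_C, coeff_C, C_sub]
      split_ifs <;> simp
    rw [hc]
    exact le_trans (natDegree_mul_C_le _ _) (natDegree_X_sub_C_le _)

theorem qq_evalEval (p p' z w : ℂ) : (qq p p').evalEval z w = (z - p) * (w - p') := by
  unfold qq
  rw [evalEval_mul, evalEval_C, evalEval_sub, evalEval_X, evalEval_C, eval_sub, eval_X, eval_C,
    eval_C]

end Pool.Agent.H43.RH
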