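/-
E1 (El).  Elimination by linear algebra.  Needs Swp (coeff_natDegree_le).  About 120 lines.
PROOF.  β = natDegree F ≥ 1, β' = natDegree G, D = β α' + β' α + α + α'.  Unknowns: A of Y-degree < β' with coefficients
of X-degree ≤ D - α, B of Y-degree < β with coefficients of X-degree ≤ D - α'.  Linear conditions: the coefficients of
Y^1, ..., Y^(β+β'-1) of A F + B G vanish; these coefficients have X-degree ≤ D.  Number of unknowns minus number of
conditions: β' (D - α + 1) + β (D - α' + 1) - (β + β' - 1) (D + 1) = D + 1 - β' α - β α' > 0.  So there is a solution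
(A, B) ≠ 0 (LinearMap.exists_ne_zero of finrank_lt / `LinearMap.exists_mem_ker...`: a linear map from a space of larger
finrank is not injective), and A F + B G = C R with natDegree R ≤ D.  If R = 0 then F ∣ B G, F ∤ G, so F ∣ B (prime),
B = 0 (Y-degree < β), A F = 0, A = 0: contradiction.  (A concrete way: unknowns as functions
Fin β' × Fin (D-α+1) ⊕ Fin β × Fin (D-α'+1) → ℂ, conditions Fin (β+β'-1) × Fin (D+1) → ℂ.)
-/
import Pool.Agent.H43.RH.Swp

namespace Pool.Agent.H43.RH
open Polynomial Polynomial.Bivariate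

private noncomputable def mkp (d e : ℕ) : (Fin d × Fin e → ℂ) →ₗ[ℂ] ℂ[X][Y] :=
  ∑ p : Fin d × Fin e, (LinearMap.proj p).smulRight
    (monomial (p.1 : ℕ) (monomial (p.2 : ℕ) (1 : ℂ)))

private theorem mkp_coeff (d e : ℕ) (f : Fin d × Fin e → ℂ) (i j : ℕ) :
    ((mkp d e f).coeff i).coeff j =
      ∑ p : Fin d × Fin e, if (p.1 : ℕ) = i ∧ (p.2 : ℕ) = j then f p else 0 := by
  rw [mkp, LinearMap.sum_apply, finsetSum_coeff, finsetSum_coeff]
  refine Finset.sum_congr rfl fun p _ => ?_
  rw [LinearMap.smulRight_apply, LinearMap.proj_apply, coeff_smul, coeff_smul, coeff_monomial]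
  by_cases h1 : (p.1 : ℕ) = i
  · rw [if_pos h1, coeff_monomial]
    by_cases h2 : (p.2 : ℕ) = j
    · rw [if_pos h2, if_pos ⟨h1, h2⟩, smul_eq_mul, mul_one]
    · rw [if_neg h2, if_neg (fun h => h2 h.2), smul_zero]
  · rw [if_neg h1, if_neg (fun h => h1 h.1), coeff_zero, smul_zero]

private theorem mkp_inj (d e : ℕ) (f : Fin d × Fin e → ℂ) (h : mkp d e f = 0) : f = 0 := by
  funext p
  have h1 := mkp_coeff d e f p.1 p.2
  rw [h, coeff_zero, coeff_zero, Finset.sum_eq_single p] at h1
  · rw [if_pos ⟨rfl, rfl⟩] at h1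
    exact h1.symm
  · intro q _ hq
    refine if_neg fun hh => hq (Prod.ext (Fin.ext hh.1) (Fin.ext hh.2))
  · intro hp
    exact absurd (Finset.mem_univ p) hp

private theorem mkp_coeff_zero (d e : ℕ) (f : Fin d × Fin e → ℂ) (i : ℕ) (hi : d ≤ i) :
    (mkp d e f).coeff i = 0 := by
  ext j
  rw [mkp_coeff, coeff_zero]
  refine Finset.sum_eq_zero fun p _ => if_neg fun hh => ?_
  have := p.1.2
  omega

private theorem mkp_natDegree (d e : ℕ) (f : Fin d × Fin (e + 1) → ℂ) (i : ℕ) :
    ((mkp d (e + 1) f).coeff i).natDegree ≤ e := by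
  refine natDegree_le_iff_coeff_eq_zero.2 fun j hj => ?_
  rw [mkp_coeff]
  refine Finset.sum_eq_zero fun p _ => if_neg fun hh => ?_
  have := p.2.2
  omega

private theorem mul_coeff_natDegree (P Q : ℂ[X][Y]) (a b : ℕ) (hP : ∀ i, (P.coeff i).natDegree ≤ a)
    (hQ : ∀ i, (Q.coeff i).natDegree ≤ b) (i : ℕ) : ((P * Q).coeff i).natDegree ≤ a + b := by
  rw [coeff_mul]
  refine natDegree_sum_le_of_forall_le _ _ fun x _ => ?_
  exact (natDegree_mul_le).trans (add_le_add (hP _) (hQ _))

private theorem mul_coeff_zero (P Q : ℂ[X][Y]) (a : ℕ) (hP : ∀ i, a ≤ i → P.coeff i = 0) (i : ℕ)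
    (hi : a + Q.natDegree ≤ i) : (P * Q).coeff i = 0 := by
  rw [coeff_mul]
  refine Finset.sum_eq_zero fun x hx => ?_
  rw [Finset.HasAntidiagonal.mem_antidiagonal] at hx
  by_cases h : a ≤ x.1
  · rw [hP _ h, zero_mul]
  · rw [coeff_eq_zero_of_natDegree_lt (p := Q) (by omega), mul_zero]

theorem elim (F G : ℂ[X][Y]) (hF : Prime F) (h1 : 1 ≤ F.natDegree) (hG : ¬ F ∣ G) (α α' : ℕ)
    (hα : (swap F).natDegree ≤ α) (hα' : (swap G).natDegree ≤ α') :
    ∃ A B : ℂ[X][Y], ∃ R : ℂ[X], R ≠ 0 ∧ A * F + B * G = C R ∧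
      R.natDegree ≤ F.natDegree * α' + G.natDegree * α + α + α' := by
  set β := F.natDegree with hβ
  set β' := G.natDegree with hβ'
  set D := β * α' + β' * α + α + α' with hD
  have hαD : α ≤ D := by omega
  have hαD' : α' ≤ D := by omega
  let T : ((Fin β' × Fin (D - α + 1) → ℂ) × (Fin β × Fin (D - α' + 1) → ℂ)) →ₗ[ℂ]
      (Fin (β + β' - 1) × Fin (D + 1) → ℂ) :=
    { toFun := fun x p => ((mkp β' (D - α + 1) x.1 * F + mkp β (D - α' + 1) x.2 * G).coeff
        ((p.1 : ℕ) + 1)).coeff (p.2 : ℕ)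
      map_add' := fun x y => by
        funext p
        simp only [Prod.fst_add, Prod.snd_add, map_add, add_mul, coeff_add, Pi.add_apply]
        ring
      map_smul' := fun c x => by
        funext p
        simp only [Prod.smul_fst, Prod.smul_snd, map_smul, smul_mul_assoc, coeff_add, coeff_smul,
          Pi.smul_apply, RingHom.id_apply, smul_add] }
  have hker : LinearMap.ker T ≠ ⊥ := by
    refine LinearMap.ker_ne_bot_of_finrank_lt ?_
    rw [Module.finrank_prod]
    simp only [Module.finrank_fintype_fun_eq_card, Fintype.card_prod, Fintype.card_fin]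
    have e1 : β' * (D - α + 1) + β' * α = β' * (D + 1) := by
      rw [← mul_add]
      congr 1
      omega
    have e2 : β * (D - α' + 1) + β * α' = β * (D + 1) := by
      rw [← mul_add]
      congr 1
      omega
    have e3 : (β + β' - 1) * (D + 1) + (D + 1) = β * (D + 1) + β' * (D + 1) := by
      rw [← add_mul, ← Nat.succ_mul]
      congr 1
      omega
    omega
  obtain ⟨⟨a, b⟩, hab, hne⟩ := (Submodule.ne_bot_iff _).1 hker
  set A := mkp β' (D - α + 1) a with hA
  set B := mkp β (D - α' + 1) b with hB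
  have hcoeff : ∀ i j : ℕ, i < β + β' - 1 → j < D + 1 →
      ((A * F + B * G).coeff (i + 1)).coeff j = 0 := fun i j hi hj =>
    congrFun (LinearMap.mem_ker.1 hab) (⟨i, hi⟩, ⟨j, hj⟩)
  have hdeg : ∀ i, ((A * F + B * G).coeff i).natDegree ≤ D := by
    intro i
    rw [coeff_add]
    refine (natDegree_add_le _ _).trans (max_le ?_ ?_)
    · refine (mul_coeff_natDegree A F (D - α) α (fun k => mkp_natDegree _ _ _ _)
        (fun k => (coeff_natDegree_le F k).trans hα) i).trans (by omega)
    · refine (mul_coeff_natDegree B G (D - α') α' (fun k => mkp_natDegree _ _ _ _)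
        (fun k => (coeff_natDegree_le G k).trans hα') i).trans (by omega)
  have hPC : A * F + B * G = C ((A * F + B * G).coeff 0) := by
    refine Polynomial.ext fun i => ?_
    rcases Nat.eq_zero_or_pos i with hi | hi
    · rw [hi, coeff_C_zero]
    · rw [coeff_C, if_neg hi.ne']
      by_cases hi2 : i - 1 < β + β' - 1
      · refine Polynomial.ext fun j => ?_
        rw [coeff_zero]
        by_cases hj : j < D + 1
        · have := hcoeff (i - 1) j hi2 hj
          rwa [Nat.sub_add_cancel hi] at this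
        · exact coeff_eq_zero_of_natDegree_lt (lt_of_le_of_lt (hdeg i) (by omega))
      · rw [coeff_add, mul_coeff_zero A F β' (fun k hk => mkp_coeff_zero _ _ _ _ hk) i (by omega),
          mul_coeff_zero B G β (fun k hk => mkp_coeff_zero _ _ _ _ hk) i (by omega), add_zero]
  refine ⟨A, B, (A * F + B * G).coeff 0, ?_, hPC, hdeg 0⟩
  intro hR
  rw [hR, C_0] at hPC
  have hFB : F ∣ B * G := by
    refine ⟨-A, ?_⟩
    linear_combination hPC
  have hB0 : B = 0 := by
    rcases hF.dvd_or_dvd hFB with h | h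
    · refine eq_zero_of_dvd_of_natDegree_lt h ?_
      by_contra hcon
      have h2 : B ≠ 0 := fun h2 => by
        rw [h2, natDegree_zero] at hcon
        omega
      have h3 : B.coeff B.natDegree = 0 := mkp_coeff_zero _ _ _ _ (by omega)
      exact h2 (leadingCoeff_eq_zero.1 h3)
    · exact absurd h hG
  have hA0 : A = 0 := by
    rw [hB0, zero_mul, add_zero] at hPC
    exact (mul_eq_zero.1 hPC).resolve_right hF.ne_zero
  refine hne ?_
  rw [mkp_inj _ _ a hA0, mkp_inj _ _ b hB0]
  rfl

end Pool.Agent.H43.RH
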