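/-
Q1 (Sq).  X - p0 times a unit is not a square modulo F at a simple point.  Needs El, Swp.  About 120 lines.
Notation: P0 = (p0, w0), t = C (X - C p0), G(P0) = G.evalEval p0 w0.
LEMMA A: if G(P0) = 0 there are V, G' with V(P0) ≠ 0 and F ∣ V G - t G'.
 Proof: F - F(p0, Y) and G - G(p0, Y) are divisible by t (F(p0, Y) = (F.map (evalRingHom p0)).map C; coefficientwise
 X - C p0 ∣ f - C (f.eval p0)).  F(p0, Y) = (Y - w0) V with V(w0) = derivative at w0 ≠ 0, G(p0, Y) = (Y - w0) G1 (over ℂ,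
 dvd_iff_isRoot).  V G = V (Y - w0) G1 + t (..) = F(p0,Y) G1 + t(..) = F G1 + t (..).
LEMMA B: F ∤ t (natDegree F ≥ 1 because a constant F = C f has derivative 0; t = C (X - C p0) has natDegree 0, t ≠ 0,
 natDegree_le_of_dvd), so F ∣ t G implies F ∣ G (prime).
MAIN: claim by induction on e, for all U, V1, V2, R', B: it is impossible that U(P0) ≠ 0, F ∣ V1² - U t V2²,
 R'(P0) ≠ 0 and F ∣ R' t^e - B V2.  Proof: at P0: V1(P0)² = 0 (t(P0) = 0, F(P0) = 0).  Lemma A: F ∣ V V1 - t V1'.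
 Then F ∣ t (t V1'² - U V² V2²), so F ∣ t V1'² - (U V²) V2², so V2(P0) = 0.  If e = 0: R'(P0) = B(P0) V2(P0) = 0, contradiction.
 Lemma A: F ∣ V' V2 - t V2'.  Then F ∣ (V1' V')² - (U V²) t V2'² (multiply by V'², cancel t), and
 F ∣ V' R' t^e - B V' V2, V' V2 ≡ t V2', cancel t: F ∣ (V' R') t^(e-1) - B V2'.  Apply the induction hypothesis.
START: elim (F, V2) gives A F + B V2 = C R, R ≠ 0, R = (X - C p0)^e R0 with R0(p0) ≠ 0 (exists_eq_pow_rootMultiplicity_mul_and_not_dvd).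
-/
import Pool.Agent.H43.RH.El

namespace Pool.Agent.H43.RH
open Polynomial Polynomial.Bivariate

private theorem red_p0 (G : ℂ[X][Y]) (p0 : ℂ) :
    C (X - C p0) ∣ G - (G.map (evalRingHom p0)).map C := by
  rw [C_dvd_iff_dvd_coeff]
  intro i
  rw [coeff_sub, coeff_map, coeff_map]
  exact X_sub_C_dvd_sub_C_eval

private theorem map_root (G : ℂ[X][Y]) (p0 w0 : ℂ) :
    (G.map (evalRingHom p0)).eval w0 = G.evalEval p0 w0 := by
  have h := red_p0 G p0
  obtain ⟨K, hK⟩ := h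
  have h2 := congrArg (evalEval p0 w0) hK
  rw [evalEval_sub, evalEval_mul, evalEval_map_C, evalEval_C] at h2
  simp only [eval_sub, eval_X, eval_C, sub_self, zero_mul] at h2
  exact (sub_eq_zero.1 h2).symm

private theorem lemA (F G : ℂ[X][Y]) (p0 w0 : ℂ) (h0 : F.evalEval p0 w0 = 0)
    (h1 : (derivative F).evalEval p0 w0 ≠ 0) (hG : G.evalEval p0 w0 = 0) :
    ∃ V G' : ℂ[X][Y], V.evalEval p0 w0 ≠ 0 ∧ F ∣ V * G - C (X - C p0) * G' := by
  obtain ⟨F', hF'⟩ := red_p0 F p0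
  obtain ⟨G'', hG''⟩ := red_p0 G p0
  have hf0 : (F.map (evalRingHom p0)).eval w0 = 0 := by rw [map_root, h0]
  have hg0 : (G.map (evalRingHom p0)).eval w0 = 0 := by rw [map_root, hG]
  obtain ⟨v, hv⟩ := dvd_iff_isRoot.2 hf0
  obtain ⟨g1, hg1⟩ := dvd_iff_isRoot.2 hg0
  have hv0 : v.eval w0 ≠ 0 := by
    intro h
    refine h1 ?_
    rw [← map_root, ← derivative_map, hv, derivative_mul]
    simp [h]
  refine ⟨v.map C, v.map C * G'' - F' * g1.map C, ?_, g1.map C, ?_⟩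
  · rwa [evalEval_map_C]
  · rw [hv, Polynomial.map_mul] at hF'
    rw [hg1, Polynomial.map_mul] at hG''
    linear_combination (v.map C) * hG'' - (g1.map C) * hF'

private theorem lemB (F G : ℂ[X][Y]) (p0 w0 : ℂ) (hF : Prime F)
    (h1 : (derivative F).evalEval p0 w0 ≠ 0) (h : F ∣ C (X - C p0) * G) : F ∣ G := by
  refine (hF.dvd_or_dvd h).resolve_left fun ht => ?_
  have hne : (C (X - C p0) : ℂ[X][Y]) ≠ 0 := fun h0 =>
    X_sub_C_ne_zero p0 (C_eq_zero.1 h0)
  have hd := natDegree_le_of_dvd ht hne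
  rw [natDegree_C] at hd
  have hd0 : F.natDegree = 0 := Nat.le_zero.1 hd
  rw [eq_C_of_natDegree_eq_zero hd0, derivative_C, evalEval_zero] at h1
  exact h1 rfl

private theorem ev_dvd (F G : ℂ[X][Y]) (p0 w0 : ℂ) (h0 : F.evalEval p0 w0 = 0) (h : F ∣ G) :
    G.evalEval p0 w0 = 0 := by
  obtain ⟨K, rfl⟩ := h
  rw [evalEval_mul, h0, zero_mul]

private theorem ev_t (p0 w0 : ℂ) : (C (X - C p0) : ℂ[X][Y]).evalEval p0 w0 = 0 := by
  rw [evalEval_C]
  simp

private theorem main_ind (F : ℂ[X][Y]) (p0 w0 : ℂ) (hF : Prime F) (h0 : F.evalEval p0 w0 = 0)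
    (h1 : (derivative F).evalEval p0 w0 ≠ 0) (e : ℕ) : ∀ U V1 V2 R B : ℂ[X][Y],
    U.evalEval p0 w0 ≠ 0 → F ∣ V1 ^ 2 - U * C (X - C p0) * V2 ^ 2 →
    R.evalEval p0 w0 ≠ 0 → F ∣ R * C (X - C p0) ^ e - B * V2 → False := by
  induction e with
  | zero =>
    intro U V1 V2 R B hU hV hR hRB
    have e1 := ev_dvd F _ p0 w0 h0 hV
    rw [evalEval_sub, evalEval_pow, evalEval_mul, evalEval_mul, ev_t, mul_zero, zero_mul,
      sub_zero] at e1
    have e1' : V1.evalEval p0 w0 = 0 := pow_eq_zero_iff (two_ne_zero) |>.1 e1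
    obtain ⟨V, V1', hVne, hVd⟩ := lemA F V1 p0 w0 h0 h1 e1'
    have d1 : F ∣ C (X - C p0) * (C (X - C p0) * V1' ^ 2 - U * V ^ 2 * V2 ^ 2) := by
      have := (hV.mul_left (V ^ 2)).sub (hVd.mul_right (V * V1 + C (X - C p0) * V1'))
      convert this using 1
      ring
    have d2 := ev_dvd F _ p0 w0 h0 (lemB F _ p0 w0 hF h1 d1)
    rw [evalEval_sub, evalEval_mul, ev_t, zero_mul, zero_sub, neg_eq_zero, evalEval_mul,
      evalEval_mul, evalEval_pow, evalEval_pow] at d2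
    have e2 : V2.evalEval p0 w0 = 0 := by
      rcases mul_eq_zero.1 d2 with h | h
      · rcases mul_eq_zero.1 h with h | h
        · exact absurd h hU
        · exact absurd (pow_eq_zero_iff two_ne_zero |>.1 h) hVne
      · exact pow_eq_zero_iff two_ne_zero |>.1 h
    have e3 := ev_dvd F _ p0 w0 h0 hRB
    rw [pow_zero, mul_one, evalEval_sub, evalEval_mul, e2, mul_zero, sub_zero] at e3
    exact hR e3
  | succ e ih =>
    intro U V1 V2 R B hU hV hR hRB
    have e1 := ev_dvd F _ p0 w0 h0 hV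
    rw [evalEval_sub, evalEval_pow, evalEval_mul, evalEval_mul, ev_t, mul_zero, zero_mul,
      sub_zero] at e1
    have e1' : V1.evalEval p0 w0 = 0 := pow_eq_zero_iff (two_ne_zero) |>.1 e1
    obtain ⟨V, V1', hVne, hVd⟩ := lemA F V1 p0 w0 h0 h1 e1'
    have d1 : F ∣ C (X - C p0) * (C (X - C p0) * V1' ^ 2 - U * V ^ 2 * V2 ^ 2) := by
      have := (hV.mul_left (V ^ 2)).sub (hVd.mul_right (V * V1 + C (X - C p0) * V1'))
      convert this using 1
      ring
    have d1' := lemB F _ p0 w0 hF h1 d1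
    have d2 := ev_dvd F _ p0 w0 h0 d1'
    rw [evalEval_sub, evalEval_mul, ev_t, zero_mul, zero_sub, neg_eq_zero, evalEval_mul,
      evalEval_mul, evalEval_pow, evalEval_pow] at d2
    have e2 : V2.evalEval p0 w0 = 0 := by
      rcases mul_eq_zero.1 d2 with h | h
      · rcases mul_eq_zero.1 h with h | h
        · exact absurd h hU
        · exact absurd (pow_eq_zero_iff two_ne_zero |>.1 h) hVne
      · exact pow_eq_zero_iff two_ne_zero |>.1 h
    obtain ⟨V', V2', hVne', hVd'⟩ := lemA F V2 p0 w0 h0 h1 e2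
    have d3 : F ∣ C (X - C p0) * ((V' * V1') ^ 2 - U * V ^ 2 * C (X - C p0) * V2' ^ 2) := by
      have := (d1'.mul_left (V' ^ 2)).add
        (hVd'.mul_right (U * V ^ 2 * (V' * V2 + C (X - C p0) * V2')))
      convert this using 1
      ring
    have d4 : F ∣ C (X - C p0) * (V' * R * C (X - C p0) ^ e - B * V2') := by
      have := (hRB.mul_left V').add (hVd'.mul_right B)
      convert this using 1
      ring
    refine ih (U * V ^ 2) (V' * V1') V2' (V' * R) B ?_ (lemB F _ p0 w0 hF h1 d3) ?_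
      (lemB F _ p0 w0 hF h1 d4)
    · rw [evalEval_mul, evalEval_pow]
      exact mul_ne_zero hU (pow_ne_zero _ hVne)
    · rw [evalEval_mul]
      exact mul_ne_zero hVne' hR

theorem sq_point (F U V1 V2 : ℂ[X][Y]) (p0 w0 : ℂ) (hF : Prime F) (h0 : F.evalEval p0 w0 = 0)
    (h1 : (derivative F).evalEval p0 w0 ≠ 0) (hU : U.evalEval p0 w0 ≠ 0) (hV2 : ¬ F ∣ V2)
    (h : F ∣ V1 ^ 2 - U * C (X - C p0) * V2 ^ 2) : False := by
  have hdeg : 1 ≤ F.natDegree := by
    by_contra hcon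
    have hd0 : F.natDegree = 0 := by omega
    rw [eq_C_of_natDegree_eq_zero hd0, derivative_C, evalEval_zero] at h1
    exact h1 rfl
  obtain ⟨A, B, R, hR, hAB, -⟩ := elim F V2 hF hdeg hV2 _ _ le_rfl le_rfl
  obtain ⟨R0, hR0, hnd⟩ := exists_eq_pow_rootMultiplicity_mul_and_not_dvd R hR p0
  refine main_ind F p0 w0 hF h0 h1 (rootMultiplicity p0 R) U V1 V2 (C R0) B hU h ?_ ?_
  · rw [evalEval_C]
    exact fun h => hnd (dvd_iff_isRoot.2 h)
  · refine ⟨A, ?_⟩
    rw [← C_pow, ← C_mul, mul_comm R0, ← hR0, ← hAB]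
    ring

end Pool.Agent.H43.RH
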