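/-
Q2 (Alg).  F does not divide the specialised norm polynomial.  Needs Ind, Sq, Swp.  About 120 lines.
PROOF.  O = ℂ[X][Y] ⧸ (F) is a domain, L = FractionRing O, K = AlgebraicClosure L.  q_i = image in L of
qq (p i) (conj (p i)), s_i in K with s_i² = q_i (IsAlgClosed.exists_pow_nat_eq / exists_eq_mul_self).
(1) No nonempty product ∏_{I} q is a square in L: fix i0 in I.  If ∏_I q = (x/y)² with x, y in O, y ≠ 0, lift:
 F ∣ V1² - (∏_I qq) V2², F ∤ V2.  ∏_I qq (p i) (conj p i) = U * C (X - C (p i0)) with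
 U = (Y - conj(p i0)) * ∏_{i in I, i ≠ i0} qq, and U(p i0, w i0) ≠ 0 because w i0 ≠ conj (p j) for all j (off) and
 p i0 ≠ p j for j ≠ i0 (inj).  Contradiction with sq_point (zero, simple).
(2) ind: the products ∏_I s are linearly independent over L, hence for every σ the sum ∑ a_I ∏_I (± s_i)
 = ∑ (± a_I) ∏_I s_i is not zero (a ≠ 0; the coefficients a_I are images of elements of ℂ in L, injective).
(3) If F divides the polynomial, its image in K is 0; but it is aeval (s_i²) N = ∏_σ (...) ≠ 0 by NormId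
 (the map ℂ[X][Y] → O → L → K is a ℂ-algebra map).  Contradiction.
-/
import Pool.Agent.H43.RH.Ind
import Pool.Agent.H43.RH.Sq

namespace Pool.Agent.H43.RH
open Polynomial Polynomial.Bivariate

private theorem alg_sq (F : ℂ[X][Y]) (hF : Prime F) (m : ℕ) (p w : Fin m → ℂ)
    (hg : GoodPts F m p w) (I : Finset (Fin m)) (i0 : Fin m) (hi0 : i0 ∈ I) (V1 V2 : ℂ[X][Y])
    (hV2 : ¬ F ∣ V2)
    (h : F ∣ V1 ^ 2 - (∏ i ∈ I, qq (p i) ((starRingEnd ℂ) (p i))) * V2 ^ 2) : False := by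
  classical
  let U : ℂ[X][Y] := (X - C (C ((starRingEnd ℂ) (p i0)))) *
    ∏ i ∈ I.erase i0, qq (p i) ((starRingEnd ℂ) (p i))
  have hprod : ∏ i ∈ I, qq (p i) ((starRingEnd ℂ) (p i)) = U * C (X - C (p i0)) := by
    rw [← Finset.mul_prod_erase I _ hi0]
    simp only [U, qq]
    ring
  have hU : U.evalEval (p i0) (w i0) ≠ 0 := by
    simp only [U]
    rw [evalEval_mul, evalEval_prod]
    refine mul_ne_zero ?_ (Finset.prod_ne_zero_iff.2 fun j hj => ?_)
    · rw [evalEval_sub, evalEval_X, evalEval_C, eval_C]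
      exact sub_ne_zero.2 (hg.off i0 i0)
    · rw [qq, evalEval_mul, evalEval_C, evalEval_sub, evalEval_X, evalEval_C, eval_C, eval_sub,
        eval_X, eval_C]
      refine mul_ne_zero (sub_ne_zero.2 fun hij => ?_) (sub_ne_zero.2 (hg.off i0 j))
      exact (Finset.ne_of_mem_erase hj) (hg.inj hij).symm
  rw [hprod] at h
  exact sq_point F U V1 V2 (p i0) (w i0) hF (hg.zero i0) (hg.simple i0) hU hV2 h

private theorem alg_core (F : ℂ[X][Y]) (hF : Prime F) (m : ℕ) (p w : Fin m → ℂ)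
    (hg : GoodPts F m p w) (a : Finset (Fin m) → ℂ) (ha : a ≠ 0) (N : MvPolynomial (Fin m) ℂ)
    (hN : NormId m a N) (O L K : Type) [CommRing O] [IsDomain O] [Field L] [Field K]
    [Algebra ℂ O] [Algebra O L] [IsFractionRing O L] [Algebra ℂ L] [IsScalarTower ℂ O L]
    [Algebra L K] [Algebra ℂ K] [IsScalarTower ℂ L K] [IsAlgClosed K] (π : ℂ[X][Y] →ₐ[ℂ] O)
    (hπ : ∀ G, π G = 0 ↔ F ∣ G) (hs : Function.Surjective π) :
    ¬ F ∣ MvPolynomial.aeval (fun i => qq (p i) ((starRingEnd ℂ) (p i))) N := by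
  classical
  have _ : CharZero L := charZero_of_injective_algebraMap (algebraMap ℂ L).injective
  let Q : Fin m → ℂ[X][Y] := fun i => qq (p i) ((starRingEnd ℂ) (p i))
  let ι : ℂ[X][Y] →ₐ[ℂ] L := (IsScalarTower.toAlgHom ℂ O L).comp π
  let κ : ℂ[X][Y] →ₐ[ℂ] K := (IsScalarTower.toAlgHom ℂ L K).comp ι
  have hι : ∀ G, ι G = algebraMap O L (π G) := fun G => rfl
  have hκ : ∀ G, κ G = algebraMap L K (ι G) := fun G => rfl
  have hinj : Function.Injective (algebraMap O L) := IsFractionRing.injective O L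
  have hι0 : ∀ G, ι G = 0 ↔ F ∣ G := by
    intro G
    rw [hι, map_eq_zero_iff _ hinj]
    exact hπ G
  choose s hsq using fun i => IsAlgClosed.exists_pow_nat_eq (algebraMap L K (ι (Q i)))
    (n := 2) (by norm_num)
  have hq : ∀ I : Finset (Fin m), I.Nonempty → ¬ IsSquare (∏ i ∈ I, ι (Q i)) := by
    rintro I ⟨i0, hi0⟩ ⟨y, hy⟩
    obtain ⟨x1, x2, hx2, rfl⟩ := IsFractionRing.div_surjective O y
    obtain ⟨V1, rfl⟩ := hs x1
    obtain ⟨V2, rfl⟩ := hs x2
    have hne : π V2 ≠ 0 := nonZeroDivisors.ne_zero hx2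
    have hne' : algebraMap O L (π V2) ≠ 0 := by
      rw [Ne, map_eq_zero_iff _ hinj]
      exact hne
    refine alg_sq F hF m p w hg I i0 hi0 V1 V2 (fun hd => hne ((hπ V2).2 hd)) ?_
    rw [← hι0, map_sub, map_mul, map_pow, map_pow, map_prod, hy, hι V1, hι V2]
    field_simp
    ring
  have hli := ind m L K s (fun i => ι (Q i)) hsq hq
  intro hd
  have h1 : κ (MvPolynomial.aeval Q N) = 0 := by
    rw [hκ, (hι0 _).2 hd, map_zero]
  rw [MvPolynomial.comp_aeval_apply] at h1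
  have h2 : (fun i => κ (Q i)) = fun i => s i ^ 2 := by
    funext i
    rw [hκ, hsq i]
  rw [h2, hN K s, Finset.prod_eq_zero_iff] at h1
  obtain ⟨σ, -, hσ⟩ := h1
  have h3 : ∑ I : Finset (Fin m), (algebraMap ℂ L (a I * ∏ i ∈ I, (if i ∈ σ then (-1 : ℂ) else 1)))
      • ∏ i ∈ I, s i = 0 := by
    rw [← hσ]
    refine Finset.sum_congr rfl fun I _ => ?_
    rw [algebraMap_smul, mul_smul]
    congr 1
    rw [Algebra.smul_def, map_prod, ← Finset.prod_mul_distrib]
    refine Finset.prod_congr rfl fun i _ => ?_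
    by_cases hi : i ∈ σ
    · rw [if_pos hi, if_pos hi, map_neg, map_one, neg_one_mul]
    · rw [if_neg hi, if_neg hi, map_one, one_mul]
  have h4 := Fintype.linearIndependent_iff.1 hli _ h3
  apply ha
  funext I
  have h5 := h4 I
  rw [map_eq_zero_iff _ (algebraMap ℂ L).injective, mul_eq_zero] at h5
  rcases h5 with h5 | h5
  · exact h5
  · exfalso
    rw [Finset.prod_eq_zero_iff] at h5
    obtain ⟨i, -, hi⟩ := h5
    by_cases h : i ∈ σ
    · rw [if_pos h] at hi
      norm_num at hi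
    · rw [if_neg h] at hi
      norm_num at hi

theorem alg (F : ℂ[X][Y]) (hF : Prime F) (m : ℕ) (p w : Fin m → ℂ) (hg : GoodPts F m p w)
    (a : Finset (Fin m) → ℂ) (ha : a ≠ 0) (N : MvPolynomial (Fin m) ℂ) (hN : NormId m a N) :
    ¬ F ∣ MvPolynomial.aeval (fun i => qq (p i) ((starRingEnd ℂ) (p i))) N := by
  have hP : (Ideal.span {F}).IsPrime := (Ideal.span_singleton_prime hF.ne_zero).2 hF
  have _ : IsDomain (ℂ[X][Y] ⧸ Ideal.span {F}) := Ideal.Quotient.isDomain _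
  refine alg_core F hF m p w hg a ha N hN (ℂ[X][Y] ⧸ Ideal.span {F})
    (FractionRing (ℂ[X][Y] ⧸ Ideal.span {F}))
    (AlgebraicClosure (FractionRing (ℂ[X][Y] ⧸ Ideal.span {F})))
    (Ideal.Quotient.mkₐ ℂ (Ideal.span {F})) (fun G => ?_) (Ideal.Quotient.mkₐ_surjective ℂ _)
  rw [Ideal.Quotient.mkₐ_eq_mk, Ideal.Quotient.eq_zero_iff_mem, Ideal.mem_span_singleton]

end Pool.Agent.H43.RH
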