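/-
A1 (Tay).  Truncation of a Taylor series.  MATHLIB ONLY, about 60 lines.
PROOF.  Cauchy power series on the ball of radius R (DifferentiableOn.hasFPowerSeriesOnBall or
DiffContOnCl / `Complex.hasSum_taylorSeries_on_ball`, with coefficients bounded by M/R^s:
`norm_cauchyPowerSeries_le` or `Complex.norm_iteratedDeriv_le_of_forall_mem_sphere_norm_le`).
For |v| ≤ r: |φ v - sum_{s<τ} a_s v^s| ≤ sum_{s≥τ} M (r/R)^s = M (r/R)^τ/(1 - r/R) ≤ 2 M (r/R)^τ.
-/
/-
A1 (Tay).  Truncation of a Taylor series.  MATHLIB ONLY, about 60 lines.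
PROOF.  Cauchy power series on the ball of radius R (DifferentiableOn.hasFPowerSeriesOnBall or
DiffContOnCl / `Complex.hasSum_taylorSeries_on_ball`, with coefficients bounded by M/R^s:
`norm_cauchyPowerSeries_le` or `Complex.norm_iteratedDeriv_le_of_forall_mem_sphere_norm_le`).
For |v| ≤ r: |φ v - sum_{s<τ} a_s v^s| ≤ sum_{s≥τ} M (r/R)^s = M (r/R)^τ/(1 - r/R) ≤ 2 M (r/R)^τ.
-/
import Pool.Agent.H43.RH.Defs

namespace Pool.Agent.H43.RH

theorem taylor_trunc (φ : ℂ → ℂ) (R R' r M : ℝ) (hr : 0 < r) (hrR : 2 * r ≤ R) (hR' : R < R')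
    (hφ : DifferentiableOn ℂ φ (Metric.ball 0 R')) (hM : ∀ v : ℂ, ‖v‖ ≤ R → ‖φ v‖ ≤ M) (τ : ℕ) :
    ∃ a : Fin τ → ℂ, ∀ v : ℂ, ‖v‖ ≤ r →
      ‖φ v - ∑ s, a s * v ^ (s : ℕ)‖ ≤ 2 * M * (r / R) ^ τ := by
  have hR : 0 < R := by linarith
  have hM0 : 0 ≤ M := (norm_nonneg _).trans (hM 0 (by simpa using hR.le))
  have hq0 : 0 ≤ r / R := by positivity
  have hq : r / R ≤ 1 / 2 := by
    rw [div_le_div_iff₀ hR (by norm_num)]
    linarith
  have hcoef : ∀ n : ℕ, ‖((n.factorial : ℂ))⁻¹ * iteratedDeriv n φ 0‖ ≤ M / R ^ n := by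
    intro n
    have hd : DiffContOnCl ℂ φ (Metric.ball 0 R) := by
      refine DifferentiableOn.diffContOnCl ?_
      refine hφ.mono ?_
      rw [closure_ball (0 : ℂ) hR.ne']
      exact Metric.closedBall_subset_ball hR'
    have h1 := Complex.norm_iteratedDeriv_le_of_forall_mem_sphere_norm_le (n := n) hR hd
      (fun z hz => hM z (by
        rw [mem_sphere_zero_iff_norm] at hz
        exact hz.le))
    rw [norm_mul, norm_inv, Complex.norm_natCast]
    have h2 : (0 : ℝ) < (n.factorial : ℝ) := by exact_mod_cast n.factorial_pos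
    calc ((n.factorial : ℝ))⁻¹ * ‖iteratedDeriv n φ 0‖
        ≤ ((n.factorial : ℝ))⁻¹ * (n.factorial * M / R ^ n) :=
          mul_le_mul_of_nonneg_left h1 (by positivity)
      _ = M / R ^ n := by field_simp
  refine ⟨fun s => (((s : ℕ).factorial : ℂ))⁻¹ * iteratedDeriv (s : ℕ) φ 0, fun v hv => ?_⟩
  have hvb : v ∈ Metric.ball (0 : ℂ) R' := by
    rw [mem_ball_zero_iff]
    linarith
  have h1 := Complex.hasSum_taylorSeries_on_ball hφ hvb
  have h2 : HasSum (fun n : ℕ => ((n.factorial : ℂ))⁻¹ * iteratedDeriv n φ 0 * v ^ n) (φ v) := by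
    have he : (fun n : ℕ => ((n.factorial : ℂ))⁻¹ * iteratedDeriv n φ 0 * v ^ n) =
        fun n : ℕ => ((n.factorial : ℂ))⁻¹ • (v - 0) ^ n • iteratedDeriv n φ 0 := by
      funext n
      simp only [smul_eq_mul, sub_zero]
      ring
    rw [he]
    exact h1
  have h3 := (hasSum_nat_add_iff' τ).mpr h2
  have h4 : HasSum (fun n : ℕ => M * (r / R) ^ τ * (r / R) ^ n)
      (M * (r / R) ^ τ * (1 - r / R)⁻¹) :=
    (hasSum_geometric_of_lt_one hq0 (by linarith)).mul_left _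
  have h5 := h3.norm_le_of_bounded h4 (fun n => by
    rw [norm_mul, norm_pow]
    calc ‖((((n + τ).factorial : ℕ) : ℂ))⁻¹ * iteratedDeriv (n + τ) φ 0‖ * ‖v‖ ^ (n + τ)
        ≤ M / R ^ (n + τ) * r ^ (n + τ) :=
          mul_le_mul (hcoef (n + τ)) (pow_le_pow_left₀ (norm_nonneg _) hv _) (by positivity)
            (by positivity)
      _ = M * (r / R) ^ τ * (r / R) ^ n := by
          rw [div_pow, div_pow, pow_add, pow_add]
          field_simp)
  have h6 : ∑ i ∈ Finset.range τ, ((i.factorial : ℂ))⁻¹ * iteratedDeriv i φ 0 * v ^ i =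
      ∑ s : Fin τ, (((s : ℕ).factorial : ℂ))⁻¹ * iteratedDeriv (s : ℕ) φ 0 * v ^ (s : ℕ) :=
    Finset.sum_range _
  rw [h6] at h5
  refine h5.trans ?_
  have h7 : (1 - r / R)⁻¹ ≤ 2 := by
    rw [inv_le_comm₀ (by linarith) (by norm_num)]
    linarith
  calc M * (r / R) ^ τ * (1 - r / R)⁻¹ ≤ M * (r / R) ^ τ * 2 :=
        mul_le_mul_of_nonneg_left h7 (by positivity)
    _ = 2 * M * (r / R) ^ τ := by ring

end Pool.Agent.H43.RH
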