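/-
A2 (Approx).  The product of the distances to far away points is nearly a polynomial in v and conj v.
Needs Tay.  About 100 lines.
PROOF.  φ v = ∏_{i in I} (1 + v/w_i)^{1/2} (principal branch, cpow; for |v| < r/θ one has |v/w_i| < 1, so 1 + v/w_i is in
the slit plane and φ is differentiable there).  |φ v|² = ∏ |1 + v/w_i|, so ∏ |v + w_i| = W0 φ(v) conj φ(v) with
W0 = ∏_{i in I} |w_i| ≤ W^m.  R = r/(2θ) ≥ 2r: for |v| ≤ R, |1 + v/w_i| ≤ 3/2, |φ v|² ≤ (3/2)^m, so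
|φ v| ≤ M = (3/2)^(m/2) := sqrt((3/2)^m).  taylor_trunc: T v = sum a_s v^s, |φ - T| ≤ ε = 2 M (2θ)^τ ≤ 2 M for
|v| ≤ r (r/R = 2θ ≤ 1/2).  Then | |φ|² - T conj T | ≤ |φ - T| (|φ| + |T|) ≤ ε (2 M + ε) ≤ 8 M² (2θ)^τ = 8 (3/2)^m (2θ)^τ.
Multiply by W0 ≤ W^m: error ≤ 8 ((3/2) W)^m (2θ)^τ ≤ 8 (2W)^m (2θ)^τ.  The approximant: a s t = W0 a_s conj a_t.
-/
import Pool.Agent.H43.RH.Tay

namespace Pool.Agent.H43.RH

theorem approx (m τ : ℕ) (w : Fin m → ℂ) (r θ W : ℝ) (hr : 0 < r) (hθ : 0 < θ) (hθ1 : θ ≤ 1 / 4)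
    (hW : 1 ≤ W) (hw1 : ∀ i, r / θ ≤ ‖w i‖) (hw2 : ∀ i, ‖w i‖ ≤ W) (I : Finset (Fin m)) :
    ∃ a : Fin τ → Fin τ → ℂ, ∀ v : ℂ, ‖v‖ ≤ r →
      ‖((∏ i ∈ I, ‖v + w i‖ : ℝ) : ℂ)
          - ∑ s, ∑ t, a s t * v ^ (s : ℕ) * ((starRingEnd ℂ) v) ^ (t : ℕ)‖
        ≤ 8 * (2 * W) ^ m * (2 * θ) ^ τ := by
  have hcard : I.card ≤ m := by
    have h := Finset.card_le_univ I
    rwa [Fintype.card_fin] at h
  have hR'pos : 0 < r / θ := div_pos hr hθ
  have hwpos : ∀ i, 0 < ‖w i‖ := fun i => lt_of_lt_of_le hR'pos (hw1 i)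
  have hw0 : ∀ i, w i ≠ 0 := fun i => norm_pos_iff.1 (hwpos i)
  set φ : ℂ → ℂ := fun v => ∏ i ∈ I, (1 + v / w i) ^ (((2 : ℕ) : ℂ)⁻¹) with hφdef
  have hφsq : ∀ v, ‖φ v‖ ^ 2 = ∏ i ∈ I, ‖1 + v / w i‖ := by
    intro v
    rw [hφdef]
    simp only
    rw [norm_prod, ← Finset.prod_pow]
    refine Finset.prod_congr rfl fun i _ => ?_
    rw [← norm_pow, Complex.cpow_nat_inv_pow _ (by norm_num)]
  have hdiff : DifferentiableOn ℂ φ (Metric.ball 0 (r / θ)) := by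
    intro v hv
    refine DifferentiableAt.differentiableWithinAt ?_
    rw [mem_ball_zero_iff] at hv
    have h1 : ∀ i ∈ I, DifferentiableAt ℂ (fun v => (1 + v / w i) ^ (((2 : ℕ) : ℂ)⁻¹)) v := by
      intro i _
      have h2 : DifferentiableAt ℂ (fun v => 1 + v / w i) v :=
        (differentiableAt_id.div_const (w i)).const_add 1
      refine DifferentiableAt.cpow h2 (differentiableAt_const _) ?_
      refine Complex.mem_slitPlane_of_norm_lt_one ?_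
      rw [norm_div, div_lt_one (hwpos i)]
      exact lt_of_lt_of_le hv (hw1 i)
    exact DifferentiableAt.fun_finsetProd h1
  set M : ℝ := Real.sqrt ((3 / 2 : ℝ) ^ m) with hMdef
  have hM0 : 0 ≤ M := Real.sqrt_nonneg _
  have hMsq : M ^ 2 = (3 / 2 : ℝ) ^ m := Real.sq_sqrt (by positivity)
  have hMb : ∀ v : ℂ, ‖v‖ ≤ r / (2 * θ) → ‖φ v‖ ≤ M := by
    intro v hv
    refine Real.le_sqrt_of_sq_le ?_
    rw [hφsq]
    have h1 : ∏ i ∈ I, ‖1 + v / w i‖ ≤ ∏ _i ∈ I, (3 / 2 : ℝ) := by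
      refine Finset.prod_le_prod (fun i _ => norm_nonneg _) fun i _ => ?_
      have h2 : ‖v / w i‖ ≤ 1 / 2 := by
        rw [norm_div, div_le_iff₀ (hwpos i)]
        calc ‖v‖ ≤ r / (2 * θ) := hv
          _ = 1 / 2 * (r / θ) := by field_simp
          _ ≤ 1 / 2 * ‖w i‖ := mul_le_mul_of_nonneg_left (hw1 i) (by norm_num)
      calc ‖1 + v / w i‖ ≤ ‖(1 : ℂ)‖ + ‖v / w i‖ := norm_add_le _ _
        _ ≤ 3 / 2 := by rw [norm_one]; linarith
    refine h1.trans ?_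
    rw [Finset.prod_const]
    exact pow_le_pow_right₀ (by norm_num) hcard
  have hRR : r / (2 * θ) < r / θ := by
    rw [div_lt_div_iff₀ (by positivity) hθ]
    nlinarith [mul_pos hr hθ]
  have hrR : 2 * r ≤ r / (2 * θ) := by
    rw [le_div_iff₀ (by positivity)]
    nlinarith [mul_le_mul_of_nonneg_left hθ1 hr.le]
  obtain ⟨a, ha⟩ := taylor_trunc φ (r / (2 * θ)) (r / θ) r M hr hrR hRR hdiff hMb τ
  have hq : r / (r / (2 * θ)) = 2 * θ := by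
    field_simp
  rw [hq] at ha
  have hq0 : 0 ≤ (2 * θ) ^ τ := by positivity
  have hq1 : (2 * θ) ^ τ ≤ 1 := pow_le_one₀ (by positivity) (by linarith)
  set W0 : ℝ := ∏ i ∈ I, ‖w i‖ with hW0def
  have hW00 : 0 ≤ W0 := Finset.prod_nonneg fun i _ => norm_nonneg _
  have hW0W : W0 ≤ W ^ m := by
    have h1 : W0 ≤ ∏ _i ∈ I, W := Finset.prod_le_prod (fun i _ => norm_nonneg _) fun i _ => hw2 i
    refine h1.trans ?_
    rw [Finset.prod_const]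
    exact pow_le_pow_right₀ hW hcard
  refine ⟨fun s t => (W0 : ℂ) * a s * (starRingEnd ℂ) (a t), fun v hv => ?_⟩
  set T : ℂ := ∑ s, a s * v ^ (s : ℕ) with hTdef
  have hsum : ∑ s, ∑ t, (W0 : ℂ) * a s * (starRingEnd ℂ) (a t) * v ^ (s : ℕ) *
      ((starRingEnd ℂ) v) ^ (t : ℕ) = (W0 : ℂ) * (T * (starRingEnd ℂ) T) := by
    have h1 : (starRingEnd ℂ) T = ∑ t, (starRingEnd ℂ) (a t) * ((starRingEnd ℂ) v) ^ (t : ℕ) := by
      rw [hTdef, map_sum]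
      refine Finset.sum_congr rfl fun t _ => ?_
      rw [map_mul, map_pow]
    rw [h1, hTdef, Finset.sum_mul_sum, Finset.mul_sum]
    refine Finset.sum_congr rfl fun s _ => ?_
    rw [Finset.mul_sum]
    refine Finset.sum_congr rfl fun t _ => ?_
    ring
  have hprod : ((∏ i ∈ I, ‖v + w i‖ : ℝ) : ℂ) = (W0 : ℂ) * (φ v * (starRingEnd ℂ) (φ v)) := by
    rw [Complex.mul_conj, Complex.normSq_eq_norm_sq, hφsq, ← Complex.ofReal_mul]
    congr 1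
    rw [hW0def, ← Finset.prod_mul_distrib]
    refine Finset.prod_congr rfl fun i _ => ?_
    rw [← norm_mul]
    congr 1
    have := hw0 i
    field_simp
    ring
  have hε := ha v hv
  have hφM : ‖φ v‖ ≤ M := hMb v (hv.trans (by linarith))
  have hTM : ‖T‖ ≤ 3 * M := by
    have h1 : ‖T‖ ≤ ‖φ v‖ + ‖φ v - T‖ := by
      have h2 : T = φ v - (φ v - T) := by ring
      calc ‖T‖ = ‖φ v - (φ v - T)‖ := by rw [← h2]
        _ ≤ ‖φ v‖ + ‖φ v - T‖ := norm_sub_le _ _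
    have h3 : 2 * M * (2 * θ) ^ τ ≤ 2 * M := by
      have := mul_le_mul_of_nonneg_left hq1 (show 0 ≤ 2 * M by positivity)
      linarith
    linarith
  have hconj : ‖(starRingEnd ℂ) (φ v) - (starRingEnd ℂ) T‖ = ‖φ v - T‖ := by
    rw [← map_sub, RCLike.norm_conj]
  have hmain : ‖φ v * (starRingEnd ℂ) (φ v) - T * (starRingEnd ℂ) T‖ ≤
      8 * M ^ 2 * (2 * θ) ^ τ := by
    have h1 : φ v * (starRingEnd ℂ) (φ v) - T * (starRingEnd ℂ) T =
        (φ v - T) * (starRingEnd ℂ) (φ v) + T * ((starRingEnd ℂ) (φ v) - (starRingEnd ℂ) T) := by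
      ring
    rw [h1]
    refine (norm_add_le _ _).trans ?_
    rw [norm_mul, norm_mul, hconj, RCLike.norm_conj]
    have h2 : ‖φ v - T‖ * ‖φ v‖ ≤ (2 * M * (2 * θ) ^ τ) * M :=
      mul_le_mul hε hφM (norm_nonneg _) (by positivity)
    have h3 : ‖T‖ * ‖φ v - T‖ ≤ (3 * M) * (2 * M * (2 * θ) ^ τ) :=
      mul_le_mul hTM hε (norm_nonneg _) (by positivity)
    calc ‖φ v - T‖ * ‖φ v‖ + ‖T‖ * ‖φ v - T‖
        ≤ (2 * M * (2 * θ) ^ τ) * M + (3 * M) * (2 * M * (2 * θ) ^ τ) := add_le_add h2 h3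
      _ = 8 * M ^ 2 * (2 * θ) ^ τ := by ring
  rw [hsum, hprod, ← mul_sub, norm_mul, Complex.norm_real, Real.norm_of_nonneg hW00]
  calc W0 * ‖φ v * (starRingEnd ℂ) (φ v) - T * (starRingEnd ℂ) T‖
      ≤ W ^ m * (8 * M ^ 2 * (2 * θ) ^ τ) :=
        mul_le_mul hW0W hmain (norm_nonneg _) (by positivity)
    _ = 8 * (W * (3 / 2)) ^ m * (2 * θ) ^ τ := by rw [hMsq, mul_pow]; ring
    _ ≤ 8 * (2 * W) ^ m * (2 * θ) ^ τ := by
        refine mul_le_mul_of_nonneg_right ?_ hq0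
        refine mul_le_mul_of_nonneg_left ?_ (by norm_num)
        exact pow_le_pow_left₀ (by positivity) (by linarith) m

end Pool.Agent.H43.RH
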