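/-
D1 (DetB).  Determinant of a matrix near a matrix of small rank.  MATHLIB ONLY, about 80 lines.
PROOF.  Expand det (N + R) by multilinearity in the rows (Matrix.detRowAlternating, MultilinearMap.map_add_univ):
sum over s : Finset ι of det of the matrix with rows N i (i in s) and R i (i not in s).  If |s| > h the rows are
dependent (a subfamily of the rows is dependent), so det = 0 (AlternatingMap.map_linearDependent).  Otherwise, by the
Leibniz formula, |det| ≤ (2h)! B^|s| η^(2h - |s|) ≤ (2h)! B^h η^h, because η ≤ B.  There are 2^(2h) sets s.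
-/
import Pool.Agent.H43.RH.Defs

namespace Pool.Agent.H43.RH

theorem det_bound {ι : Type} [Fintype ι] [DecidableEq ι] (N R : Matrix ι ι ℂ) (B η : ℝ) (h : ℕ)
    (hcard : Fintype.card ι = 2 * h) (hN : ∀ i j, ‖N i j‖ ≤ B) (hR : ∀ i j, ‖R i j‖ ≤ η)
    (hη : 0 ≤ η) (hηB : η ≤ B)
    (hrank : ∀ s : Finset ι, h < s.card → ¬ LinearIndependent ℂ (fun i : s => N i)) :
    ‖(N + R).det‖ ≤ 2 ^ (2 * h) * ((2 * h).factorial : ℝ) * (B * η) ^ h := by
  classical
  have hB : 0 ≤ B := le_trans hη hηB
  have hexp : (N + R).det = ∑ s : Finset ι, Matrix.det (Matrix.of (s.piecewise N R)) := by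
    have h1 := (Matrix.detRowAlternating (n := ι) (R := ℂ)).toMultilinearMap.map_add_univ N R
    exact h1
  have hterm : ∀ s : Finset ι, ‖Matrix.det (Matrix.of (s.piecewise N R))‖ ≤ ((2 * h).factorial : ℝ) * (B * η) ^ h := by
    intro s
    by_cases hs : h < s.card
    · have hdep : ¬ LinearIndependent ℂ (s.piecewise N R : ι → ι → ℂ) := by
        intro hli
        apply hrank s hs
        have h2 := hli.comp (fun i : s => (i : ι)) Subtype.val_injective
        have h3 : ((s.piecewise N R : ι → ι → ℂ) ∘ fun i : s => (i : ι)) = fun i : s => N i := by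
          funext i
          simp [Finset.piecewise]
        rw [h3] at h2
        exact h2
      have h4 : Matrix.det (Matrix.of (s.piecewise N R)) = 0 := by
        have h5 := AlternatingMap.map_linearDependent (Matrix.detRowAlternating (n := ι) (R := ℂ)) (s.piecewise N R) hdep
        exact h5
      rw [h4, norm_zero]
      positivity
    · have hs' : s.card ≤ h := not_lt.mp hs
      have hent : ∀ i j, ‖(s.piecewise N R : ι → ι → ℂ) i j‖ ≤ if i ∈ s then B else η := by
        intro i j
        have h8 : (s.piecewise N R : ι → ι → ℂ) i j = (if i ∈ s then N i else R i) j := rfl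
        by_cases hi : i ∈ s
        · rw [h8, if_pos hi, if_pos hi]
          exact hN i j
        · rw [h8, if_neg hi, if_neg hi]
          exact hR i j
      have hprod : ∀ σ : Equiv.Perm ι, ∏ i, (if σ i ∈ s then B else η) = B ^ s.card * η ^ (2 * h - s.card) := by
        intro σ
        rw [Equiv.prod_comp σ (fun j => if j ∈ s then B else η)]
        rw [Finset.prod_ite]
        rw [Finset.prod_const, Finset.prod_const]
        have e1 : (Finset.univ.filter (fun x => x ∈ s)) = s := by
          ext x; simp
        have e2 : (Finset.univ.filter (fun x => ¬ x ∈ s)) = sᶜ := by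
          ext x; simp
        rw [e1, e2, Finset.card_compl, hcard]
      rw [Matrix.det_apply]
      calc ‖∑ σ : Equiv.Perm ι, Equiv.Perm.sign σ • ∏ i, (Matrix.of (s.piecewise N R)) (σ i) i‖
          ≤ ∑ σ : Equiv.Perm ι, ‖Equiv.Perm.sign σ • ∏ i, (Matrix.of (s.piecewise N R)) (σ i) i‖ := norm_sum_le _ _
        _ ≤ ∑ σ : Equiv.Perm ι, B ^ s.card * η ^ (2 * h - s.card) := by
            refine Finset.sum_le_sum fun σ _ => ?_
            have h6 : ‖Equiv.Perm.sign σ • ∏ i, (Matrix.of (s.piecewise N R)) (σ i) i‖ = ‖∏ i, (Matrix.of (s.piecewise N R)) (σ i) i‖ := by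
              rcases Int.units_eq_one_or (Equiv.Perm.sign σ) with h7 | h7
              · rw [h7, one_smul]
              · rw [h7, Units.neg_smul, one_smul, norm_neg]
            rw [h6, norm_prod, ← hprod σ]
            refine Finset.prod_le_prod (fun i _ => norm_nonneg _) (fun i _ => ?_)
            exact hent (σ i) i
        _ = ((2 * h).factorial : ℝ) * (B ^ s.card * η ^ (2 * h - s.card)) := by
            rw [Finset.sum_const, Finset.card_univ, Fintype.card_perm, hcard, nsmul_eq_mul]
        _ ≤ ((2 * h).factorial : ℝ) * (B * η) ^ h := by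
            refine mul_le_mul_of_nonneg_left ?_ (by positivity)
            have e3 : 2 * h - s.card = (h - s.card) + h := by omega
            have e4 : B ^ h = B ^ s.card * B ^ (h - s.card) := by
              rw [← pow_add]; congr 1; omega
            rw [mul_pow, e3, pow_add, e4, mul_assoc]
            refine mul_le_mul_of_nonneg_left ?_ (by positivity)
            refine mul_le_mul_of_nonneg_right ?_ (by positivity)
            exact pow_le_pow_left₀ hη hηB _
  rw [hexp]
  calc ‖∑ s : Finset ι, Matrix.det (Matrix.of (s.piecewise N R))‖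
      ≤ ∑ s : Finset ι, ‖Matrix.det (Matrix.of (s.piecewise N R))‖ := norm_sum_le _ _
    _ ≤ ∑ s : Finset ι, ((2 * h).factorial : ℝ) * (B * η) ^ h := Finset.sum_le_sum fun s _ => hterm s
    _ = 2 ^ (2 * h) * ((2 * h).factorial : ℝ) * (B * η) ^ h := by
        rw [Finset.sum_const, Finset.card_univ, Fintype.card_finset, hcard, nsmul_eq_mul]
        push_cast
        ring

end Pool.Agent.H43.RH
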