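/-
D3 (IntDet).  A nonzero determinant of products of distances is not small.  MATHLIB ONLY, about 60 lines.
PROOF.  Multiply row J by c_J = c(P J)^m * ∏_{all i} c(p i), 1 ≤ c_J ≤ Λ^(2m).  The new entries are integers:
c(P J)^m ∏_i c(p i) ∏_{i in I} |P J - p i| = ∏_{i in I} (c(P J) c(p i) |P J - p i|) ∏_{i not in I} (c(P J) c(p i)).
So (∏_J c_J) det is an integer (Matrix.det_mul_column / det_mul_row, Int.cast det: RingHom.map_det), not zero, hence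
of absolute value ≥ 1; and ∏_J c_J ≤ (Λ^(2m))^(2^m), the number of J being 2^m.
-/
import Pool.Agent.H43.RH.Defs

namespace Pool.Agent.H43.RH

private lemma entry_int (T : Finset ℂ) (c : ℂ → ℕ) (Λ : ℝ) (hC : Cfg T c Λ) (m : ℕ) (p : Fin m → ℂ)
    (hp : ∀ i, p i ∈ T) (Q : ℂ) (hQ : Q ∈ T) (I : Finset (Fin m)) :
    ∃ z : ℤ, ((c Q : ℝ) ^ m * ∏ i, (c (p i) : ℝ)) * ∏ i ∈ I, ‖Q - p i‖ = z := by
  have h1 : ((c Q : ℝ) ^ m * ∏ i, (c (p i) : ℝ)) * ∏ i ∈ I, ‖Q - p i‖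
      = ∏ i, if i ∈ I then ((c Q : ℝ) * c (p i) * ‖Q - p i‖) else ((c Q : ℝ) * c (p i)) := by
    have h2 : (c Q : ℝ) ^ m = ∏ _i : Fin m, (c Q : ℝ) := by
      rw [Finset.prod_const, Finset.card_univ, Fintype.card_fin]
    have h3 : ∏ i ∈ I, ‖Q - p i‖ = ∏ i, if i ∈ I then ‖Q - p i‖ else 1 := by
      rw [Finset.prod_ite_mem, Finset.univ_inter]
    rw [h2, h3, ← Finset.prod_mul_distrib, ← Finset.prod_mul_distrib]
    refine Finset.prod_congr rfl fun i _ => ?_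
    split_ifs <;> ring
  choose k hk using fun i => hC.int Q hQ (p i) (hp i)
  refine ⟨∏ i, if i ∈ I then ((k i : ℕ) : ℤ) else ((c Q * c (p i) : ℕ) : ℤ), ?_⟩
  rw [h1, Int.cast_prod]
  refine Finset.prod_congr rfl fun i _ => ?_
  split_ifs
  · rw [hk i]; norm_cast
  · push_cast; ring

private lemma mult_le (T : Finset ℂ) (c : ℂ → ℕ) (Λ : ℝ) (hC : Cfg T c Λ) (m : ℕ) (p : Fin m → ℂ)
    (hp : ∀ i, p i ∈ T) (Q : ℂ) (hQ : Q ∈ T) :
    (c Q : ℝ) ^ m * ∏ i, (c (p i) : ℝ) ≤ Λ ^ (2 * m) := by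
  have h0 : 0 ≤ Λ := by linarith [hC.two]
  have h1 : (c Q : ℝ) ^ m ≤ Λ ^ m := pow_le_pow_left₀ (Nat.cast_nonneg _) (hC.le Q hQ) m
  have h2 : ∏ i, (c (p i) : ℝ) ≤ Λ ^ m := by
    calc ∏ i, (c (p i) : ℝ) ≤ ∏ _i : Fin m, Λ :=
          Finset.prod_le_prod (fun i _ => Nat.cast_nonneg _) fun i _ => hC.le _ (hp i)
      _ = Λ ^ m := by rw [Finset.prod_const, Finset.card_univ, Fintype.card_fin]
  calc (c Q : ℝ) ^ m * ∏ i, (c (p i) : ℝ) ≤ Λ ^ m * Λ ^ m :=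
        mul_le_mul h1 h2 (Finset.prod_nonneg fun i _ => Nat.cast_nonneg _) (pow_nonneg h0 _)
    _ = Λ ^ (2 * m) := by rw [← pow_add]; congr 1; ring

theorem int_det (T : Finset ℂ) (c : ℂ → ℕ) (Λ : ℝ) (hC : Cfg T c Λ) (m : ℕ) (p : Fin m → ℂ)
    (hp : ∀ i, p i ∈ T) (P : Finset (Fin m) → ℂ) (hP : ∀ J, P J ∈ T)
    (hne : (Matrix.of fun J I : Finset (Fin m) => ∏ i ∈ I, ‖P J - p i‖).det ≠ 0) :
    1 ≤ (Λ ^ (2 * m)) ^ (2 ^ m)
      * |(Matrix.of fun J I : Finset (Fin m) => ∏ i ∈ I, ‖P J - p i‖).det| := by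
  set A : Matrix (Finset (Fin m)) (Finset (Fin m)) ℝ :=
    Matrix.of fun J I : Finset (Fin m) => ∏ i ∈ I, ‖P J - p i‖ with hA
  set v : Finset (Fin m) → ℝ := fun J => (c (P J) : ℝ) ^ m * ∏ i, (c (p i) : ℝ) with hv
  have hv1 : ∀ J, 1 ≤ v J := by
    intro J
    have h1 : (1:ℝ) ≤ (c (P J) : ℝ) ^ m :=
      one_le_pow₀ (by exact_mod_cast hC.one _ (hP J))
    have h2 : (1:ℝ) ≤ ∏ i, (c (p i) : ℝ) := by
      have : ∀ i, (1:ℝ) ≤ (c (p i) : ℝ) := fun i => by exact_mod_cast hC.one _ (hp i)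
      calc (1:ℝ) = ∏ _i : Fin m, (1:ℝ) := by simp
        _ ≤ _ := Finset.prod_le_prod (fun _ _ => zero_le_one) fun i _ => this i
    simp only [hv]
    nlinarith
  choose z hz using fun J I => entry_int T c Λ hC m p hp (P J) (hP J) I
  have hdet : (∏ J, v J) * A.det = ((Matrix.of z).det : ℤ) := by
    rw [← Matrix.det_mul_column]
    have h1 : (Matrix.of fun i j => v i * A i j) = (Int.castRingHom ℝ).mapMatrix (Matrix.of z) := by
      ext J I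
      simp only [Matrix.of_apply, RingHom.mapMatrix_apply, Matrix.map_apply, Int.coe_castRingHom]
      exact hz J I
    rw [h1, ← RingHom.map_det]
    rfl
  have hprod0 : 0 < ∏ J, v J := Finset.prod_pos fun J _ => by linarith [hv1 J]
  have hne' : (Matrix.of z).det ≠ 0 := by
    intro h
    rw [h, Int.cast_zero] at hdet
    rcases mul_eq_zero.1 hdet with h' | h'
    · exact hprod0.ne' h'
    · exact hne h'
  have h1 : (1:ℝ) ≤ |((Matrix.of z).det : ℝ)| := by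
    have := Int.one_le_abs hne'
    exact_mod_cast this
  have h2 : ∏ J, v J ≤ (Λ ^ (2 * m)) ^ (2 ^ m) := by
    calc ∏ J, v J ≤ ∏ _J : Finset (Fin m), Λ ^ (2 * m) :=
          Finset.prod_le_prod (fun J _ => by linarith [hv1 J]) fun J _ =>
            mult_le T c Λ hC m p hp (P J) (hP J)
      _ = _ := by rw [Finset.prod_const, Finset.card_univ, Fintype.card_finset, Fintype.card_fin]
  calc (1:ℝ) ≤ |((Matrix.of z).det : ℝ)| := h1
    _ = (∏ J, v J) * |A.det| := by rw [← hdet, abs_mul, abs_of_pos hprod0]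
    _ ≤ (Λ ^ (2 * m)) ^ (2 ^ m) * |A.det| := mul_le_mul_of_nonneg_right h2 (abs_nonneg _)

end Pool.Agent.H43.RH
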