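/-
D2 (Rel).  If all square determinants vanish there is a linear relation.  MATHLIB ONLY, about 50 lines.
PROOF.  Consider the vectors v_x = (f i x)_i in ι → ℝ for x in X.  If their span is not everything there is a nonzero
linear functional vanishing on it (Submodule.exists_le_ker_of_lt_top or exists_dual_map_eq_bot_of_lt_top), which has
the form v ↦ sum a_i v_i with a ≠ 0.  If the span is everything, a basis can be extracted from the v_x
(exists_linearIndependent / Basis.ofSpan...), of cardinality card ι, so there is P : ι → α with values in X and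
linearly independent rows: the determinant is not zero, contradiction with h.
-/
import Pool.Agent.H43.RH.Defs

namespace Pool.Agent.H43.RH

theorem exists_rel {ι α : Type} [Fintype ι] [DecidableEq ι] (X : Finset α) (f : ι → α → ℝ)
    (h : ∀ P : ι → α, (∀ i, P i ∈ X) → (Matrix.of fun j i => f i (P j)).det = 0) :
    ∃ a : ι → ℝ, a ≠ 0 ∧ ∀ x ∈ X, ∑ i, a i * f i x = 0 := by
  classical
  set t : Set (ι → ℝ) := {v | ∃ x ∈ X, (fun i => f i x) = v} with ht
  by_cases hs : Submodule.span ℝ t = ⊤
  · exfalso
    obtain ⟨b, hbt, hspan, hli⟩ := exists_linearIndependent ℝ t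
    rw [hs] at hspan
    let B : Module.Basis b ℝ (ι → ℝ) := Module.Basis.mk hli (by
      rw [Subtype.range_coe_subtype]
      simpa using hspan.ge)
    have : Fintype b := FiniteDimensional.fintypeBasisIndex B
    have hcard : Fintype.card b = Fintype.card ι := by
      rw [← Module.finrank_eq_card_basis B, Module.finrank_fintype_fun_eq_card]
    obtain ⟨e⟩ : Nonempty (ι ≃ b) := Fintype.card_eq.mp hcard.symm
    have hx : ∀ j : ι, ∃ x ∈ X, (fun i => f i x) = (e j : ι → ℝ) := fun j => hbt (e j).2
    choose P hP hPe using hx
    have hdet := h P hP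
    have hli2 : LinearIndependent ℝ (fun j : ι => ((e j : b) : ι → ℝ)) := hli.comp e e.injective
    have hM : (Matrix.of fun j i => f i (P j)).row = fun j : ι => ((e j : b) : ι → ℝ) := by
      funext j
      rw [← hPe j]
      rfl
    have hu : IsUnit (Matrix.of fun j i => f i (P j)) := by
      rw [← Matrix.linearIndependent_rows_iff_isUnit, hM]
      exact hli2
    rw [Matrix.isUnit_iff_isUnit_det, hdet] at hu
    exact not_isUnit_zero hu
  · obtain ⟨g, hg, hker⟩ := Submodule.exists_le_ker_of_lt_top _ (lt_top_iff_ne_top.mpr hs)
    refine ⟨fun i => g (Pi.single i 1), ?_, ?_⟩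
    · intro h0
      apply hg
      apply LinearMap.pi_ext'
      intro i
      ext
      simpa using congrFun h0 i
    · intro x hx
      have h1 : g (fun i => f i x) = 0 := by
        have : (fun i => f i x) ∈ Submodule.span ℝ t := Submodule.subset_span ⟨x, hx, rfl⟩
        exact hker this
      rw [LinearMap.pi_apply_eq_sum_univ] at h1
      rw [← h1]
      apply Finset.sum_congr rfl
      intro i _
      have e1 : (fun j => if i = j then (1 : ℝ) else 0) = Pi.single i 1 := by
        funext j
        simp [Pi.single_apply, eq_comm]
      rw [smul_eq_mul, mul_comm, e1]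

end Pool.Agent.H43.RH
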