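/-
D4 (Loc).  The linear relation near a point, from the determinant method.  Needs Approx, DetB, Rel, IntDet.
About 120 lines.
PROOF.  exists_rel with ι = Finset (Fin m), f I P = ∏_{i in I} |P - p i|.  Let P : ι → ℂ with values in X and suppose
the determinant Δ of (f I (P J))_{J,I} is not zero.  int_det: 1 ≤ (Λ^(2m))^(2^m) |Δ|.
Approximation: w i = Q - p i, v = P - Q, so |v + w i| = |P - p i|; r/θ ≤ |w i| ≤ 2Λ =: W (both in T, hC.norm);
approx gives a_I with |f I P - g_I(P - Q)| ≤ η = 8 (4Λ)^m (2θ)^τ for P in X.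
N I J = g_I (P J - Q), R I J = f I (P J) - N I J, N + R = transpose of the matrix (as complex matrix), so
‖(N+R).det‖ = |Δ|.  B = 16 (4Λ)^m: η ≤ 8 (4Λ)^m ≤ B (2θ ≤ 1), |N| ≤ |f| + η ≤ (2Λ)^m + η ≤ B, 0 ≤ η.
Rows N I are in the span of the τ² vectors of hdim, of dimension ≤ h, so no family of more than h of them is
independent (LinearIndependent.fintype_card_le_finrank or finrank_span_eq_card + Submodule.finrank_mono).
det_bound: |Δ| ≤ 2^(2h) (2h)! (B η)^h.  As 2h = 2^m, (2h)! ≤ ((2h)^2)^h = (4^m)^h (Nat.factorial_le_pow...), so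
1 ≤ (Λ^(2m))^(2h) * 4^h * (4^m)^h * (B η)^h = (512 (64 Λ^6)^m (2θ)^τ)^h < 1 (h ≥ 1 because 2 h = 2^m > 0), contradiction:
Λ^(4m) * 4 * 4^m * (16 (4Λ)^m) * (8 (4Λ)^m (2θ)^τ) = 512 (64 Λ^6)^m (2θ)^τ.
-/
import Pool.Agent.H43.RH.Approx
import Pool.Agent.H43.RH.DetB
import Pool.Agent.H43.RH.Rel
import Pool.Agent.H43.RH.IntDet

namespace Pool.Agent.H43.RH

/-- the final numerical contradiction -/
private theorem loc_num (Λ θ Δ : ℝ) (hΛ : 2 ≤ Λ) (hθ : 0 < θ) (m τ h : ℕ) (hm : 2 ^ m = 2 * h)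
    (hnum : 512 * (64 * Λ ^ 6) ^ m * (2 * θ) ^ τ < 1)
    (h1 : 1 ≤ (Λ ^ (2 * m)) ^ (2 ^ m) * |Δ|)
    (h2 : |Δ| ≤ 2 ^ (2 * h) * ((2 * h).factorial : ℝ)
      * ((16 * (4 * Λ) ^ m) * (8 * (2 * (2 * Λ)) ^ m * (2 * θ) ^ τ)) ^ h) : False := by
  have hΛ0 : 0 < Λ := by linarith
  have hfac : ((2 * h).factorial : ℝ) ≤ ((4 : ℝ) ^ m) ^ h := by
    have h3 : (2 * h).factorial ≤ (2 * h) ^ (2 * h) := Nat.factorial_le_pow (2 * h)
    have h4 : ((2 * h) ^ (2 * h) : ℕ) = (4 ^ m) ^ h := by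
      rw [pow_mul, ← hm, ← pow_mul 2 m 2, mul_comm m 2, pow_mul 2 2 m]
      norm_num
    rw [h4] at h3
    exact_mod_cast h3
  have hh : h ≠ 0 := by
    rintro rfl
    simp at hm
  set E : ℝ := (16 * (4 * Λ) ^ m) * (8 * (2 * (2 * Λ)) ^ m * (2 * θ) ^ τ) with hE
  have hE0 : 0 ≤ E := by positivity
  have h5 : |Δ| ≤ 2 ^ (2 * h) * ((4 : ℝ) ^ m) ^ h * E ^ h := by
    refine h2.trans ?_
    gcongr
  have h6 : 1 ≤ (Λ ^ (2 * m)) ^ (2 ^ m) * (2 ^ (2 * h) * ((4 : ℝ) ^ m) ^ h * E ^ h) := by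
    refine h1.trans ?_
    gcongr
  have h7 : (Λ ^ (2 * m)) ^ (2 ^ m) * (2 ^ (2 * h) * ((4 : ℝ) ^ m) ^ h * E ^ h)
      = (512 * (64 * Λ ^ 6) ^ m * (2 * θ) ^ τ) ^ h := by
    rw [hm, pow_mul (Λ ^ (2 * m)) 2 h, pow_mul (2 : ℝ) 2 h, ← mul_pow, ← mul_pow, ← mul_pow]
    congr 1
    rw [hE]
    have e1 : (Λ ^ (2 * m)) ^ 2 = (Λ ^ 4) ^ m := by
      rw [← pow_mul, ← pow_mul]
      congr 1
      ring
    have e2 : (2 * (2 * Λ)) ^ m = (4 * Λ) ^ m := by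
      congr 1
      ring
    rw [e1, e2]
    have e3 : (Λ ^ 4) ^ m * ((4 : ℝ) ^ m * ((4 * Λ) ^ m * (4 * Λ) ^ m)) = (64 * Λ ^ 6) ^ m := by
      rw [← mul_pow, ← mul_pow, ← mul_pow]
      congr 1
      ring
    rw [← e3]
    ring
  rw [h7] at h6
  have h8 : (512 * (64 * Λ ^ 6) ^ m * (2 * θ) ^ τ) ^ h < 1 :=
    pow_lt_one₀ (by positivity) hnum hh
  linarith

theorem loc (T : Finset ℂ) (c : ℂ → ℕ) (Λ : ℝ) (hC : Cfg T c Λ) (m τ h : ℕ) (θ r : ℝ)
    (hm : 2 ^ m = 2 * h) (hθ : 0 < θ) (hθ1 : θ ≤ 1 / 4) (hr : 0 < r) (Q : ℂ) (hQ : Q ∈ T)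
    (p : Fin m → ℂ) (hp : ∀ i, p i ∈ T) (hfar : ∀ i, r / θ ≤ ‖Q - p i‖)
    (X : Finset ℂ) (hX : ∀ P ∈ X, P ∈ T ∧ ‖P - Q‖ ≤ r)
    (hdim : ∀ P : Finset (Fin m) → ℂ, (∀ I, P I ∈ X) →
      Module.finrank ℂ (Submodule.span ℂ (Set.range (fun st : Fin τ × Fin τ =>
        fun I : Finset (Fin m) => (P I - Q) ^ (st.1 : ℕ) * ((starRingEnd ℂ) (P I - Q)) ^ (st.2 : ℕ))))
        ≤ h)
    (hnum : 512 * (64 * Λ ^ 6) ^ m * (2 * θ) ^ τ < 1) :
    ∃ a : Finset (Fin m) → ℝ, a ≠ 0 ∧ ∀ P ∈ X, ∑ I, a I * ∏ i ∈ I, ‖P - p i‖ = 0 := by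
  classical
  have hΛ := hC.two
  have hΛ0 : 0 < Λ := by linarith
  refine exists_rel X (fun (I : Finset (Fin m)) (P : ℂ) => ∏ i ∈ I, ‖P - p i‖) ?_
  intro P hP
  by_contra hne
  have h1 := int_det T c Λ hC m p hp P (fun J => (hX _ (hP J)).1) hne
  have hW2 : ∀ z ∈ T, ∀ i, ‖z - p i‖ ≤ 2 * Λ := by
    intro z hz i
    have h3 := norm_sub_le z (p i)
    have h4 := hC.norm z hz
    have h5 := hC.norm (p i) (hp i)
    linarith
  have happ := fun I : Finset (Fin m) => approx m τ (fun i => Q - p i) r θ (2 * Λ) hr hθ hθ1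
    (by linarith) hfar (hW2 Q hQ) I
  choose a ha using happ
  set η : ℝ := 8 * (2 * (2 * Λ)) ^ m * (2 * θ) ^ τ with hη
  have hη0 : 0 ≤ η := by positivity
  have hηle : η ≤ 8 * (4 * Λ) ^ m := by
    have e2 : (2 * (2 * Λ)) ^ m = (4 * Λ) ^ m := by
      congr 1
      ring
    have e3 : (2 * θ) ^ τ ≤ 1 := pow_le_one₀ (by positivity) (by linarith)
    rw [hη, e2]
    have e4 : 0 ≤ 8 * (4 * Λ) ^ m := by positivity
    calc 8 * (4 * Λ) ^ m * (2 * θ) ^ τ ≤ 8 * (4 * Λ) ^ m * 1 := by gcongr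
      _ = 8 * (4 * Λ) ^ m := mul_one _
  have hB0 : 0 ≤ (4 * Λ) ^ m := by positivity
  let V : Fin τ × Fin τ → (Finset (Fin m) → ℂ) := fun st J =>
    (P J - Q) ^ (st.1 : ℕ) * ((starRingEnd ℂ) (P J - Q)) ^ (st.2 : ℕ)
  let N : Matrix (Finset (Fin m)) (Finset (Fin m)) ℂ := fun I J =>
    ∑ s, ∑ t, a I s t * (P J - Q) ^ (s : ℕ) * ((starRingEnd ℂ) (P J - Q)) ^ (t : ℕ)
  let M : Matrix (Finset (Fin m)) (Finset (Fin m)) ℝ :=
    Matrix.of fun J I : Finset (Fin m) => ∏ i ∈ I, ‖P J - p i‖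
  let R : Matrix (Finset (Fin m)) (Finset (Fin m)) ℂ := fun I J => ((M J I : ℝ) : ℂ) - N I J
  have hNR : N + R = Matrix.transpose (M.map Complex.ofRealHom) := by
    ext I J
    rw [Matrix.add_apply]
    change N I J + (((M J I : ℝ) : ℂ) - N I J) = ((M J I : ℝ) : ℂ)
    ring
  have hdet : ‖(N + R).det‖ = |M.det| := by
    have e1 : (N + R).det = ((M.det : ℝ) : ℂ) := by
      rw [hNR, Matrix.det_transpose]
      exact (RingHom.map_det Complex.ofRealHom M).symm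
    rw [e1, Complex.norm_real, Real.norm_eq_abs]
  have hR : ∀ I J, ‖R I J‖ ≤ η := by
    intro I J
    have h3 := ha I (P J - Q) (hX _ (hP J)).2
    have e1 : (∏ i ∈ I, ‖P J - Q + (Q - p i)‖ : ℝ) = ∏ i ∈ I, ‖P J - p i‖ := by
      refine Finset.prod_congr rfl fun i _ => ?_
      congr 1
      ring
    rw [e1] at h3
    exact h3
  have hM : ∀ I J, ‖((M J I : ℝ) : ℂ)‖ ≤ (4 * Λ) ^ m := by
    intro I J
    have e1 : ‖((M J I : ℝ) : ℂ)‖ = ∏ i ∈ I, ‖P J - p i‖ := by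
      rw [Complex.norm_real, Real.norm_eq_abs]
      exact abs_of_nonneg (Finset.prod_nonneg fun i _ => norm_nonneg _)
    rw [e1]
    calc ∏ i ∈ I, ‖P J - p i‖ ≤ ∏ i ∈ I, (2 * Λ) :=
          Finset.prod_le_prod (fun i _ => norm_nonneg _) fun i _ => hW2 _ (hX _ (hP J)).1 i
      _ = (2 * Λ) ^ I.card := by rw [Finset.prod_const]
      _ ≤ (2 * Λ) ^ m := by
          refine pow_le_pow_right₀ (by linarith) ?_
          simpa using Finset.card_le_univ I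
      _ ≤ (4 * Λ) ^ m := by
          refine pow_le_pow_left₀ (by linarith) (by linarith) m
  have hN : ∀ I J, ‖N I J‖ ≤ 16 * (4 * Λ) ^ m := by
    intro I J
    have e1 : N I J = ((M J I : ℝ) : ℂ) - R I J := by simp [R]
    rw [e1]
    have h3 := norm_sub_le ((M J I : ℝ) : ℂ) (R I J)
    have h4 := hM I J
    have h5 := hR I J
    linarith
  have hrow : ∀ I, N I ∈ Submodule.span ℂ (Set.range V) := by
    intro I
    have e1 : N I = ∑ st : Fin τ × Fin τ, a I st.1 st.2 • V st := by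
      ext J
      rw [Finset.sum_apply, Fintype.sum_prod_type]
      refine Finset.sum_congr rfl fun s _ => Finset.sum_congr rfl fun t _ => ?_
      simp only [V, Pi.smul_apply, smul_eq_mul]
      ring
    rw [e1]
    exact Submodule.sum_mem _ fun st _ => Submodule.smul_mem _ _
      (Submodule.subset_span (Set.mem_range_self st))
  have hrank : ∀ s : Finset (Finset (Fin m)), h < s.card →
      ¬ LinearIndependent ℂ (fun i : s => N i) := by
    intro s hs hli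
    have hli2 : LinearIndependent ℂ
        (fun i : s => (⟨N i, hrow i⟩ : Submodule.span ℂ (Set.range V))) := by
      refine LinearIndependent.of_comp (Submodule.span ℂ (Set.range V)).subtype ?_
      exact hli
    have h3 := hli2.fintype_card_le_finrank
    rw [Fintype.card_coe] at h3
    have h4 := hdim P hP
    have h5 : Module.finrank ℂ (Submodule.span ℂ (Set.range V)) ≤ h := h4
    omega
  have hcard : Fintype.card (Finset (Fin m)) = 2 * h := by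
    rw [Fintype.card_finset, Fintype.card_fin, hm]
  have h2 := det_bound N R (16 * (4 * Λ) ^ m) η h hcard hN hR hη0
    (by linarith) hrank
  rw [hdet] at h2
  exact loc_num Λ θ M.det hΛ hθ m τ h hm hnum h1 h2

end Pool.Agent.H43.RH
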