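/-
C3 (Fac).  Factorisation into at most 2δ primes.  MATHLIB ONLY, about 60 lines.
PROOF.  UniqueFactorizationMonoid: G = unit * product of the multiset `factors G` (Associated), all irreducible = prime.
evalEval is multiplicative and a unit evaluates to a unit, so a zero of G is a zero of some factor.
deg G = natDegree G + natDegree (swap G) is additive on nonzero polynomials (natDegree_mul, map_mul; natDegree of a unit is 0)
and a prime F has natDegree F + natDegree (swap F) ≥ 1 (if both are 0, F = C f with f of natDegree 0: F = C (C c), a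
unit; f.natDegree: swap (C f) = f.map C, natDegree_map_eq).  So the number of factors is ≤ 2 δ.  Divisors of G ≠ 0 have
smaller degrees (natDegree_le_of_dvd, also for the swap).
-/
import Pool.Agent.H43.RH.Defs

namespace Pool.Agent.H43.RH
open Polynomial Polynomial.Bivariate

private lemma prime_deg {F : ℂ[X][Y]} (hF : Prime F) :
    1 ≤ F.natDegree + (swap F).natDegree := by
  by_contra h
  have h1 : F.natDegree = 0 := by omega
  have h2 : (swap F).natDegree = 0 := by omega
  obtain ⟨f, rfl⟩ : ∃ f : ℂ[X], F = C f := ⟨F.coeff 0, eq_C_of_natDegree_eq_zero h1⟩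
  rw [Bivariate.swap_C, natDegree_map_eq_of_injective (C_injective)] at h2
  obtain ⟨c, rfl⟩ : ∃ c : ℂ, f = C c := ⟨f.coeff 0, eq_C_of_natDegree_eq_zero h2⟩
  apply hF.not_isUnit
  have hc : c ≠ 0 := by
    rintro rfl
    apply hF.ne_zero
    simp
  exact ((isUnit_iff_ne_zero.mpr hc).map C).map C

private lemma card_le (f : Multiset ℂ[X][Y]) (hf : ∀ b ∈ f, Prime b) :
    f.prod ≠ 0 ∧ Multiset.card f ≤ f.prod.natDegree + (swap f.prod).natDegree := by
  induction f using Multiset.induction_on with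
  | empty => simp
  | cons a s ih =>
    have ha : Prime a := hf a (Multiset.mem_cons_self a s)
    obtain ⟨h1, h2⟩ := ih (fun b hb => hf b (Multiset.mem_cons_of_mem hb))
    have ha0 : a ≠ 0 := ha.ne_zero
    have hsa : swap a ≠ 0 := fun h => ha0 ((map_eq_zero_iff _ (swap (R := ℂ)).injective).mp h)
    have hsp : swap s.prod ≠ 0 := fun h => h1 ((map_eq_zero_iff _ (swap (R := ℂ)).injective).mp h)
    rw [Multiset.prod_cons]
    refine ⟨mul_ne_zero ha0 h1, ?_⟩
    rw [map_mul, natDegree_mul ha0 h1, natDegree_mul hsa hsp, Multiset.card_cons]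
    have := prime_deg ha
    omega

theorem fac (G : ℂ[X][Y]) (hG : G ≠ 0) (δ : ℕ) (hX : G.natDegree ≤ δ) (hY : (swap G).natDegree ≤ δ) :
    ∃ L : List ℂ[X][Y], L.length ≤ 2 * δ ∧
      (∀ F ∈ L, Prime F ∧ F.natDegree ≤ δ ∧ (swap F).natDegree ≤ δ) ∧
      ∀ z w : ℂ, G.evalEval z w = 0 → ∃ F ∈ L, F.evalEval z w = 0 := by
  classical
  obtain ⟨f, hf, hfG⟩ := UniqueFactorizationMonoid.exists_prime_factors G hG
  obtain ⟨hp0, hcard⟩ := card_le f hf
  have hsG : swap G ≠ 0 := fun h => hG ((map_eq_zero_iff _ (swap (R := ℂ)).injective).mp h)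
  have hdeg : ∀ F : ℂ[X][Y], F ∣ G → F.natDegree ≤ δ ∧ (swap F).natDegree ≤ δ := by
    intro F hFG
    refine ⟨(natDegree_le_of_dvd hFG hG).trans hX, ?_⟩
    exact (natDegree_le_of_dvd (map_dvd (swap (R := ℂ)) hFG) hsG).trans hY
  refine ⟨f.toList, ?_, ?_, ?_⟩
  · rw [Multiset.length_toList]
    have := hdeg f.prod hfG.dvd
    omega
  · intro F hF
    rw [Multiset.mem_toList] at hF
    have hd : F ∣ G := (Multiset.dvd_prod hF).trans hfG.dvd
    exact ⟨hf F hF, hdeg F hd⟩
  · intro z w hzw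
    obtain ⟨u, hu⟩ := hfG
    have h1 : evalEvalRingHom z w f.prod * evalEvalRingHom z w (u : ℂ[X][Y]) = 0 := by
      rw [← map_mul, hu]; exact hzw
    have h2 : evalEvalRingHom z w (u : ℂ[X][Y]) ≠ 0 :=
      (u.isUnit.map (evalEvalRingHom z w)).ne_zero
    have h3 : evalEvalRingHom z w f.prod = 0 := (mul_eq_zero.mp h1).resolve_right h2
    rw [map_multiset_prod, Multiset.prod_eq_zero_iff] at h3
    obtain ⟨F, hF, hF0⟩ := Multiset.mem_map.mp h3
    exact ⟨F, Multiset.mem_toList.mpr hF, hF0⟩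

end Pool.Agent.H43.RH
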