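/-
C4 (LCpoly).  The zero set of a component of bidegree (1,1) is contained in a line or circle.  Needs Swp.  About 100 lines.
PROOF.  F = a X Y + b X + c Y + d with (a, b, c, d) ≠ 0 (coefficients of degree ≤ 1 in Y with coefficients of natDegree ≤ 1
in X, coeff_natDegree_le).  Let z with F(z, conj z) = 0: a |z|² + b z + c z̄ + d = 0.
Add and subtract the conjugate equation ā |z|² + b̄ z̄ + c̄ z + d̄ = 0: for E1 = sum, E2 = (difference)/i we get two
equations α |z|² + 2 Re (β z) + γ = 0 with real α, γ: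
 E1: α = 2 Re a, β = b + c̄, γ = 2 Re d;   E2: α = 2 Im a, β = (b - c̄)/i, γ = 2 Im d.  They are not both trivial.
For a nontrivial equation (α, β, γ) ≠ 0: if αγ < |β|² take Γ = GC α γ β.  If αγ ≥ |β|²: if α ≠ 0, the equation says
|α z + β̄|² = |β|² - αγ ≤ 0, so z = - β̄/α: one point z0; take any line through it, e.g. α' = 0, γ' = - 2 Re (z0), β' = 1.
If α = 0 then β = 0, γ ≠ 0 and there is no z: take any line.
-/
import Pool.Agent.H43.RH.Swp

namespace Pool.Agent.H43.RH
open Polynomial Polynomial.Bivariate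

private theorem lcpoly_aux (α γ : ℝ) (β : ℂ) (hne : ¬ (α = 0 ∧ β = 0 ∧ γ = 0)) :
    ∃ α' γ' : ℝ, ∃ β' : ℂ, α' * γ' < ‖β'‖ ^ 2 ∧
      ∀ z : ℂ, α * ‖z‖ ^ 2 + 2 * (β * z).re + γ = 0 → z ∈ GC α' γ' β' := by
  by_cases h : α * γ < ‖β‖ ^ 2
  · exact ⟨α, γ, β, h, fun z hz => hz⟩
  · push Not at h
    by_cases hα : α = 0
    · have hβ : β = 0 := by
        rw [hα, zero_mul] at h
        have h0 : ‖β‖ ^ 2 = 0 := le_antisymm h (sq_nonneg _)
        exact norm_eq_zero.1 (pow_eq_zero_iff (two_ne_zero)|>.1 h0)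
      refine ⟨0, 0, 1, by simp, fun z hz => ?_⟩
      exfalso
      rw [hα, hβ, zero_mul, zero_mul, Complex.zero_re, mul_zero, zero_add, zero_add] at hz
      exact hne ⟨hα, hβ, hz⟩
    · refine ⟨0, 2 * β.re / α, 1, by simp, fun z hz => ?_⟩
      have e1 : ‖z‖ ^ 2 = z.re * z.re + z.im * z.im := by
        rw [← Complex.normSq_eq_norm_sq, Complex.normSq_apply]
      have e2 : ‖β‖ ^ 2 = β.re * β.re + β.im * β.im := by
        rw [← Complex.normSq_eq_norm_sq, Complex.normSq_apply]
      rw [e1, Complex.mul_re] at hz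
      rw [e2] at h
      have h3 : (α * z.re + β.re) ^ 2 + (α * z.im - β.im) ^ 2 ≤ 0 := by
        have e3 : (α * z.re + β.re) ^ 2 + (α * z.im - β.im) ^ 2
            = α * (α * (z.re * z.re + z.im * z.im) + 2 * (β.re * z.re - β.im * z.im) + γ)
              + (β.re * β.re + β.im * β.im) - α * γ := by ring
        rw [e3, hz]
        linarith
      have h4 : α * z.re + β.re = 0 := by
        have h5 : (α * z.re + β.re) ^ 2 = 0 :=
          le_antisymm (by nlinarith [sq_nonneg (α * z.im - β.im)]) (sq_nonneg _)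
        exact (pow_eq_zero_iff (two_ne_zero)).1 h5
      change (0 : ℝ) * ‖z‖ ^ 2 + 2 * ((1 : ℂ) * z).re + 2 * β.re / α = 0
      rw [one_mul, zero_mul, zero_add]
      field_simp
      linarith

private theorem lcpoly_form (F : ℂ[X][Y]) (h1 : F.natDegree ≤ 1) (h2 : (swap F).natDegree ≤ 1)
    (z w : ℂ) : F.evalEval z w = ((F.coeff 1).coeff 1 * z + (F.coeff 1).coeff 0) * w
      + ((F.coeff 0).coeff 1 * z + (F.coeff 0).coeff 0) := by
  have hF := eq_X_add_C_of_natDegree_le_one h1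
  have hc : ∀ i, (F.coeff i).eval z = (F.coeff i).coeff 1 * z + (F.coeff i).coeff 0 := by
    intro i
    have hi := eq_X_add_C_of_natDegree_le_one ((coeff_natDegree_le F i).trans h2)
    conv_lhs => rw [hi]
    simp
  have h3 : F.evalEval z w = (F.coeff 1).eval z * w + (F.coeff 0).eval z := by
    conv_lhs => rw [hF]
    simp [evalEval]
  rw [h3, hc, hc]

private theorem lcpoly_zero (F : ℂ[X][Y]) (hF : F ≠ 0) (h1 : F.natDegree ≤ 1)
    (h2 : (swap F).natDegree ≤ 1) : ¬ ((F.coeff 1).coeff 1 = 0 ∧ (F.coeff 1).coeff 0 = 0 ∧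
      (F.coeff 0).coeff 1 = 0 ∧ (F.coeff 0).coeff 0 = 0) := by
  rintro ⟨ha, hb, hc, hd⟩
  apply hF
  have hc1 : F.coeff 1 = 0 := by
    rw [eq_X_add_C_of_natDegree_le_one ((coeff_natDegree_le F 1).trans h2), ha, hb]
    simp
  have hc0 : F.coeff 0 = 0 := by
    rw [eq_X_add_C_of_natDegree_le_one ((coeff_natDegree_le F 0).trans h2), hc, hd]
    simp
  rw [eq_X_add_C_of_natDegree_le_one h1, hc1, hc0]
  simp

theorem lcpoly (F : ℂ[X][Y]) (hF : F ≠ 0) (h1 : F.natDegree ≤ 1) (h2 : (swap F).natDegree ≤ 1) :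
    ∃ α γ : ℝ, ∃ β : ℂ, α * γ < ‖β‖ ^ 2 ∧
      ∀ z : ℂ, F.evalEval z ((starRingEnd ℂ) z) = 0 → z ∈ GC α γ β := by
  have hne := lcpoly_zero F hF h1 h2
  have hform := lcpoly_form F h1 h2
  generalize (F.coeff 1).coeff 1 = a at hne hform
  generalize (F.coeff 1).coeff 0 = c at hne hform
  generalize (F.coeff 0).coeff 1 = b at hne hform
  generalize (F.coeff 0).coeff 0 = d at hne hform
  have key : ∀ z : ℂ, F.evalEval z ((starRingEnd ℂ) z) = 0 →
      (2 * a.re) * ‖z‖ ^ 2 + 2 * ((b + (starRingEnd ℂ) c) * z).re + 2 * d.re = 0 ∧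
      (2 * a.im) * ‖z‖ ^ 2 + 2 * ((-Complex.I * (b - (starRingEnd ℂ) c)) * z).re
        + 2 * d.im = 0 := by
    intro z hz
    rw [hform] at hz
    have e1 : ‖z‖ ^ 2 = z.re * z.re + z.im * z.im := by
      rw [← Complex.normSq_eq_norm_sq, Complex.normSq_apply]
    have hre := congrArg Complex.re hz
    have him := congrArg Complex.im hz
    simp only [Complex.add_re, Complex.mul_re, Complex.add_im, Complex.mul_im, Complex.conj_re,
      Complex.conj_im, Complex.zero_re, Complex.zero_im] at hre him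
    rw [e1]
    constructor
    · simp only [Complex.add_re, Complex.mul_re, Complex.add_im, Complex.conj_re,
        Complex.conj_im]
      linear_combination 2 * hre
    · simp only [Complex.mul_re, Complex.mul_im, Complex.sub_re, Complex.sub_im, Complex.neg_re,
        Complex.neg_im, Complex.I_re, Complex.I_im, Complex.conj_re, Complex.conj_im]
      linear_combination 2 * him
  by_cases hE : (2 * a.re = 0 ∧ (b + (starRingEnd ℂ) c) = 0 ∧ 2 * d.re = 0)
  · have hE2 : ¬ (2 * a.im = 0 ∧ (-Complex.I * (b - (starRingEnd ℂ) c)) = 0 ∧ 2 * d.im = 0) := by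
      rintro ⟨i1, i2, i3⟩
      obtain ⟨r1, r2, r3⟩ := hE
      apply hne
      have i2' : b - (starRingEnd ℂ) c = 0 := by
        rcases mul_eq_zero.1 i2 with h | h
        · exact absurd h (neg_ne_zero.2 Complex.I_ne_zero)
        · exact h
      have hb : b = 0 := by linear_combination (r2 + i2') / 2
      have hc : c = 0 := by
        have : (starRingEnd ℂ) c = 0 := by linear_combination (r2 - i2') / 2
        exact (map_eq_zero (starRingEnd ℂ)).1 this
      refine ⟨Complex.ext ?_ ?_, hc, hb, Complex.ext ?_ ?_⟩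
      · rw [Complex.zero_re]; linarith
      · rw [Complex.zero_im]; linarith
      · rw [Complex.zero_re]; linarith
      · rw [Complex.zero_im]; linarith
    obtain ⟨α, γ, β, h, hz⟩ := lcpoly_aux _ _ _ hE2
    exact ⟨α, γ, β, h, fun z hz0 => hz z (key z hz0).2⟩
  · obtain ⟨α, γ, β, h, hz⟩ := lcpoly_aux _ _ _ hE
    exact ⟨α, γ, β, h, fun z hz0 => hz z (key z hz0).1⟩

end Pool.Agent.H43.RH
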