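/-
S2 (GDeg).  Degrees of the specialised norm polynomial.  Needs Swp (qq_natDegree).  About 50 lines.
PROOF.  aeval f N = sum over d in the support of C(coeff) * ∏ f i ^ d i with d i ≤ D: natDegree ≤ sum d i * 1 ≤ m D
(MvPolynomial.aeval_def, eval₂_eq, natDegree_sum_le_of_forall_le, natDegree_mul_le, natDegree_prod_le, natDegree_pow_le,
degreeOf_le_iff / le_degreeOf...).  Same for the swap, which is an algebra map.
-/
import Pool.Agent.H43.RH.Swp

namespace Pool.Agent.H43.RH
open Polynomial Polynomial.Bivariate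

private lemma gdeg_aux (m D : ℕ) (N : MvPolynomial (Fin m) ℂ)
    (hN : ∀ i, MvPolynomial.degreeOf i N ≤ D) (f : Fin m → ℂ[X][Y])
    (hf : ∀ i, (f i).natDegree ≤ 1) : (MvPolynomial.aeval f N).natDegree ≤ m * D := by
  rw [MvPolynomial.aeval_def, MvPolynomial.eval₂_eq']
  refine natDegree_sum_le_of_forall_le _ _ fun d hd => ?_
  refine natDegree_mul_le.trans ?_
  have h1 : (algebraMap ℂ ℂ[X][Y] (MvPolynomial.coeff d N)).natDegree = 0 := by
    rw [Polynomial.algebraMap_apply]
    exact natDegree_C _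
  rw [h1, zero_add]
  refine (natDegree_prod_le _ _).trans ?_
  calc ∑ i : Fin m, (f i ^ d i).natDegree ≤ ∑ _i : Fin m, D := by
        refine Finset.sum_le_sum fun i _ => ?_
        refine natDegree_pow_le.trans ?_
        have h2 : d i ≤ D := MvPolynomial.degreeOf_le_iff.1 (hN i) d hd
        calc d i * (f i).natDegree ≤ d i * 1 := Nat.mul_le_mul_left _ (hf i)
          _ ≤ D := by omega
    _ = m * D := by simp

theorem g_deg (m D : ℕ) (N : MvPolynomial (Fin m) ℂ) (hN : ∀ i, MvPolynomial.degreeOf i N ≤ D)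
    (p p' : Fin m → ℂ) :
    (MvPolynomial.aeval (fun i => qq (p i) (p' i)) N).natDegree ≤ m * D ∧
      (swap (MvPolynomial.aeval (fun i => qq (p i) (p' i)) N)).natDegree ≤ m * D := by
  refine ⟨gdeg_aux m D N hN _ fun i => (qq_natDegree _ _).1, ?_⟩
  have h1 : swap (MvPolynomial.aeval (fun i => qq (p i) (p' i)) N)
      = MvPolynomial.aeval (fun i => swap (qq (p i) (p' i))) N := by
    have h2 := MvPolynomial.comp_aeval_apply (f := fun i => qq (p i) (p' i))
      ((swap (R := ℂ)).toAlgHom) N
    exact h2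
  rw [h1]
  exact gdeg_aux m D N hN _ fun i => (qq_natDegree _ _).2

end Pool.Agent.H43.RH
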