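/-
S3 (GVan).  The specialised norm polynomial vanishes where the relation holds.  Needs Swp (qq_evalEval).  About 40 lines.
PROOF.  evalEval P (conj P) is a ring hom (evalEvalRingHom, as algebra hom over ℂ); it maps qq (p i) (conj (p i)) to
(P - p i) (conj P - conj (p i)) = |P - p i|² = s_i² with s_i = (|P - p i| : ℂ).  So the value of the left side is
aeval (s_i²) N = ∏_σ ... (hN with K = ℂ), and the factor σ = ∅ is sum a_I ∏ |P - p i| = 0 (cast).
-/
import Pool.Agent.H43.RH.Swp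

namespace Pool.Agent.H43.RH
open Polynomial Polynomial.Bivariate

theorem g_van (m : ℕ) (a : Finset (Fin m) → ℝ) (N : MvPolynomial (Fin m) ℂ)
    (hN : NormId m (fun I => (a I : ℂ)) N) (p : Fin m → ℂ) (P : ℂ)
    (h : ∑ I, a I * ∏ i ∈ I, ‖P - p i‖ = 0) :
    (MvPolynomial.aeval (fun i => qq (p i) ((starRingEnd ℂ) (p i))) N).evalEval P
      ((starRingEnd ℂ) P) = 0 := by
  classical
  have hev : ∀ Q : ℂ[X][Y], Q.evalEval P ((starRingEnd ℂ) P)
      = (Polynomial.evalEvalRingHom P ((starRingEnd ℂ) P)) Q := fun Q => rfl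
  rw [hev, MvPolynomial.map_aeval]
  have hcomp : (Polynomial.evalEvalRingHom P ((starRingEnd ℂ) P)).comp (algebraMap ℂ ℂ[X][Y])
      = algebraMap ℂ ℂ := by
    ext z
    simp [Polynomial.evalEvalRingHom]
  rw [hcomp]
  set s : Fin m → ℂ := fun i => ((‖P - p i‖ : ℝ) : ℂ) with hs
  have hs2 : (fun i => (Polynomial.evalEvalRingHom P ((starRingEnd ℂ) P))
      (qq (p i) ((starRingEnd ℂ) (p i)))) = fun i => s i ^ 2 := by
    funext i
    rw [← hev, qq_evalEval, hs]
    have h1 : (starRingEnd ℂ) P - (starRingEnd ℂ) (p i) = (starRingEnd ℂ) (P - p i) := by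
      rw [map_sub]
    rw [h1, Complex.mul_conj, Complex.normSq_eq_norm_sq]
    push_cast
    ring
  rw [hs2]
  have hN' := hN ℂ s
  have h2 : (MvPolynomial.eval₂Hom (algebraMap ℂ ℂ) (fun i => s i ^ 2)) N
      = MvPolynomial.aeval (fun i => s i ^ 2) N := rfl
  rw [h2, hN']
  apply Finset.prod_eq_zero (Finset.mem_univ (∅ : Finset (Fin m)))
  have h3 : ∑ I : Finset (Fin m), (a I : ℂ) • ∏ i ∈ I, (if i ∈ (∅ : Finset (Fin m)) then - s i else s i)
      = ((∑ I, a I * ∏ i ∈ I, ‖P - p i‖ : ℝ) : ℂ) := by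
    push_cast
    apply Finset.sum_congr rfl
    intro I _
    rw [smul_eq_mul]
    refine congrArg (fun t => (a I : ℂ) * t) (Finset.prod_congr rfl ?_)
    intro i _
    simp [hs]
  rw [h3, h]
  exact Complex.ofReal_zero

end Pool.Agent.H43.RH
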