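/-
G1 (Greedy).  Greedy choice.  MATHLIB ONLY, about 50 lines.
PROOF.  Induction on m (for all D).  m = 0 trivial (Fin.elim0).  Step: D.card ≥ (m+1) κ ≥ 1 (κ ≥ 1): pick p0 in D,
D' = D.filter (¬ Rr p0 ·) has ≥ m κ elements; apply the induction hypothesis to D' and put p0 in front (Fin.cons).
-/
import Pool.Agent.H43.RH.Defs

namespace Pool.Agent.H43.RH

theorem greedy (Rr : ℂ → ℂ → Prop) (κ : ℕ) (hκ : 1 ≤ κ) (m : ℕ) : ∀ D : Finset ℂ,
    (∀ p ∈ D, ∀ D' : Finset ℂ, D' ⊆ D → (∀ x ∈ D', Rr p x) → D'.card ≤ κ) → m * κ ≤ D.card →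
    ∃ p : Fin m → ℂ, (∀ i, p i ∈ D) ∧ ∀ i j, i < j → ¬ Rr (p i) (p j) := by
  classical
  induction m with
  | zero =>
    intro D _ _
    exact ⟨fun i => i.elim0, fun i => i.elim0, fun i => i.elim0⟩
  | succ m ih =>
    intro D hD hm
    have hpos : 0 < D.card := by
      have h1 : 1 ≤ (m + 1) * κ := Nat.one_le_iff_ne_zero.2 (by positivity)
      omega
    obtain ⟨p0, hp0⟩ := Finset.card_pos.1 hpos
    have h2 : (D.filter fun x => Rr p0 x).card ≤ κ :=
      hD p0 hp0 _ (Finset.filter_subset _ _) (fun x hx => (Finset.mem_filter.1 hx).2)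
    have h3 : (D.filter fun x => Rr p0 x).card + (D.filter fun x => ¬ Rr p0 x).card = D.card :=
      Finset.card_filter_add_card_filter_not _
    have h4 : m * κ ≤ (D.filter fun x => ¬ Rr p0 x).card := by
      have h5 : (m + 1) * κ = m * κ + κ := by ring
      omega
    obtain ⟨p, hp1, hp2⟩ := ih (D.filter fun x => ¬ Rr p0 x)
      (fun q hq D' hD' hx => hD q (Finset.mem_of_mem_filter q hq) D'
        (hD'.trans (Finset.filter_subset _ _)) hx) h4
    refine ⟨Fin.cons p0 p, ?_, ?_⟩
    · intro i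
      refine Fin.cases ?_ (fun i => ?_) i
      · exact hp0
      · exact Finset.mem_of_mem_filter _ (hp1 i)
    · intro i j
      refine Fin.cases ?_ (fun i => ?_) i
      · refine Fin.cases ?_ (fun j => ?_) j
        · intro h
          exact absurd h (lt_irrefl _)
        · intro _
          exact (Finset.mem_filter.1 (hp1 j)).2
      · refine Fin.cases ?_ (fun j => ?_) j
        · intro h
          exact absurd h (Fin.not_lt_zero _)
        · intro h
          exact hp2 i j (Fin.succ_lt_succ_iff.1 h)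

end Pool.Agent.H43.RH
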