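/-
G2 (Good).  Good base points for a component of Y-degree ≥ 2.  Needs Greedy, El, Swp.  About 150 lines.
PROOF.  β = natDegree F in [2, δ], α = natDegree (swap F) ≤ δ.
(a) F ∤ derivative F (derivative has natDegree β - 1 < β and is not 0); elim (F, derivative F) with α' = α
 (swap_derivative_natDegree_le): A F + B F' = C R, R ≠ 0, natDegree R ≤ β α + (β-1) α + 2 α ≤ (2δ+1) δ.
(b) Bad points: R(p) = 0 (≤ 2δ² + δ points) or (leading coefficient of F)(p) = 0 (≤ δ points, coeff_natDegree_le).
 The others D1 satisfy D1.card ≥ NN m δ - (2δ² + 2δ) = m (δ+2) + 1.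
(c) For p in D1 the polynomial f_p = F.map (evalRingHom p) in ℂ[X] has natDegree β ≥ 2 and no multiple root (a common root
 w of f_p and f_p' = (derivative F).map .. gives R(p) = 0).  So it has β ≥ 2 distinct roots (card of roots = natDegree,
 IsAlgClosed; nodup from simplicity) and there is a root W(p) ≠ conj p: F(p, W(p)) = 0, F'(p, W(p)) ≠ 0.
(d) Rr p x := x = p ∨ conj x = W(p) ∨ W(x) = conj p.  In D1 for given p: at most 1 + 1 + δ points x, because W(x) = conj p
 implies F(x, conj p) = 0, x is a root of F.eval (C (conj p)) ≠ 0 (if it were 0, (Y - C c) ∣ F, F associated to it, but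
 natDegree F ≥ 2), of natDegree ≤ α ≤ δ (eval_C_natDegree_le).
(e) greedy with κ = δ + 2: p i in D1, for i < j: p j ≠ p i, conj (p j) ≠ W (p i), W (p j) ≠ conj (p i).  w i = W (p i).
-/
import Pool.Agent.H43.RH.Greedy
import Pool.Agent.H43.RH.El

namespace Pool.Agent.H43.RH
open Polynomial Polynomial.Bivariate

private theorem not_dvd_derivative (F : ℂ[X][Y]) (h2 : 2 ≤ F.natDegree) : ¬ F ∣ derivative F := by
  intro h
  have h0 : derivative F ≠ 0 := by
    intro h0
    have := Polynomial.derivative_eq_zero.mp h0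
    omega
  have h1 := Polynomial.natDegree_le_of_dvd h h0
  have h3 := Polynomial.natDegree_derivative_lt (p := F) (by omega)
  omega

private theorem two_roots (F : ℂ[X][Y]) (h2 : 2 ≤ F.natDegree) (p c : ℂ)
    (hl : F.leadingCoeff.eval p ≠ 0)
    (hs : ∀ w : ℂ, F.evalEval p w = 0 → (derivative F).evalEval p w ≠ 0) :
    ∃ w : ℂ, F.evalEval p w = 0 ∧ w ≠ c := by
  classical
  set f : ℂ[X] := F.map (evalRingHom p) with hf
  have hdeg : f.natDegree = F.natDegree :=
    Polynomial.natDegree_map_of_leadingCoeff_ne_zero _ (by simpa using hl)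
  have hf0 : f ≠ 0 := by
    intro h0
    rw [h0] at hdeg
    simp at hdeg
    omega
  by_contra hcon
  push Not at hcon
  have hroot : ∀ w ∈ f.roots, w = c := by
    intro w hw
    rw [Polynomial.mem_roots hf0, Polynomial.IsRoot.def, hf, Polynomial.map_evalRingHom_eval] at hw
    exact hcon w hw
  have hcard : Multiset.card f.roots = f.natDegree :=
    (Polynomial.splits_iff_card_roots.mp (IsAlgClosed.splits f))
  have hrep : f.roots = Multiset.replicate f.natDegree c :=
    Multiset.eq_replicate.mpr ⟨hcard, hroot⟩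
  have hcount : f.rootMultiplicity c = f.natDegree := by
    rw [← Polynomial.count_roots, hrep, Multiset.count_replicate_self]
  have hmul : 1 < f.rootMultiplicity c := by omega
  have h3 := (Polynomial.one_lt_rootMultiplicity_iff_isRoot hf0).mp hmul
  have h4 : F.evalEval p c = 0 := by
    have := h3.1
    rwa [Polynomial.IsRoot.def, hf, Polynomial.map_evalRingHom_eval] at this
  have h5 : (derivative F).evalEval p c = 0 := by
    have := h3.2
    rwa [Polynomial.IsRoot.def, hf, Polynomial.derivative_map,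
      Polynomial.map_evalRingHom_eval] at this
  exact hs c h4 h5

private theorem eval_C_ne_zero (F : ℂ[X][Y]) (hF : Prime F) (h2 : 2 ≤ F.natDegree) (c : ℂ) :
    F.eval (C c) ≠ 0 := by
  intro h0
  have hd : (X - C (C c) : ℂ[X][Y]) ∣ F := Polynomial.dvd_iff_isRoot.mpr h0
  obtain ⟨q, hq⟩ := hd
  have hX : (X - C (C c) : ℂ[X][Y]).natDegree = 1 := Polynomial.natDegree_X_sub_C _
  rcases hF.irreducible.isUnit_or_isUnit hq with h | h
  · have := Polynomial.natDegree_eq_zero_of_isUnit h
    omega
  · have h1 := Polynomial.natDegree_eq_zero_of_isUnit h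
    have h3 : F.natDegree ≤ (X - C (C c) : ℂ[X][Y]).natDegree + q.natDegree := by
      rw [hq]
      exact Polynomial.natDegree_mul_le
    omega

theorem good (F : ℂ[X][Y]) (hF : Prime F) (m δ : ℕ) (h2 : 2 ≤ F.natDegree) (hX : F.natDegree ≤ δ)
    (hY : (swap F).natDegree ≤ δ) (D : Finset ℂ) (hD : NN m δ ≤ D.card) :
    ∃ p w : Fin m → ℂ, (∀ i, p i ∈ D) ∧ GoodPts F m p w := by
  classical
  have hnd := not_dvd_derivative F h2
  obtain ⟨A, B, R, hR0, hR, hRdeg⟩ := elim F (derivative F) hF (by omega) hnd δ δ hY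
    ((swap_derivative_natDegree_le F).trans hY)
  have hdd : (derivative F).natDegree < F.natDegree := Polynomial.natDegree_derivative_lt (by omega)
  have hRδ : R.natDegree ≤ 2 * δ ^ 2 + δ := by
    have h1 : F.natDegree * δ ≤ δ * δ := Nat.mul_le_mul_right _ hX
    have h3 : ((derivative F).natDegree + 1) * δ ≤ δ * δ := Nat.mul_le_mul_right _ (by omega)
    have h4 : δ ^ 2 = δ * δ := sq δ
    have h5 : ((derivative F).natDegree + 1) * δ = (derivative F).natDegree * δ + δ := by ring
    omega
  have hF0 : F ≠ 0 := hF.ne_zero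
  have hl0 : F.leadingCoeff ≠ 0 := Polynomial.leadingCoeff_ne_zero.mpr hF0
  have hldeg : F.leadingCoeff.natDegree ≤ δ := (coeff_natDegree_le F _).trans hY
  have hsimple : ∀ p : ℂ, R.eval p ≠ 0 → ∀ w : ℂ, F.evalEval p w = 0 →
      (derivative F).evalEval p w ≠ 0 := by
    intro p hp w hw hw'
    apply hp
    have h1 : (A * F + B * derivative F).evalEval p w = (C R : ℂ[X][Y]).evalEval p w := by rw [hR]
    have h3 : ∀ G : ℂ[X][Y], G.evalEval p w = (Polynomial.evalEvalRingHom p w) G := fun G => rfl
    rw [h3, map_add, map_mul, map_mul, ← h3, ← h3, ← h3, ← h3, hw, hw'] at h1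
    simpa [Polynomial.evalEval] using h1.symm
  set D1 := D.filter (fun p => R.eval p ≠ 0 ∧ F.leadingCoeff.eval p ≠ 0) with hD1
  have hD1card : m * (δ + 2) ≤ D1.card := by
    have hsub : D \ D1 ⊆ R.roots.toFinset ∪ F.leadingCoeff.roots.toFinset := by
      intro x hx
      rw [Finset.mem_sdiff, hD1, Finset.mem_filter] at hx
      rw [Finset.mem_union, Multiset.mem_toFinset, Multiset.mem_toFinset,
        Polynomial.mem_roots hR0, Polynomial.mem_roots hl0, Polynomial.IsRoot.def,
        Polynomial.IsRoot.def]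
      by_contra hcon
      push Not at hcon
      exact hx.2 ⟨hx.1, hcon⟩
    have h1 : (D \ D1).card ≤ (2 * δ ^ 2 + δ) + δ := by
      refine (Finset.card_le_card hsub).trans ((Finset.card_union_le _ _).trans ?_)
      have h3 : R.roots.toFinset.card ≤ R.natDegree :=
        (Multiset.toFinset_card_le _).trans (Polynomial.card_roots' _)
      have h4 : F.leadingCoeff.roots.toFinset.card ≤ F.leadingCoeff.natDegree :=
        (Multiset.toFinset_card_le _).trans (Polynomial.card_roots' _)
      omega
    have h3 : D.card ≤ (D \ D1).card + D1.card := by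
      have := Finset.card_sdiff_add_card D D1
      have h4 := Finset.card_le_card (Finset.subset_union_left (s₁ := D) (s₂ := D1))
      omega
    rw [NN] at hD
    omega
  have hW : ∀ p : ℂ, ∃ w : ℂ, (R.eval p ≠ 0 ∧ F.leadingCoeff.eval p ≠ 0) →
      F.evalEval p w = 0 ∧ (derivative F).evalEval p w ≠ 0 ∧ w ≠ (starRingEnd ℂ) p := by
    intro p
    by_cases hp : R.eval p ≠ 0 ∧ F.leadingCoeff.eval p ≠ 0
    · obtain ⟨w, hw, hwc⟩ := two_roots F h2 p ((starRingEnd ℂ) p) hp.2 (hsimple p hp.1)
      exact ⟨w, fun _ => ⟨hw, hsimple p hp.1 w hw, hwc⟩⟩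
    · exact ⟨0, fun h => absurd h hp⟩
  choose W hW using hW
  have hWD : ∀ p ∈ D1, F.evalEval p (W p) = 0 ∧ (derivative F).evalEval p (W p) ≠ 0 ∧
      W p ≠ (starRingEnd ℂ) p := fun p hp => hW p (Finset.mem_filter.mp hp).2
  obtain ⟨p, hpD, hp⟩ := greedy
    (fun p x => x = p ∨ (starRingEnd ℂ) x = W p ∨ W x = (starRingEnd ℂ) p) (δ + 2) (by omega) m D1
    (by
      intro p hp D' hD' hRr
      have hsub : D' ⊆ ({p} ∪ {(starRingEnd ℂ) (W p)}) ∪
          (F.eval (C ((starRingEnd ℂ) p))).roots.toFinset := by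
        intro x hx
        rw [Finset.mem_union, Finset.mem_union, Finset.mem_singleton, Finset.mem_singleton,
          Multiset.mem_toFinset, Polynomial.mem_roots (eval_C_ne_zero F hF h2 _),
          Polynomial.IsRoot.def]
        rcases hRr x hx with h | h | h
        · exact Or.inl (Or.inl h)
        · left; right
          rw [← h, Complex.conj_conj]
        · right
          have h1 := (hWD x (hD' hx)).1
          rw [h] at h1
          exact h1
      refine (Finset.card_le_card hsub).trans ((Finset.card_union_le _ _).trans ?_)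
      have h1 : (({p} ∪ {(starRingEnd ℂ) (W p)} : Finset ℂ)).card ≤ 2 := by
        refine (Finset.card_union_le _ _).trans ?_
        simp
      have h3 : (F.eval (C ((starRingEnd ℂ) p))).roots.toFinset.card ≤ δ :=
        (Multiset.toFinset_card_le _).trans ((Polynomial.card_roots' _).trans
          ((eval_C_natDegree_le F _).trans hY))
      omega)
    hD1card
  have hpD0 : ∀ i, p i ∈ D := fun i => (Finset.mem_filter.mp (hpD i)).1
  refine ⟨p, fun i => W (p i), hpD0, ?_, ?_, ?_, ?_⟩
  · intro i j hij
    by_contra hne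
    rcases lt_or_gt_of_ne hne with h | h
    · exact hp i j h (Or.inl hij.symm)
    · exact hp j i h (Or.inl hij)
  · exact fun i => (hWD _ (hpD i)).1
  · exact fun i => (hWD _ (hpD i)).2.1
  · intro i j
    rcases lt_trichotomy i j with h | h | h
    · intro h1
      exact hp i j h (Or.inr (Or.inl h1.symm))
    · subst h
      exact (hWD _ (hpD i)).2.2
    · intro h1
      exact hp j i h (Or.inr (Or.inr h1))

end Pool.Agent.H43.RH
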