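/-
N1 (Norm).  The norm polynomial.  MATHLIB ONLY, about 120 lines.
PROOF.  In MvPolynomial (Fin m) ℂ put Π = ∏_σ ∑_I a_I ∏_{i in I} (± X_i) (sign - for i in σ).  Π is invariant under
X_j ↦ - X_j (reindex the product by σ ↦ σ Δ {j}); the substitution multiplies the coefficient of the monomial d by
(-1)^(d j), so coeff d Π = 0 if some d j is odd.  N := sum over d in the support of Π of monomial (d/2) (coeff d Π).
Then Π = aeval (X_i ^ 2) N (each d in the support is 2 (d/2)).  The degree of Π in X_i is ≤ 2^m (each of the 2^m factors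
has degree ≤ 1 in X_i: degreeOf_prod_le or degreeOf_mul_le, degreeOf_sum_le), so degreeOf i N ≤ 2^m.
For (K, s) apply aeval s to Π = aeval (X_i ^ 2) N.
-/
import Pool.Agent.H43.RH.Defs

namespace Pool.Agent.H43.RH

open MvPolynomial in
/-- the product over all sign patterns -/
private noncomputable def nrP (m : ℕ) (a : Finset (Fin m) → ℂ) : MvPolynomial (Fin m) ℂ :=
  ∏ σ : Finset (Fin m), ∑ I : Finset (Fin m), a I • ∏ i ∈ I, (if i ∈ σ then - X i else X i)

open MvPolynomial in
/-- the substitution `X j ↦ - X j` -/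
private noncomputable def nrF {m : ℕ} (j : Fin m) : MvPolynomial (Fin m) ℂ →ₐ[ℂ] MvPolynomial (Fin m) ℂ :=
  aeval (fun i => if i = j then - X i else X i)

open MvPolynomial in
private lemma nrF_nrP {m : ℕ} (a : Finset (Fin m) → ℂ) (j : Fin m) : nrF j (nrP m a) = nrP m a := by
  classical
  unfold nrP
  rw [map_prod]
  refine Fintype.prod_equiv (Equiv.mk (fun σ => symmDiff σ {j}) (fun σ => symmDiff σ {j}) ?_ ?_) _ _ ?_
  · intro σ
    simp
  · intro σ
    simp
  · intro σ
    rw [map_sum]
    refine Finset.sum_congr rfl fun I _ => ?_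
    rw [map_smul, map_prod]
    congr 1
    refine Finset.prod_congr rfl fun i _ => ?_
    simp only [Equiv.coe_fn_mk, Finset.mem_symmDiff, Finset.mem_singleton]
    by_cases h1 : i ∈ σ <;> by_cases h2 : i = j <;> simp [h1, h2, nrF]
    all_goals
      first
      | (subst h2; simp [h1])
      | skip

open MvPolynomial in
private lemma nrF_coeff {m : ℕ} (j : Fin m) (P : MvPolynomial (Fin m) ℂ) (d : Fin m →₀ ℕ) :
    coeff d (nrF j P) = (-1) ^ (d j) * coeff d P := by
  classical
  induction P using MvPolynomial.induction_on' with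
  | monomial e c =>
    have h : nrF j (monomial e c) = monomial e ((-1) ^ (e j) * c) := by
      unfold nrF
      rw [aeval_monomial, monomial_eq, Finsupp.prod_fintype _ _ (by simp),
        Finsupp.prod_fintype _ _ (by simp)]
      have h1 : ∀ i, (if i = j then - X i else (X i : MvPolynomial (Fin m) ℂ)) ^ e i
          = (if i = j then (-1) ^ e i else 1) * X i ^ e i := by
        intro i
        split_ifs
        · rw [neg_pow]
        · rw [one_mul]
      simp only [h1]
      rw [Finset.prod_mul_distrib, Finset.prod_ite_eq']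
      simp [algebraMap_eq]
      ring
    rw [h, coeff_monomial, coeff_monomial]
    split_ifs with h1
    · rw [h1]
    · simp
  | add p q hp hq => rw [map_add, coeff_add, hp, hq, coeff_add]; ring

open MvPolynomial in
private lemma nr_even {m : ℕ} (a : Finset (Fin m) → ℂ) (d : Fin m →₀ ℕ) (hd : d ∈ (nrP m a).support)
    (j : Fin m) : Even (d j) := by
  by_contra hodd
  rw [Nat.not_even_iff_odd] at hodd
  have h1 := nrF_coeff j (nrP m a) d
  rw [nrF_nrP, hodd.neg_one_pow] at h1
  rw [mem_support_iff] at hd
  apply hd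
  have h2 : (2 : ℂ) * coeff d (nrP m a) = 0 := by linear_combination h1
  simpa using h2

open MvPolynomial in
private lemma nr_deg {m : ℕ} (a : Finset (Fin m) → ℂ) (i : Fin m) : degreeOf i (nrP m a) ≤ 2 ^ m := by
  classical
  unfold nrP
  refine (degreeOf_prod_le _ _ _).trans ?_
  have h : ∀ σ : Finset (Fin m), degreeOf i (∑ I : Finset (Fin m), a I • ∏ k ∈ I,
      (if k ∈ σ then - X k else (X k : MvPolynomial (Fin m) ℂ))) ≤ 1 := by
    intro σ
    refine (degreeOf_sum_le _ _ _).trans ?_
    refine Finset.sup_le fun I _ => ?_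
    rw [smul_eq_C_mul]
    refine (degreeOf_C_mul_le _ _ _).trans ?_
    refine (degreeOf_prod_le _ _ _).trans ?_
    have h1 : ∀ k ∈ I, degreeOf i (if k ∈ σ then - X k else (X k : MvPolynomial (Fin m) ℂ))
        = if i = k then 1 else 0 := by
      intro k _
      split_ifs with h2 h3 h3
      · rw [degreeOf_neg, degreeOf_X, if_pos h3]
      · rw [degreeOf_neg, degreeOf_X, if_neg h3]
      · rw [degreeOf_X, if_pos h3]
      · rw [degreeOf_X, if_neg h3]
    rw [Finset.sum_congr rfl h1, Finset.sum_ite_eq]
    split_ifs <;> simp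
  refine (Finset.sum_le_sum fun σ _ => h σ).trans ?_
  simp

theorem norm_poly (m : ℕ) (a : Finset (Fin m) → ℂ) :
    ∃ N : MvPolynomial (Fin m) ℂ, (∀ i, MvPolynomial.degreeOf i N ≤ 2 ^ m) ∧ NormId m a N := by
  classical
  refine ⟨∑ d ∈ (nrP m a).support, MvPolynomial.monomial (d.mapRange (· / 2) (by simp))
    (MvPolynomial.coeff d (nrP m a)), ?_, ?_⟩
  · intro i
    refine (MvPolynomial.degreeOf_sum_le _ _ _).trans ?_
    refine Finset.sup_le fun d hd => ?_
    rw [MvPolynomial.degreeOf_monomial_eq _ _ (MvPolynomial.mem_support_iff.mp hd)]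
    refine le_trans ?_ (nr_deg a i)
    refine le_trans ?_ (MvPolynomial.le_degreeOf_of_mem_support i hd)
    simp only [Finsupp.mapRange_apply]
    exact Nat.div_le_self _ _
  · intro K _ _ s
    have h1 : MvPolynomial.aeval s (nrP m a)
        = ∏ σ : Finset (Fin m), ∑ I : Finset (Fin m),
          a I • ∏ i ∈ I, (if i ∈ σ then - s i else s i) := by
      unfold nrP
      rw [map_prod]
      refine Finset.prod_congr rfl fun σ _ => ?_
      rw [map_sum]
      refine Finset.sum_congr rfl fun I _ => ?_
      rw [map_smul, map_prod]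
      congr 1
      refine Finset.prod_congr rfl fun i _ => ?_
      split_ifs
      · rw [map_neg, MvPolynomial.aeval_X]
      · rw [MvPolynomial.aeval_X]
    rw [← h1, map_sum]
    conv_rhs => rw [(nrP m a).as_sum, map_sum]
    refine Finset.sum_congr rfl fun d hd => ?_
    rw [MvPolynomial.aeval_monomial, MvPolynomial.aeval_monomial]
    congr 1
    rw [Finsupp.prod_fintype _ _ (by simp), Finsupp.prod_fintype _ _ (by simp)]
    refine Finset.prod_congr rfl fun i _ => ?_
    rw [Finsupp.mapRange_apply, ← pow_mul]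
    congr 1
    exact Nat.mul_div_cancel' (nr_even a d hd i).two_dvd

end Pool.Agent.H43.RH
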