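/-
E2 (Zer).  Common zeros.  Needs El.  About 30 lines.
PROOF.  For P in S: evaluate A F + B G = C R at (P, conj P): R(P) = 0.  So S is contained in the roots of R:
card S ≤ card roots ≤ natDegree R (Polynomial.card_roots', Finset.card_le_card, Multiset.toFinset_card_le).
-/
import Pool.Agent.H43.RH.El

namespace Pool.Agent.H43.RH
open Polynomial Polynomial.Bivariate

theorem zeros (F G : ℂ[X][Y]) (hF : Prime F) (h1 : 1 ≤ F.natDegree) (hG : ¬ F ∣ G) (α α' : ℕ)
    (hα : (swap F).natDegree ≤ α) (hα' : (swap G).natDegree ≤ α') (S : Finset ℂ)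
    (hS : ∀ P ∈ S, F.evalEval P ((starRingEnd ℂ) P) = 0 ∧ G.evalEval P ((starRingEnd ℂ) P) = 0) :
    S.card ≤ F.natDegree * α' + G.natDegree * α + α + α' := by
  classical
  obtain ⟨A, B, R, hR, hAB, hdeg⟩ := elim F G hF h1 hG α α' hα hα'
  have hsub : S ⊆ R.roots.toFinset := by
    intro P hP
    obtain ⟨h2, h3⟩ := hS P hP
    rw [Multiset.mem_toFinset, Polynomial.mem_roots hR, Polynomial.IsRoot.def]
    have h4 := congrArg (Polynomial.evalEval P ((starRingEnd ℂ) P)) hAB
    rw [Polynomial.evalEval_add, Polynomial.evalEval_mul, Polynomial.evalEval_mul, h2, h3,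
      Polynomial.evalEval_C] at h4
    rw [← h4]
    ring
  calc S.card ≤ R.roots.toFinset.card := Finset.card_le_card hsub
    _ ≤ R.roots.card := Multiset.toFinset_card_le _
    _ ≤ R.natDegree := Polynomial.card_roots' R
    _ ≤ _ := hdeg

end Pool.Agent.H43.RH
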