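/-
L1 (LocF).  Points on a component of Y-degree ≥ 2.  Needs Good, Alg, Norm, GDeg, GVan, Zer.  About 60 lines.
PROOF.  good gives p, w.  hRel: a ≠ 0 real with the relation on S.  norm_poly m (a cast to ℂ) gives N with degrees ≤ 2^m and NormId.
G = aeval (qq (p i) (conj (p i))) N; g_deg: degrees ≤ m 2^m ≤ δ.  alg: F ∤ G.  For P in S' (the subset of S on F = 0) G(P, conj P) = 0
by g_van.  zeros with α = α' = δ: card ≤ natDegree F * δ + natDegree G * δ + 2δ ≤ 2δ² + 2δ.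
-/
import Pool.Agent.H43.RH.Good
import Pool.Agent.H43.RH.Alg
import Pool.Agent.H43.RH.Norm
import Pool.Agent.H43.RH.GDeg
import Pool.Agent.H43.RH.GVan
import Pool.Agent.H43.RH.Zer

namespace Pool.Agent.H43.RH
open Polynomial Polynomial.Bivariate

theorem locF (S D : Finset ℂ) (m δ : ℕ) (hδ : m * 2 ^ m ≤ δ) (hRel : RelP S D m)
    (F : ℂ[X][Y]) (hF : Prime F) (h2 : 2 ≤ F.natDegree) (hX : F.natDegree ≤ δ)
    (hY : (swap F).natDegree ≤ δ) (hD : NN m δ ≤ D.card) (S' : Finset ℂ) (hS' : S' ⊆ S)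
    (hz : ∀ P ∈ S', F.evalEval P ((starRingEnd ℂ) P) = 0) :
    S'.card ≤ 2 * δ ^ 2 + 2 * δ := by
  obtain ⟨p, w, hpD, hg⟩ := good F hF m δ h2 hX hY D hD
  obtain ⟨a, ha, hrel⟩ := hRel p hg.inj hpD
  obtain ⟨N, hNd, hN⟩ := norm_poly m (fun I => (a I : ℂ))
  have ha' : (fun I => (a I : ℂ)) ≠ 0 := by
    intro h
    apply ha
    funext I
    have h3 := congrFun h I
    simpa using h3
  have hG := alg F hF m p w hg (fun I => (a I : ℂ)) ha' N hN
  obtain ⟨hd1, hd2⟩ := g_deg m (2 ^ m) N hNd p (fun i => (starRingEnd ℂ) (p i))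
  have hz' := zeros F _ hF (by omega) hG δ δ hY (hd2.trans hδ) S' fun P hP =>
    ⟨hz P hP, g_van m a N hN p P (hrel P (hS' hP))⟩
  refine hz'.trans ?_
  have h4 := Nat.mul_le_mul_right δ hX
  have h5 := Nat.mul_le_mul_right δ (hd1.trans hδ)
  calc _ ≤ δ * δ + δ * δ + δ + δ := by
        exact Nat.add_le_add_right (Nat.add_le_add_right (Nat.add_le_add h4 h5) _) _
    _ = 2 * δ ^ 2 + 2 * δ := by ring

end Pool.Agent.H43.RH
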