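/-
L2 (LocF2).  The same for a component of X-degree ≥ 2.  Needs LocF, Swp.  About 50 lines.
PROOF.  Apply locF to the conjugate sets (image under conj, injective, same cardinalities) and to swap F:
RelP for the conjugate sets: |conj P - conj p| = |P - p|; (swap F)(P', conj P') with P' = conj P is F(P, conj P)
(evalEval_swap).  Prime (swap F): ring isomorphism (MulEquiv.prime_iff).  swap (swap F) = F.
-/
import Pool.Agent.H43.RH.LocF

namespace Pool.Agent.H43.RH
open Polynomial Polynomial.Bivariate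

private theorem LocF2_norm (P p : ℂ) :
    ‖(starRingEnd ℂ) P - (starRingEnd ℂ) p‖ = ‖P - p‖ := by
  rw [← map_sub]
  exact Complex.norm_conj _

theorem locF2 (S D : Finset ℂ) (m δ : ℕ) (hδ : m * 2 ^ m ≤ δ) (hRel : RelP S D m)
    (F : ℂ[X][Y]) (hF : Prime F) (h2 : 2 ≤ (swap F).natDegree) (hX : F.natDegree ≤ δ)
    (hY : (swap F).natDegree ≤ δ) (hD : NN m δ ≤ D.card) (S' : Finset ℂ) (hS' : S' ⊆ S)
    (hz : ∀ P ∈ S', F.evalEval P ((starRingEnd ℂ) P) = 0) :
    S'.card ≤ 2 * δ ^ 2 + 2 * δ := by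
  classical
  have hinj : Function.Injective (starRingEnd ℂ) := RingHom.injective _
  have hR : RelP (S.image (starRingEnd ℂ)) (D.image (starRingEnd ℂ)) m := by
    intro p hp hpD
    obtain ⟨a, ha, hr⟩ := hRel (fun i => (starRingEnd ℂ) (p i)) (hinj.comp hp) (by
      intro i
      obtain ⟨x, hx, hxi⟩ := Finset.mem_image.1 (hpD i)
      rw [← hxi, Complex.conj_conj]
      exact hx)
    refine ⟨a, ha, ?_⟩
    intro P hP
    obtain ⟨Q, hQ, rfl⟩ := Finset.mem_image.1 hP
    rw [← hr Q hQ]
    refine Finset.sum_congr rfl fun I _ => ?_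
    congr 1
    refine Finset.prod_congr rfl fun i _ => ?_
    rw [← LocF2_norm Q, Complex.conj_conj]
  have hsw : swap (swap F) = F := swap_swap_apply F
  have hP : Prime (swap F) := (MulEquiv.prime_iff (swap (R := ℂ)).toMulEquiv).2 hF
  have h := locF (S.image (starRingEnd ℂ)) (D.image (starRingEnd ℂ)) m δ hδ hR (swap F) hP h2 hY
    (by rw [hsw]; exact hX) (by rw [Finset.card_image_of_injective _ hinj]; exact hD)
    (S'.image (starRingEnd ℂ)) (Finset.image_subset_image hS') (by
      intro P hP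
      obtain ⟨Q, hQ, rfl⟩ := Finset.mem_image.1 hP
      rw [evalEval_swap, Complex.conj_conj]
      exact hz Q hQ)
  rwa [Finset.card_image_of_injective _ hinj] at h

end Pool.Agent.H43.RH
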