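/-
C1 (GCpoly).  The polynomial of a line or circle.  Needs Swp.  About 80 lines.
PROOF.  gcp α γ β = α X Y + β X + conj β Y + γ, as a polynomial in Y: leading coefficient α X + conj β (not 0: otherwise
α = β = 0 and αγ < |β|² fails), constant coefficient β X + γ.  natDegree = 1.  Irreducible: if F = A B one factor, say A, has
Y-degree 0, A = C a with a ∣ α X + conj β and a ∣ β X + γ; a not constant would have a root x0 (IsAlgClosed) with
α x0 + conj β = 0 = β x0 + γ, so αγ = |β|² (multiply), contradiction; so a is a unit.  Prime: ℂ[X][Y] is a UFD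
(Irreducible.prime).  Swap: coefficients have natDegree ≤ 1 (swap_natDegree_le).
-/
import Pool.Agent.H43.RH.Swp

namespace Pool.Agent.H43.RH
open Polynomial Polynomial.Bivariate

/-- the polynomial of the curve `GC α γ β` -/
noncomputable def gcp (α γ : ℝ) (β : ℂ) : ℂ[X][Y] :=
  C (C (α : ℂ) * X + C ((starRingEnd ℂ) β)) * X + C (C β * X + C (γ : ℂ))

theorem gcp_evalEval (α γ : ℝ) (β z w : ℂ) :
    (gcp α γ β).evalEval z w = (α * z + (starRingEnd ℂ) β) * w + (β * z + γ) := by
  simp [gcp, evalEval]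

theorem gcp_derivative_evalEval (α γ : ℝ) (β z w : ℂ) :
    (derivative (gcp α γ β)).evalEval z w = α * z + (starRingEnd ℂ) β := by
  simp [gcp, evalEval]

private lemma gcp_lead (α γ : ℝ) (β : ℂ) (hβ : α * γ < ‖β‖ ^ 2) :
    C (α : ℂ) * X + C ((starRingEnd ℂ) β) ≠ 0 := by
  intro h
  have h0 := congrArg (fun p => p.coeff 0) h
  have h1 := congrArg (fun p => p.coeff 1) h
  simp only [coeff_add, coeff_C_mul, coeff_X_zero, coeff_X_one, coeff_C_zero, coeff_zero, mul_zero,
    zero_add, mul_one, coeff_C_succ, add_zero] at h0 h1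
  have hb : β = 0 := by
    have := congrArg (starRingEnd ℂ) h0
    simpa using this
  have ha : α = 0 := by
    exact_mod_cast h1
  rw [ha, hb] at hβ
  simp at hβ

theorem gcp_natDegree (α γ : ℝ) (β : ℂ) (hβ : α * γ < ‖β‖ ^ 2) : (gcp α γ β).natDegree = 1 :=
  natDegree_linear (gcp_lead α γ β hβ)

theorem gcp_swap (α γ : ℝ) (β : ℂ) : (swap (gcp α γ β)).natDegree ≤ 1 := by
  apply swap_natDegree_le
  intro i
  unfold gcp
  rcases i with _ | _ | i
  · simp only [coeff_add, coeff_C_mul, coeff_X_zero, mul_zero, zero_add, coeff_C_zero]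
    exact natDegree_linear_le
  · simp only [zero_add, coeff_add, coeff_C_mul, coeff_X_one, mul_one, coeff_C_succ, add_zero]
    exact natDegree_linear_le
  · simp only [coeff_add, coeff_C_mul, coeff_C_succ, add_zero]
    rw [coeff_X_of_ne_one (by omega), mul_zero]
    simp

theorem gcp_prime (α γ : ℝ) (β : ℂ) (hβ : α * γ < ‖β‖ ^ 2) : Prime (gcp α γ β) := by
  have hprim : (gcp α γ β).IsPrimitive := by
    intro r hr
    rw [C_dvd_iff_dvd_coeff] at hr
    have h0 := hr 0
    have h1 := hr 1
    unfold gcp at h0 h1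
    simp only [coeff_add, coeff_C_mul, coeff_X_zero, mul_zero, zero_add, coeff_C_zero,
      coeff_X_one, mul_one, coeff_C_succ, add_zero] at h0 h1
    have hr0 : r ≠ 0 := by
      rintro rfl
      exact gcp_lead α γ β hβ (zero_dvd_iff.1 h1)
    by_contra hu
    have hd : r.degree ≠ 0 := fun h => hu (isUnit_iff_degree_eq_zero.2 h)
    obtain ⟨x, hx⟩ := IsAlgClosed.exists_root r hd
    obtain ⟨a, ha⟩ := h0
    obtain ⟨b, hb⟩ := h1
    have e0 := congrArg (eval x) ha
    have e1 := congrArg (eval x) hb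
    rw [eval_mul, hx.eq_zero, zero_mul] at e0 e1
    simp only [eval_add, eval_mul, eval_C, eval_X] at e0 e1
    -- `β x + γ = 0`, `α x + conj β = 0`
    have e2 : (α : ℂ) * γ = (starRingEnd ℂ) β * β := by
      linear_combination (α : ℂ) * e0 - β * e1
    have e3 : ((α * γ : ℝ) : ℂ) = ((‖β‖ ^ 2 : ℝ) : ℂ) := by
      push_cast
      rw [e2, mul_comm, Complex.mul_conj, Complex.normSq_eq_norm_sq]
      push_cast
      rfl
    have e4 : α * γ = ‖β‖ ^ 2 := by exact_mod_cast e3
    linarith
  have hirr : Irreducible (gcp α γ β) := by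
    rw [hprim.irreducible_iff_irreducible_map_fraction_map (K := FractionRing ℂ[X])]
    apply irreducible_of_degree_eq_one
    have hnd : (gcp α γ β).degree = 1 := by
      unfold gcp
      exact degree_linear (gcp_lead α γ β hβ)
    rw [degree_map_eq_of_injective (IsFractionRing.injective _ _), hnd]
  exact hirr.prime

/-- `z` is on the curve iff the polynomial vanishes at `(z, conj z)` -/
theorem mem_GC_iff (α γ : ℝ) (β z : ℂ) :
    z ∈ GC α γ β ↔ (gcp α γ β).evalEval z ((starRingEnd ℂ) z) = 0 := by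
  rw [gcp_evalEval]
  unfold GC
  have h : (α * z + (starRingEnd ℂ) β) * (starRingEnd ℂ) z + (β * z + γ)
      = ((α * ‖z‖ ^ 2 + 2 * (β * z).re + γ : ℝ) : ℂ) := by
    have h1 : z * (starRingEnd ℂ) z = ((‖z‖ ^ 2 : ℝ) : ℂ) := by
      rw [Complex.mul_conj, Complex.normSq_eq_norm_sq]
    have h2 : β * z + (starRingEnd ℂ) (β * z) = ((2 * (β * z).re : ℝ) : ℂ) := Complex.add_conj _
    rw [map_mul] at h2
    push_cast at h1 h2 ⊢
    linear_combination (α : ℂ) * h1 + h2
  rw [h, Set.mem_ofPred_eq]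
  norm_cast

end Pool.Agent.H43.RH
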