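/-
C2 (Sel2).  Good base points for a line or circle.  Needs Greedy, GCpoly.  About 80 lines.
PROOF.  f(z, w) = (α z + β̄) w + (β z + γ) = (gcp α γ β).evalEval z w.  Remove from D the points with α p + β̄ = 0 (at most
one: if α = 0 there is none as β ≠ 0): D1.card ≥ 2m.  W(p) = -(β p + γ)/(α p + β̄), so f(p, W(p)) = 0, f'(p, W p) = α p + β̄ ≠ 0.
W(p) ≠ conj p because p is not in GC (mem_GC_iff).  Rr p x := x = p ∨ conj x = W(p): at most 2 points x.
greedy with κ = 2: for i < j: p j ≠ p i and conj (p j) ≠ W (p i).  Also conj (p i) ≠ W (p j): conj x = W(p) iff f(p, conj x) = 0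
(α p + β̄ ≠ 0) iff f(x, conj p) = 0 (conjugation: conj f(p, conj x) = f(x, conj p)) iff conj p = W(x).
-/
import Pool.Agent.H43.RH.Greedy
import Pool.Agent.H43.RH.GCpoly

namespace Pool.Agent.H43.RH
open Polynomial Polynomial.Bivariate

theorem sel2 (α γ : ℝ) (β : ℂ) (hβ : α * γ < ‖β‖ ^ 2) (m : ℕ) (D : Finset ℂ)
    (hoff : ∀ p ∈ D, p ∉ GC α γ β) (hD : 2 * m + 1 ≤ D.card) :
    ∃ p w : Fin m → ℂ, (∀ i, p i ∈ D) ∧ GoodPts (gcp α γ β) m p w := by
  classical
  set D1 : Finset ℂ := D.filter (fun p => (α : ℂ) * p + (starRingEnd ℂ) β ≠ 0) with hD1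
  set D0 : Finset ℂ := D.filter (fun p => ¬ ((α : ℂ) * p + (starRingEnd ℂ) β ≠ 0)) with hD0
  have hcard0 : D0.card ≤ 1 := by
    rw [Finset.card_le_one]
    intro a ha b hb
    have ha' : (α : ℂ) * a + (starRingEnd ℂ) β = 0 := by
      have := (Finset.mem_filter.mp ha).2
      simpa using this
    have hb' : (α : ℂ) * b + (starRingEnd ℂ) β = 0 := by
      have := (Finset.mem_filter.mp hb).2
      simpa using this
    have hα : (α : ℂ) ≠ 0 := by
      intro h0
      have hα0 : α = 0 := by exact_mod_cast h0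
      have hβ0 : (starRingEnd ℂ) β = 0 := by
        rw [h0] at ha'
        simpa using ha'
      have hβ1 : β = 0 := by
        have := congrArg (starRingEnd ℂ) hβ0
        simpa using this
      rw [hα0, hβ1] at hβ
      simp at hβ
    have h1 : (α : ℂ) * a = (α : ℂ) * b := by
      linear_combination ha' - hb'
    exact mul_left_cancel₀ hα h1
  have hcards : D1.card + D0.card = D.card := by
    rw [hD1, hD0]
    exact Finset.card_filter_add_card_filter_not _
  have hcard1 : m * 2 ≤ D1.card := by omega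
  set W : ℂ → ℂ := fun p => -(β * p + γ) / ((α : ℂ) * p + (starRingEnd ℂ) β) with hW
  have hWz : ∀ p ∈ D1, (gcp α γ β).evalEval p (W p) = 0 := by
    intro p hp
    have hne : (α : ℂ) * p + (starRingEnd ℂ) β ≠ 0 := (Finset.mem_filter.mp hp).2
    rw [gcp_evalEval]
    simp only [hW]
    field_simp
    ring
  have hWu : ∀ p ∈ D1, ∀ x : ℂ, (gcp α γ β).evalEval p x = 0 → x = W p := by
    intro p hp x hx
    have hne : (α : ℂ) * p + (starRingEnd ℂ) β ≠ 0 := (Finset.mem_filter.mp hp).2
    rw [gcp_evalEval] at hx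
    simp only [hW]
    rw [eq_div_iff hne]
    linear_combination hx
  have hconj : ∀ a b : ℂ, (gcp α γ β).evalEval a ((starRingEnd ℂ) b) = 0 →
      (gcp α γ β).evalEval b ((starRingEnd ℂ) a) = 0 := by
    intro a b hab
    rw [gcp_evalEval] at hab ⊢
    have h := congrArg (starRingEnd ℂ) hab
    simp only [map_add, map_mul, map_zero, Complex.conj_conj, Complex.conj_ofReal] at h
    linear_combination h
  obtain ⟨p, hpD, hp⟩ := greedy (fun p x => x = p ∨ (starRingEnd ℂ) x = W p) 2 (by norm_num) m D1
    (by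
      intro p hp D' hD' hR
      have hsub : D' ⊆ {p, (starRingEnd ℂ) (W p)} := by
        intro x hx
        rcases hR x hx with h | h
        · simp [h]
        · have : x = (starRingEnd ℂ) (W p) := by
            rw [← h, Complex.conj_conj]
          simp [this]
      exact (Finset.card_le_card hsub).trans (Finset.card_le_two))
    hcard1
  refine ⟨p, fun i => W (p i), fun i => (Finset.mem_filter.mp (hpD i)).1, ?_, ?_, ?_, ?_⟩
  · intro i j hij
    rcases lt_trichotomy i j with h | h | h
    · exact absurd (Or.inl hij.symm) (hp i j h)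
    · exact h
    · exact absurd (Or.inl hij) (hp j i h)
  · intro i
    exact hWz _ (hpD i)
  · intro i
    rw [gcp_derivative_evalEval]
    exact (Finset.mem_filter.mp (hpD i)).2
  · intro i j hw
    rcases lt_trichotomy i j with h | h | h
    · exact hp i j h (Or.inr hw.symm)
    · subst h
      have h0 := hWz _ (hpD i)
      rw [hw] at h0
      exact hoff _ (Finset.mem_filter.mp (hpD i)).1 ((mem_GC_iff α γ β (p i)).mpr h0)
    · have h0 := hWz _ (hpD i)
      rw [hw] at h0
      have h1 := hconj _ _ h0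
      have h2 := hWu _ (hpD j) _ h1
      exact hp j i h (Or.inr h2)

end Pool.Agent.H43.RH
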