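/-
L3 (LocAll).  Phase 1, local part.  Needs LocF, LocF2, Fac, LCpoly, Sel2.  About 80 lines.
PROOF.  Choose real γ with 2 Re p + γ ≠ 0 for all p in D (D finite): then no p in D is in GC 0 γ 1 and 0 * γ < |1|².
sel2 (2m + 1 ≤ NN m δ ≤ |D|) gives p, w with GoodPts (gcp 0 γ 1) m p w, p i in D.  hRel gives a ≠ 0 with the relation on S.
norm_poly gives N, G = aeval (qq (p i) (conj (p i))) N of degrees ≤ m 2^m ≤ δ (g_deg).  alg with F = gcp 0 γ 1 (gcp_prime):
F ∤ G, so G ≠ 0.  fac: a list L of at most 2δ primes.  For P in S: G(P, conj P) = 0 (g_van), so some F in L vanishes at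
(P, conj P): S is contained in the union over F in L of S_F = {P in S : F(P, conj P) = 0}.  For F in L: natDegree F ≥ 2: locF;
natDegree (swap F) ≥ 2: locF2; both ≤ 1: lcpoly gives α, γ, β with S_F in GC α γ β, card ≤ M by hM.
In all cases S_F.card ≤ M + (2δ² + 2δ).  Sum over the list (induction on L or Finset.card_biUnion_le over L.toFinset).
-/
import Pool.Agent.H43.RH.LocF2
import Pool.Agent.H43.RH.Fac
import Pool.Agent.H43.RH.LCpoly
import Pool.Agent.H43.RH.Sel2

namespace Pool.Agent.H43.RH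
open Polynomial Polynomial.Bivariate

private theorem locAll_list {β : Type} (L : List β) (S : Finset ℂ) (Q : β → ℂ → Prop) (c : ℕ)
    (hcov : ∀ P ∈ S, ∃ F ∈ L, Q F P)
    (hc : ∀ F ∈ L, ∀ S' : Finset ℂ, S' ⊆ S → (∀ P ∈ S', Q F P) → S'.card ≤ c) :
    S.card ≤ L.length * c := by
  classical
  induction L generalizing S with
  | nil =>
    have : S = ∅ := by
      rw [Finset.eq_empty_iff_forall_notMem]
      intro P hP
      obtain ⟨F, hF, -⟩ := hcov P hP
      simp at hF
    simp [this]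
  | cons F L ih =>
    have h1 : (S.filter fun P => Q F P).card ≤ c :=
      hc F (by simp) _ (Finset.filter_subset _ _) (fun P hP => (Finset.mem_filter.mp hP).2)
    have h2 : (S.filter fun P => ¬ Q F P).card ≤ L.length * c := by
      apply ih
      · intro P hP
        rw [Finset.mem_filter] at hP
        obtain ⟨F', hF', hQ⟩ := hcov P hP.1
        rcases List.mem_cons.mp hF' with h | h
        · subst h
          exact absurd hQ hP.2
        · exact ⟨F', h, hQ⟩
      · intro F' hF' S' hS' hQ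
        exact hc F' (by simp [hF']) S' (hS'.trans (Finset.filter_subset _ _)) hQ
    have h3 := Finset.card_filter_add_card_filter_not (s := S) (fun P => Q F P)
    rw [List.length_cons, add_mul, one_mul]
    omega

theorem locAll (S D : Finset ℂ) (m δ M : ℕ) (hm : 1 ≤ m) (hδ : m * 2 ^ m ≤ δ) (hRel : RelP S D m)
    (hD : NN m δ ≤ D.card)
    (hM : ∀ α γ : ℝ, ∀ β : ℂ, α * γ < ‖β‖ ^ 2 → ∀ S' ⊆ S, (∀ P ∈ S', P ∈ GC α γ β) → S'.card ≤ M) :
    S.card ≤ 2 * δ * (M + (2 * δ ^ 2 + 2 * δ)) := by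
  classical
  obtain ⟨γ, hγ⟩ : ∃ γ : ℝ, ∀ p ∈ D, 2 * p.re + γ ≠ 0 := by
    obtain ⟨γ, hγ⟩ := (D.image fun p : ℂ => -(2 * p.re)).exists_notMem
    refine ⟨γ, fun p hp h => hγ ?_⟩
    rw [Finset.mem_image]
    exact ⟨p, hp, by linarith⟩
  have hβ : (0 : ℝ) * γ < ‖(1 : ℂ)‖ ^ 2 := by simp
  have hoff : ∀ p ∈ D, p ∉ GC 0 γ 1 := by
    intro p hp h
    apply hγ p hp
    have h' : (0 : ℝ) * ‖p‖ ^ 2 + 2 * ((1 : ℂ) * p).re + γ = 0 := h
    simpa using h'
  have hδ1 : 1 ≤ δ := by
    have : 1 ≤ 2 ^ m := Nat.one_le_two_pow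
    nlinarith
  have hNN : 2 * m + 1 ≤ NN m δ := by
    unfold NN
    nlinarith
  obtain ⟨p, w, hp, hg⟩ := sel2 0 γ 1 hβ m D hoff (hNN.trans hD)
  obtain ⟨a, ha, hrel⟩ := hRel p hg.inj hp
  obtain ⟨N, hNd, hNi⟩ := norm_poly m (fun I => (a I : ℂ))
  have ha' : (fun I => (a I : ℂ)) ≠ 0 := by
    intro h
    apply ha
    funext I
    have := congrFun h I
    simpa using this
  set G : ℂ[X][Y] := MvPolynomial.aeval (fun i => qq (p i) ((starRingEnd ℂ) (p i))) N with hG
  have hGd := g_deg m (2 ^ m) N hNd p (fun i => (starRingEnd ℂ) (p i))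
  have hG0 : G ≠ 0 := by
    intro h
    have := alg (gcp 0 γ 1) (gcp_prime 0 γ 1 hβ) m p w hg _ ha' N hNi
    apply this
    rw [← hG, h]
    exact dvd_zero _
  obtain ⟨L, hL, hLF, hLz⟩ := fac G hG0 δ (hGd.1.trans hδ) (hGd.2.trans hδ)
  have hkey : S.card ≤ L.length * (M + (2 * δ ^ 2 + 2 * δ)) := by
    apply locAll_list L S (fun F P => F.evalEval P ((starRingEnd ℂ) P) = 0)
    · intro P hP
      exact hLz P _ (g_van m a N hNi p P (hrel P hP))
    · intro F hF S' hS' hz
      obtain ⟨hFp, hFX, hFY⟩ := hLF F hF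
      by_cases h2 : 2 ≤ F.natDegree
      · have := locF S D m δ hδ hRel F hFp h2 hFX hFY hD S' hS' hz
        omega
      · by_cases h3 : 2 ≤ (swap F).natDegree
        · have := locF2 S D m δ hδ hRel F hFp h3 hFX hFY hD S' hS' hz
          omega
        · obtain ⟨α, γ', β, hab, hGC⟩ := lcpoly F hFp.ne_zero (by omega) (by omega)
          have := hM α γ' β hab S' hS' (fun P hP => hGC P (hz P hP))
          omega
  exact hkey.trans (Nat.mul_le_mul_right _ hL)

end Pool.Agent.H43.RH
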