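/-
K2 (Core1).  Phase 1.  Needs Cov, Loc, LocAll.  About 80 lines.
PROOF.  As Core2 with X = T, E ⊆ T of cardinality NN m δ + 1 (Finset.exists_subset_card_eq), k = NN m δ,
b = 2δ (M + 2δ² + 2δ), lam = 1/Λ², R = 2Λ.  hb: locAll with S = T.filter (‖P - Q‖ ≤ r) and D; RelP S D m: loc with τ = 2^μ,
h = 2^(2μ), 2^m = 2h, hdim: finrank of a span of τ² = h vectors is ≤ h (finrank_range_le_card), hnum as given.
-/
import Pool.Agent.H43.RH.Cov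
import Pool.Agent.H43.RH.Loc
import Pool.Agent.H43.RH.LocAll

namespace Pool.Agent.H43.RH

private theorem core1_sep (T : Finset ℂ) (c : ℂ → ℕ) (Λ : ℝ) (hC : Cfg T c Λ) (P Q : ℂ) (hP : P ∈ T)
    (hQ : Q ∈ T) (hne : P ≠ Q) : 1 / Λ ^ 2 ≤ ‖P - Q‖ := by
  obtain ⟨n, hn⟩ := hC.int P hP Q hQ
  have hΛ : (0 : ℝ) < Λ := lt_of_lt_of_le (by norm_num) hC.two
  have hpos : 0 < ‖P - Q‖ := norm_pos_iff.mpr (sub_ne_zero.mpr hne)
  have h1 : (1 : ℝ) ≤ c P := by exact_mod_cast hC.one P hP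
  have h2 : (1 : ℝ) ≤ c Q := by exact_mod_cast hC.one Q hQ
  have h3 : (0 : ℝ) < (n : ℝ) := by
    rw [← hn]
    have h4 : (0 : ℝ) < c P := by linarith
    have h5 : (0 : ℝ) < c Q := by linarith
    positivity
  have h4 : (1 : ℝ) ≤ (n : ℝ) := by
    have h5 : 0 < n := by exact_mod_cast h3
    exact_mod_cast h5
  have h5 : (c P : ℝ) * c Q ≤ Λ * Λ :=
    mul_le_mul (hC.le P hP) (hC.le Q hQ) (by linarith) hΛ.le
  rw [div_le_iff₀ (by positivity)]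
  calc (1 : ℝ) ≤ n := h4
    _ = (c P : ℝ) * c Q * ‖P - Q‖ := hn.symm
    _ ≤ Λ * Λ * ‖P - Q‖ := mul_le_mul_of_nonneg_right h5 hpos.le
    _ = ‖P - Q‖ * Λ ^ 2 := by ring

theorem core1 (T : Finset ℂ) (c : ℂ → ℕ) (Λ : ℝ) (hC : Cfg T c Λ) (μ m δ M : ℕ) (hμ : 1 ≤ μ)
    (hm : m = 2 * μ + 1) (hδ : δ = m * 2 ^ m) (θ : ℝ) (hθ : 0 < θ) (hθ1 : θ ≤ 1 / 4)
    (hnum : 512 * (64 * Λ ^ 6) ^ m * (2 * θ) ^ (2 ^ μ) < 1)
    (hM : ∀ α γ : ℝ, ∀ β : ℂ, α * γ < ‖β‖ ^ 2 → ∀ S' ⊆ T, (∀ P ∈ S', P ∈ GC α γ β) → S'.card ≤ M)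
    (hT : NN m δ + 1 ≤ T.card) :
    (T.card : ℝ) ≤ (2 * δ * (M + (2 * δ ^ 2 + 2 * δ)))
      * ((NN m δ + 1 : ℕ) * (100 / θ ^ 2) * (Real.logb 2 (2 * Λ ^ 3) + 1)) := by
  have hΛ : (0 : ℝ) < Λ := lt_of_lt_of_le (by norm_num) hC.two
  have hΛ2 := hC.two
  have hlam : (0 : ℝ) < 1 / Λ ^ 2 := by positivity
  have hlR : 1 / Λ ^ 2 ≤ 2 * Λ := by
    have h1 : (1 : ℝ) ≤ Λ ^ 2 := by nlinarith
    have h2 : 1 / Λ ^ 2 ≤ 1 := by
      rw [div_le_one (by positivity)]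
      exact h1
    linarith
  obtain ⟨E, hE, hEc⟩ := Finset.exists_subset_card_eq hT
  have hR : ∀ P ∈ T, ∀ e ∈ E, ‖P - e‖ ≤ 2 * Λ := by
    intro P hP e he
    have h1 := hC.norm P hP
    have h2 := hC.norm e (hE he)
    have h3 := norm_sub_le P e
    linarith
  have hsep : ∀ P ∈ T, ∀ e ∈ E, P ≠ e → 1 / Λ ^ 2 ≤ ‖P - e‖ := fun P hP e he hne =>
    core1_sep T c Λ hC P e hP (hE he) hne
  have hpow : 2 ^ m = 2 * 2 ^ (2 * μ) := by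
    rw [hm, pow_succ, mul_comm]
  have hb : ∀ Q ∈ T, ∀ r : ℝ, 0 < r → ∀ D ⊆ E, NN m δ ≤ D.card → (∀ e ∈ D, r / θ ≤ ‖Q - e‖) →
      (T.filter (fun P => ‖P - Q‖ ≤ r)).card ≤ 2 * δ * (M + (2 * δ ^ 2 + 2 * δ)) := by
    intro Q hQ r hr D hD hDc hfar
    refine locAll (T.filter (fun P => ‖P - Q‖ ≤ r)) D m δ M (by omega) hδ.ge ?_ hDc ?_
    · intro p _ hpD
      refine loc T c Λ hC m (2 ^ μ) (2 ^ (2 * μ)) θ r hpow hθ hθ1 hr Q hQ p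
        (fun i => hE (hD (hpD i))) (fun i => hfar (p i) (hpD i)) (T.filter (fun P => ‖P - Q‖ ≤ r)) ?_ ?_ hnum
      · intro P hP
        rw [Finset.mem_filter] at hP
        exact hP
      · intro P _
        refine le_trans (finrank_range_le_card _) ?_
        rw [Fintype.card_prod, Fintype.card_fin, ← pow_add]
        apply le_of_eq
        congr 1
        ring
    · intro α γ β hαβ S' hS' hSΓ
      exact hM α γ β hαβ S' (hS'.trans (Finset.filter_subset _ _)) hSΓ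
  have hNN : 1 ≤ NN m δ := by
    unfold NN
    omega
  have hmain := cov T E (1 / Λ ^ 2) (2 * Λ) θ (NN m δ) (2 * δ * (M + (2 * δ ^ 2 + 2 * δ))) (le_of_eq hEc.symm) hNN
    hlam hlR hθ (by linarith) hR hsep hb
  have hrat : 2 * Λ / (1 / Λ ^ 2) = 2 * Λ ^ 3 := by
    field_simp
  rw [hrat, hEc] at hmain
  push_cast at hmain ⊢
  exact hmain

end Pool.Agent.H43.RH
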