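/-
V1 (Cov).  Whitney type covering.  MATHLIB ONLY, about 150 lines.
PROOF.  For P in X let e(P) be a point of E different from P and nearest to P (E.erase P is nonempty as k + 1 ≤ |E|,
Finset.exists_min_image), ρ(P) = |P - e(P)| in [lam, R].  j(P) = ⌊logb 2 (ρ/lam)⌋₊, so 2^j lam ≤ ρ < 2^(j+1) lam and
j ≤ logb 2 (R/lam).  s_j = θ 2^j lam / 2.  Attach to P the tuple (e(P), j(P), ⌊Re (P - e)/s_j⌋, ⌊Im (P - e)/s_j⌋).
As |Re (P - e)| ≤ ρ < 4 s_j/θ the two integers lie strictly between -4/θ - 1 and 4/θ: at most 8/θ + 2 ≤ 10/θ values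
each.  So the image has at most |E| * (logb 2 (R/lam) + 1) * (100/θ²) elements (the real bounds: count of naturals
j ≤ t is ≤ t + 1 for t ≥ 0).  Each fibre has ≤ b elements: take Q in the fibre, r = θ 2^j lam > 0, D = E.erase Q:
k ≤ |D|, every e in D has |Q - e| ≥ ρ(Q) ≥ 2^j lam = r/θ; every P in the fibre has |Re (P-Q)| < s_j, |Im (P-Q)| < s_j,
so |P - Q| < √2 s_j ≤ r.  So the fibre is contained in X.filter (‖P - Q‖ ≤ r), card ≤ b by hb.
Finset.card_le_mul_card_image gives |X| ≤ b |image|.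
-/
import Pool.Agent.H43.RH.Defs

namespace Pool.Agent.H43.RH

theorem cov (X E : Finset ℂ) (lam R θ : ℝ) (k b : ℕ) (hE : k + 1 ≤ E.card) (hk : 1 ≤ k)
    (hlam : 0 < lam) (hlR : lam ≤ R) (hθ : 0 < θ) (hθ1 : θ ≤ 1)
    (hR : ∀ P ∈ X, ∀ e ∈ E, ‖P - e‖ ≤ R) (hsep : ∀ P ∈ X, ∀ e ∈ E, P ≠ e → lam ≤ ‖P - e‖)
    (hb : ∀ Q ∈ X, ∀ r : ℝ, 0 < r → ∀ D ⊆ E, k ≤ D.card → (∀ e ∈ D, r / θ ≤ ‖Q - e‖) →
      (X.filter (fun P => ‖P - Q‖ ≤ r)).card ≤ b) :
    (X.card : ℝ) ≤ b * (E.card * (100 / θ ^ 2) * (Real.logb 2 (R / lam) + 1)) := by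
  classical
  have hne : ∀ P : ℂ, (E.erase P).Nonempty := by
    intro P
    rw [← Finset.card_pos]
    have h1 := Finset.pred_card_le_card_erase (s := E) (a := P)
    omega
  have hex : ∀ P : ℂ, ∃ e ∈ E.erase P, ∀ e' ∈ E.erase P, ‖P - e‖ ≤ ‖P - e'‖ := fun P =>
    Finset.exists_min_image (E.erase P) (fun e => ‖P - e‖) (hne P)
  choose e he hmin using hex
  have heE : ∀ P, e P ∈ E := fun P => Finset.mem_of_mem_erase (he P)
  have hene : ∀ P, e P ≠ P := fun P => Finset.ne_of_mem_erase (he P)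
  obtain ⟨u, hu⟩ : ∃ u : ℂ → ℝ, ∀ P, u P = Real.logb 2 (‖P - e P‖ / lam) := ⟨_, fun _ => rfl⟩
  obtain ⟨j, hj⟩ : ∃ j : ℂ → ℕ, ∀ P, j P = ⌊u P⌋₊ := ⟨_, fun _ => rfl⟩
  obtain ⟨s, hs⟩ : ∃ s : ℕ → ℝ, ∀ n, s n = θ * 2 ^ n * lam / 2 := ⟨_, fun _ => rfl⟩
  have hspos : ∀ n, 0 < s n := by
    intro n
    rw [hs]
    positivity
  obtain ⟨f, hf⟩ : ∃ f : ℂ → ℂ × ℕ × ℤ × ℤ, ∀ P, f P = (e P, j P, ⌊(P - e P).re / s (j P)⌋, ⌊(P - e P).im / s (j P)⌋) :=
    ⟨_, fun _ => rfl⟩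
  have hlow : ∀ P ∈ X, lam ≤ ‖P - e P‖ := fun P hP => hsep P hP (e P) (heE P) (fun h => hene P h.symm)
  have hupp : ∀ P ∈ X, ‖P - e P‖ ≤ R := fun P hP => hR P hP (e P) (heE P)
  have hu0 : ∀ P ∈ X, 0 ≤ u P := by
    intro P hP
    rw [hu]
    apply Real.logb_nonneg (by norm_num)
    rw [le_div_iff₀ hlam, one_mul]
    exact hlow P hP
  have hratpos : ∀ P ∈ X, 0 < ‖P - e P‖ / lam := fun P hP => div_pos (lt_of_lt_of_le hlam (hlow P hP)) hlam
  have hjl : ∀ P ∈ X, 2 ^ (j P) * lam ≤ ‖P - e P‖ := by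
    intro P hP
    have h1 : ((j P : ℕ) : ℝ) ≤ Real.logb 2 (‖P - e P‖ / lam) := by
      rw [← hu, hj]
      exact Nat.floor_le (hu0 P hP)
    rw [Real.le_logb_iff_rpow_le (by norm_num) (hratpos P hP), Real.rpow_natCast] at h1
    rwa [le_div_iff₀ hlam] at h1
  have hju : ∀ P ∈ X, ‖P - e P‖ < 2 ^ (j P + 1) * lam := by
    intro P hP
    have h1 : Real.logb 2 (‖P - e P‖ / lam) < ((j P + 1 : ℕ) : ℝ) := by
      rw [← hu, hj]
      push_cast
      exact Nat.lt_floor_add_one _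
    rw [Real.logb_lt_iff_lt_rpow (by norm_num) (hratpos P hP), Real.rpow_natCast] at h1
    rwa [div_lt_iff₀ hlam] at h1
  have hjJ : ∀ P ∈ X, j P ≤ ⌊Real.logb 2 (R / lam)⌋₊ := by
    intro P hP
    rw [hj, hu]
    apply Nat.floor_le_floor
    apply Real.logb_le_logb_of_le (by norm_num) (hratpos P hP)
    exact div_le_div_of_nonneg_right (hupp P hP) hlam.le
  have hflo : ∀ (x : ℝ) (P : ℂ), P ∈ X → |x| ≤ ‖P - e P‖ →
      ⌊x / s (j P)⌋ ∈ Finset.Icc (-⌊4 / θ⌋ - 1) ⌊4 / θ⌋ := by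
    intro x P hP hx
    have h1 : |x / s (j P)| < 4 / θ := by
      rw [abs_div, abs_of_pos (hspos _), div_lt_iff₀ (hspos _), hs]
      have h2 := hju P hP
      have h3 : 4 / θ * (θ * 2 ^ j P * lam / 2) = 2 ^ (j P + 1) * lam := by
        field_simp
        ring
      rw [h3]
      exact lt_of_le_of_lt hx h2
    rw [abs_lt] at h1
    rw [Finset.mem_Icc]
    constructor
    · have h4 : (-⌊4 / θ⌋ - 1 : ℤ) ≤ ⌊x / s (j P)⌋ := by
        rw [Int.le_floor]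
        have h5 : (((-⌊4 / θ⌋ - 1 : ℤ)) : ℝ) = -(⌊4 / θ⌋ : ℝ) - 1 := by push_cast; ring
        rw [h5]
        have h6 := Int.lt_floor_add_one (4 / θ)
        linarith [h1.1]
      exact h4
    · exact Int.floor_le_floor h1.2.le
  have himg : X.image f ⊆ E ×ˢ (Finset.range (⌊Real.logb 2 (R / lam)⌋₊ + 1) ×ˢ
      (Finset.Icc (-⌊4 / θ⌋ - 1) ⌊4 / θ⌋ ×ˢ Finset.Icc (-⌊4 / θ⌋ - 1) ⌊4 / θ⌋)) := by
    intro y hy
    rw [Finset.mem_image] at hy
    obtain ⟨P, hP, rfl⟩ := hy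
    rw [hf, Finset.mem_product, Finset.mem_product, Finset.mem_product]
    refine ⟨heE P, ?_, hflo _ P hP (Complex.abs_re_le_norm _), hflo _ P hP (Complex.abs_im_le_norm _)⟩
    rw [Finset.mem_range]
    exact Nat.lt_succ_of_le (hjJ P hP)
  have hfib : ∀ a ∈ X.image f, (X.filter (fun x => f x = a)).card ≤ b := by
    intro a ha
    rw [Finset.mem_image] at ha
    obtain ⟨Q, hQ, rfl⟩ := ha
    have hr : 0 < θ * 2 ^ (j Q) * lam := by positivity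
    refine le_trans (Finset.card_le_card ?_) (hb Q hQ (θ * 2 ^ (j Q) * lam) hr (E.erase Q) (Finset.erase_subset _ _) ?_ ?_)
    · intro P hP
      rw [Finset.mem_filter] at hP ⊢
      refine ⟨hP.1, ?_⟩
      have h1 := hP.2
      rw [hf, hf, Prod.mk.injEq, Prod.mk.injEq, Prod.mk.injEq] at h1
      obtain ⟨h2, h3, h4, h5⟩ := h1
      rw [h2, h3] at h4 h5
      have h6 := Int.abs_sub_lt_one_of_floor_eq_floor h4
      have h7 := Int.abs_sub_lt_one_of_floor_eq_floor h5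
      rw [← sub_div, abs_div, abs_of_pos (hspos _), div_lt_one (hspos _)] at h6 h7
      have h8 : (P - e Q).re - (Q - e Q).re = (P - Q).re := by
        simp [Complex.sub_re]
      have h9 : (P - e Q).im - (Q - e Q).im = (P - Q).im := by
        simp [Complex.sub_im]
      rw [h8] at h6
      rw [h9] at h7
      have h10 := Complex.norm_le_abs_re_add_abs_im (P - Q)
      have h11 : s (j Q) + s (j Q) = θ * 2 ^ (j Q) * lam := by
        rw [hs]; ring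
      linarith
    · have h1 := Finset.pred_card_le_card_erase (s := E) (a := Q)
      omega
    · intro e' he'
      have h1 : θ * 2 ^ (j Q) * lam / θ = 2 ^ (j Q) * lam := by
        field_simp
      rw [h1]
      exact le_trans (hjl Q hQ) (hmin Q e' he')
  have hcard := Finset.card_le_mul_card_image X b hfib
  have hcard2 := Finset.card_le_card himg
  rw [Finset.card_product, Finset.card_product, Finset.card_product, Finset.card_range, Int.card_Icc] at hcard2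
  have hlog0 : 0 ≤ Real.logb 2 (R / lam) := by
    apply Real.logb_nonneg (by norm_num)
    rwa [le_div_iff₀ hlam, one_mul]
  have hfl0 : 0 ≤ ⌊4 / θ⌋ := Int.floor_nonneg.mpr (by positivity)
  have hK : (((⌊4 / θ⌋ + 1 - (-⌊4 / θ⌋ - 1)).toNat : ℕ) : ℝ) ≤ 10 / θ := by
    have h1 : (((⌊4 / θ⌋ + 1 - (-⌊4 / θ⌋ - 1)).toNat : ℕ) : ℤ) = 2 * ⌊4 / θ⌋ + 2 := by
      rw [Int.toNat_of_nonneg (by omega)]
      ring
    have h2 : (((⌊4 / θ⌋ + 1 - (-⌊4 / θ⌋ - 1)).toNat : ℕ) : ℝ) = 2 * (⌊4 / θ⌋ : ℝ) + 2 := by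
      have h3 : ((((⌊4 / θ⌋ + 1 - (-⌊4 / θ⌋ - 1)).toNat : ℕ) : ℤ) : ℝ) = ((2 * ⌊4 / θ⌋ + 2 : ℤ) : ℝ) := by rw [h1]
      push_cast at h3 ⊢
      exact h3
    rw [h2]
    have h4 := Int.floor_le (4 / θ)
    have h5 : 1 ≤ 1 / θ := by rwa [le_div_iff₀ hθ, one_mul]
    have h6 : (4 : ℝ) / θ = 4 * (1 / θ) := by ring
    have h7 : (10 : ℝ) / θ = 10 * (1 / θ) := by ring
    rw [h7]
    rw [h6] at h4 ⊢
    linarith
  have hJ : (((⌊Real.logb 2 (R / lam)⌋₊ + 1 : ℕ)) : ℝ) ≤ Real.logb 2 (R / lam) + 1 := by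
    push_cast
    linarith [Nat.floor_le hlog0]
  have hfin : ((X.image f).card : ℝ) ≤ E.card * (100 / θ ^ 2) * (Real.logb 2 (R / lam) + 1) := by
    have h1 : ((X.image f).card : ℝ) ≤ ((E.card * ((⌊Real.logb 2 (R / lam)⌋₊ + 1) *
        ((⌊4 / θ⌋ + 1 - (-⌊4 / θ⌋ - 1)).toNat * (⌊4 / θ⌋ + 1 - (-⌊4 / θ⌋ - 1)).toNat)) : ℕ) : ℝ) := by
      exact_mod_cast hcard2
    refine le_trans h1 ?_
    rw [Nat.cast_mul, Nat.cast_mul, Nat.cast_mul]
    have h2 : (E.card : ℝ) * (100 / θ ^ 2) * (Real.logb 2 (R / lam) + 1)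
        = (E.card : ℝ) * ((Real.logb 2 (R / lam) + 1) * (10 / θ * (10 / θ))) := by
      field_simp
      ring
    rw [h2]
    refine mul_le_mul_of_nonneg_left ?_ (Nat.cast_nonneg _)
    refine mul_le_mul hJ ?_ (by positivity) (by linarith)
    exact mul_le_mul hK hK (Nat.cast_nonneg _) (by positivity)
  calc (X.card : ℝ) ≤ ((b * (X.image f).card : ℕ) : ℝ) := by exact_mod_cast hcard
    _ = (b : ℝ) * ((X.image f).card : ℝ) := by push_cast; ring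
    _ ≤ b * (E.card * (100 / θ ^ 2) * (Real.logb 2 (R / lam) + 1)) :=
        mul_le_mul_of_nonneg_left hfin (Nat.cast_nonneg _)

end Pool.Agent.H43.RH
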