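/-
D5 (DimLC).  On a line or circle the functions v^s conj(v)^t (s, t < τ) span a space of dimension ≤ 2τ.
MATHLIB ONLY, about 80 lines.
PROOF.  For P in GC α γ β put v = P - Q.  From the two equations: α v v̄ + b v + b̄ v̄ = 0 with b = α Q̄ + β.
|b|² = |β|² - αγ > 0 (expand, use the equation of Q), so b ≠ 0.  (α v + b̄) v̄ = - b v, and α v + b̄ ≠ 0
(otherwise b v = 0, v = 0, b̄ = 0).  So v̄ = - b v u with u = 1/(α v + b̄), and
v^s v̄^t = (-b)^t v^(s+t) u^t = u^τ * f(v), f = (-b)^t X^(s+t) (α X + b̄)^(τ-t), degree ≤ s + τ < 2τ.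
So the span is contained in the range of the linear map Polynomial.degreeLT ℂ (2τ) → (ι → ℂ), f ↦ (u_i^τ f(v_i))_i,
whose finrank is ≤ 2τ (LinearMap.finrank_range_le, finrank of degreeLT = 2τ through degreeLTEquiv).
-/
import Pool.Agent.H43.RH.Defs

namespace Pool.Agent.H43.RH

open Polynomial in
private theorem dimlc_finrank (n : ℕ) : Module.Finite ℂ (degreeLT ℂ n) ∧
    Module.finrank ℂ (degreeLT ℂ n) = n := by
  refine ⟨Module.Finite.equiv (degreeLTEquiv ℂ n).symm, ?_⟩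
  rw [(degreeLTEquiv ℂ n).finrank_eq, Module.finrank_fin_fun]

/-- the complex form of the equation -/
private theorem dimlc_eq {α γ : ℝ} {β z : ℂ} (hz : z ∈ GC α γ β) :
    (α : ℂ) * (z * (starRingEnd ℂ) z) + β * z + (starRingEnd ℂ) β * (starRingEnd ℂ) z + γ = 0 := by
  have h1 : α * ‖z‖ ^ 2 + 2 * (β * z).re + γ = 0 := hz
  have h2 : z * (starRingEnd ℂ) z = ((‖z‖ ^ 2 : ℝ) : ℂ) := by
    rw [Complex.mul_conj, Complex.normSq_eq_norm_sq]
  have h3 : β * z + (starRingEnd ℂ) β * (starRingEnd ℂ) z = ((2 * (β * z).re : ℝ) : ℂ) := by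
    rw [← map_mul, Complex.add_conj]
  have h4 : (α : ℂ) * (z * (starRingEnd ℂ) z) + β * z + (starRingEnd ℂ) β * (starRingEnd ℂ) z + γ =
      (α : ℂ) * (z * (starRingEnd ℂ) z) + (β * z + (starRingEnd ℂ) β * (starRingEnd ℂ) z) + γ := by
    ring
  rw [h4, h2, h3]
  exact_mod_cast congrArg (fun x : ℝ => (x : ℂ)) h1

open Polynomial in
theorem dim_lc {ι : Type} [Fintype ι] (α γ : ℝ) (β Q : ℂ) (hβ : α * γ < ‖β‖ ^ 2)
    (hQ : Q ∈ GC α γ β) (P : ι → ℂ) (hP : ∀ i, P i ∈ GC α γ β) (τ : ℕ) :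
    Module.finrank ℂ (Submodule.span ℂ (Set.range (fun st : Fin τ × Fin τ =>
      fun i : ι => (P i - Q) ^ (st.1 : ℕ) * ((starRingEnd ℂ) (P i - Q)) ^ (st.2 : ℕ)))) ≤ 2 * τ := by
  obtain ⟨b, hb⟩ : ∃ b : ℂ, b = α * (starRingEnd ℂ) Q + β := ⟨_, rfl⟩
  have hbc : (starRingEnd ℂ) b = α * Q + (starRingEnd ℂ) β := by
    rw [hb, map_add, map_mul, Complex.conj_conj, Complex.conj_ofReal]
  have hQe := dimlc_eq hQ
  have hb0 : b ≠ 0 := by
    intro h0
    have h1 : b * (starRingEnd ℂ) b = 0 := by rw [h0, zero_mul]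
    rw [hbc, hb] at h1
    have h2 : β * (starRingEnd ℂ) β = ((‖β‖ ^ 2 : ℝ) : ℂ) := by
      rw [Complex.mul_conj, Complex.normSq_eq_norm_sq]
    have h3 : ((α * γ : ℝ) : ℂ) = ((‖β‖ ^ 2 : ℝ) : ℂ) := by
      rw [← h2]
      push_cast
      linear_combination α * hQe - h1
    have h4 : α * γ = ‖β‖ ^ 2 := by exact_mod_cast h3
    linarith
  have hv : ∀ i, (α : ℂ) * ((P i - Q) * (starRingEnd ℂ) (P i - Q)) + b * (P i - Q)
      + (starRingEnd ℂ) b * (starRingEnd ℂ) (P i - Q) = 0 := by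
    intro i
    have h1 := dimlc_eq (hP i)
    rw [hbc, hb, map_sub]
    linear_combination h1 - hQe
  have hne : ∀ i, (α : ℂ) * (P i - Q) + (starRingEnd ℂ) b ≠ 0 := by
    intro i h0
    have h1 := hv i
    have h2 : b * (P i - Q) = 0 := by linear_combination h1 - (starRingEnd ℂ) (P i - Q) * h0
    rcases mul_eq_zero.1 h2 with h3 | h3
    · exact hb0 h3
    · rw [h3, mul_zero, zero_add] at h0
      exact hb0 (by simpa using h0)
  have hconj : ∀ i, (starRingEnd ℂ) (P i - Q) =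
      -b * (P i - Q) * ((α : ℂ) * (P i - Q) + (starRingEnd ℂ) b)⁻¹ := by
    intro i
    have h1 := hv i
    have h2 := hne i
    rw [eq_mul_inv_iff_mul_eq₀ h2]
    linear_combination h1
  obtain ⟨Lf, hLf⟩ : ∃ Lf : ℂ[X] →ₗ[ℂ] (ι → ℂ), ∀ f i, Lf f i =
      (((α : ℂ) * (P i - Q) + (starRingEnd ℂ) b)⁻¹) ^ τ * f.eval (P i - Q) := by
    refine ⟨LinearMap.pi fun i => (((α : ℂ) * (P i - Q) + (starRingEnd ℂ) b)⁻¹) ^ τ •
      (Polynomial.leval (P i - Q)), fun f i => ?_⟩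
    rfl
  have hspan : Submodule.span ℂ (Set.range (fun st : Fin τ × Fin τ =>
      fun i : ι => (P i - Q) ^ (st.1 : ℕ) * ((starRingEnd ℂ) (P i - Q)) ^ (st.2 : ℕ))) ≤
      (degreeLT ℂ (2 * τ)).map Lf := by
    rw [Submodule.span_le]
    rintro _ ⟨⟨s, t⟩, rfl⟩
    refine ⟨C ((-b) ^ (t : ℕ)) * X ^ ((s : ℕ) + t) *
      (C (α : ℂ) * X + C ((starRingEnd ℂ) b)) ^ (τ - t), ?_, ?_⟩
    · rw [SetLike.mem_coe, mem_degreeLT]
      have h1 : (C ((-b) ^ (t : ℕ)) * X ^ ((s : ℕ) + t) : ℂ[X]).natDegree ≤ (s : ℕ) + t :=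
        natDegree_C_mul_X_pow_le _ _
      have h2 : ((C (α : ℂ) * X + C ((starRingEnd ℂ) b)) ^ (τ - t) : ℂ[X]).natDegree ≤
          (τ - t) * 1 :=
        natDegree_pow_le_of_le _ natDegree_linear_le
      have h3 := natDegree_mul_le_of_le h1 h2
      refine lt_of_le_of_lt degree_le_natDegree ?_
      have h4 : (s : ℕ) < τ := s.2
      have h5 : (t : ℕ) < τ := t.2
      have h6 : (s : ℕ) + t + (τ - t) * 1 < 2 * τ := by omega
      exact_mod_cast lt_of_le_of_lt h3 h6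
    · funext i
      rw [hLf]
      simp only [eval_mul, eval_C, eval_pow, eval_X, eval_add]
      have h2 := hne i
      have h5 : (t : ℕ) < τ := t.2
      rw [hconj i]
      generalize hw : (α : ℂ) * (P i - Q) + (starRingEnd ℂ) b = w at h2
      have h7 : (w⁻¹) ^ τ = (w⁻¹) ^ (τ - (t : ℕ)) * (w⁻¹) ^ (t : ℕ) := by
        rw [← pow_add, Nat.sub_add_cancel h5.le]
      have h8 : (w⁻¹) ^ (τ - (t : ℕ)) * w ^ (τ - (t : ℕ)) = 1 := by
        rw [← mul_pow, inv_mul_cancel₀ h2, one_pow]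
      rw [h7, mul_pow, mul_pow, pow_add]
      linear_combination (w⁻¹ ^ (t : ℕ) * ((-b) ^ (t : ℕ)) * ((P i - Q) ^ (s : ℕ) *
        (P i - Q) ^ (t : ℕ))) * h8
  obtain ⟨f1, f2⟩ := dimlc_finrank (2 * τ)
  have : Module.Finite ℂ ((degreeLT ℂ (2 * τ)).map Lf) := inferInstance
  calc _ ≤ Module.finrank ℂ ((degreeLT ℂ (2 * τ)).map Lf) := Submodule.finrank_mono hspan
    _ ≤ Module.finrank ℂ (degreeLT ℂ (2 * τ)) := Submodule.finrank_map_le _ _
    _ = 2 * τ := f2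

end Pool.Agent.H43.RH
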