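/-
L4 (Loc2).  Phase 2, local part.  Needs Sel2, Alg, Norm, GDeg, GVan, Zer, GCpoly.  About 50 lines.
PROOF.  sel2 gives p, w; hRel gives a ≠ 0; norm_poly gives N; G = aeval (qq ..) N, degrees ≤ m 2^m ≤ δ; alg: gcp α γ β ∤ G (gcp_prime).
zeros with F = gcp (natDegree 1, swap natDegree ≤ 1), α = 1, α' = δ: card S ≤ 1 * δ + natDegree G * 1 + 1 + δ ≤ 3δ + 1
(F vanishes at (P, conj P) by mem_GC_iff, G by g_van).
-/
import Pool.Agent.H43.RH.Sel2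
import Pool.Agent.H43.RH.Alg
import Pool.Agent.H43.RH.Norm
import Pool.Agent.H43.RH.GDeg
import Pool.Agent.H43.RH.GVan
import Pool.Agent.H43.RH.Zer

namespace Pool.Agent.H43.RH
open Polynomial Polynomial.Bivariate

theorem loc2 (α γ : ℝ) (β : ℂ) (hβ : α * γ < ‖β‖ ^ 2) (S D : Finset ℂ) (m δ : ℕ)
    (hδ : m * 2 ^ m ≤ δ) (hRel : RelP S D m) (hS : ∀ P ∈ S, P ∈ GC α γ β)
    (hoff : ∀ p ∈ D, p ∉ GC α γ β) (hD : 2 * m + 1 ≤ D.card) :
    S.card ≤ 3 * δ + 1 := by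
  obtain ⟨p, w, hpD, hg⟩ := sel2 α γ β hβ m D hoff hD
  obtain ⟨a, ha, hrel⟩ := hRel p hg.inj hpD
  obtain ⟨N, hNdeg, hN⟩ := norm_poly m (fun I => (a I : ℂ))
  have hac : (fun I => (a I : ℂ)) ≠ 0 := by
    intro h0
    apply ha
    funext I
    have h1 := congrFun h0 I
    simpa using h1
  obtain ⟨hG1, hG2⟩ := g_deg m (2 ^ m) N hNdeg p (fun i => (starRingEnd ℂ) (p i))
  have hnd := alg (gcp α γ β) (gcp_prime α γ β hβ) m p w hg (fun I => (a I : ℂ)) hac N hN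
  have hdeg := gcp_natDegree α γ β hβ
  have hz := zeros (gcp α γ β) (MvPolynomial.aeval (fun i => qq (p i) ((starRingEnd ℂ) (p i))) N)
    (gcp_prime α γ β hβ) hdeg.ge hnd 1 δ (gcp_swap α γ β) (hG2.trans hδ) S
    (fun P hP => ⟨(mem_GC_iff α γ β P).1 (hS P hP), g_van m a N hN p P (hrel P hP)⟩)
  rw [hdeg] at hz
  have h2 := hG1.trans hδ
  omega

end Pool.Agent.H43.RH
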