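/-
K1 (Core2).  Phase 2: points on a line or circle.  Needs Cov, Loc, DimLC, Loc2.  About 80 lines.
PROOF.  m = 2μ+1, k = 2m+1, b = 3δ+1, lam = 1/Λ², R = 2Λ, R/lam = 2Λ³.  cov for X, E (|E| = 2m + 2 = k + 1).
hsep: P, e in T, P ≠ e: c P c e |P-e| is a natural number > 0, so ≥ 1, and c P, c e ≤ Λ.  hR: hC.norm.
hb: Q in X, r > 0, D ⊆ E far: loc2 with S = X.filter (‖P - Q‖ ≤ r).  RelP S D m: for p injective with values in D: loc with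
τ = 2^(2μ-1), h = 2^(2μ): 2^m = 2 h; hdim: dim_lc (2 τ = 2^(2μ)) with Q in GC (Q in X); hnum: (2θ)^τ ≤ (2θ)^(2^μ) as
2^μ ≤ 2^(2μ-1) (μ ≥ 1) and 2θ ≤ 1.
-/
import Pool.Agent.H43.RH.Cov
import Pool.Agent.H43.RH.Loc
import Pool.Agent.H43.RH.DimLC
import Pool.Agent.H43.RH.Loc2

namespace Pool.Agent.H43.RH

private theorem core2_sep (T : Finset ℂ) (c : ℂ → ℕ) (Λ : ℝ) (hC : Cfg T c Λ) (P Q : ℂ) (hP : P ∈ T)
    (hQ : Q ∈ T) (hne : P ≠ Q) : 1 / Λ ^ 2 ≤ ‖P - Q‖ := by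
  obtain ⟨n, hn⟩ := hC.int P hP Q hQ
  have hΛ : (0 : ℝ) < Λ := lt_of_lt_of_le (by norm_num) hC.two
  have hpos : 0 < ‖P - Q‖ := norm_pos_iff.mpr (sub_ne_zero.mpr hne)
  have h1 : (1 : ℝ) ≤ c P := by exact_mod_cast hC.one P hP
  have h2 : (1 : ℝ) ≤ c Q := by exact_mod_cast hC.one Q hQ
  have h3 : (0 : ℝ) < (n : ℝ) := by
    rw [← hn]
    have h4 : (0 : ℝ) < c P := by linarith
    have h5 : (0 : ℝ) < c Q := by linarith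
    positivity
  have h4 : (1 : ℝ) ≤ (n : ℝ) := by
    have h5 : 0 < n := by exact_mod_cast h3
    exact_mod_cast h5
  have h5 : (c P : ℝ) * c Q ≤ Λ * Λ :=
    mul_le_mul (hC.le P hP) (hC.le Q hQ) (by linarith) hΛ.le
  rw [div_le_iff₀ (by positivity)]
  calc (1 : ℝ) ≤ n := h4
    _ = (c P : ℝ) * c Q * ‖P - Q‖ := hn.symm
    _ ≤ Λ * Λ * ‖P - Q‖ := mul_le_mul_of_nonneg_right h5 hpos.le
    _ = ‖P - Q‖ * Λ ^ 2 := by ring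

theorem core2 (T : Finset ℂ) (c : ℂ → ℕ) (Λ : ℝ) (hC : Cfg T c Λ) (μ m δ : ℕ) (hμ : 1 ≤ μ)
    (hm : m = 2 * μ + 1) (hδ : δ = m * 2 ^ m) (θ : ℝ) (hθ : 0 < θ) (hθ1 : θ ≤ 1 / 4)
    (hnum : 512 * (64 * Λ ^ 6) ^ m * (2 * θ) ^ (2 ^ μ) < 1)
    (α γ : ℝ) (β : ℂ) (hβ : α * γ < ‖β‖ ^ 2) (X E : Finset ℂ) (hX : X ⊆ T)
    (hXΓ : ∀ P ∈ X, P ∈ GC α γ β) (hE : E ⊆ T) (hEo : ∀ p ∈ E, p ∉ GC α γ β)
    (hEc : E.card = 2 * m + 2) :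
    (X.card : ℝ) ≤ (3 * δ + 1) * ((2 * m + 2) * (100 / θ ^ 2) * (Real.logb 2 (2 * Λ ^ 3) + 1)) := by
  have hΛ : (0 : ℝ) < Λ := lt_of_lt_of_le (by norm_num) hC.two
  have hΛ2 := hC.two
  have hlam : (0 : ℝ) < 1 / Λ ^ 2 := by positivity
  have hlR : 1 / Λ ^ 2 ≤ 2 * Λ := by
    have h1 : (1 : ℝ) ≤ Λ ^ 2 := by nlinarith
    have h2 : 1 / Λ ^ 2 ≤ 1 := by
      rw [div_le_one (by positivity)]
      exact h1
    linarith
  have hR : ∀ P ∈ X, ∀ e ∈ E, ‖P - e‖ ≤ 2 * Λ := by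
    intro P hP e he
    have h1 := hC.norm P (hX hP)
    have h2 := hC.norm e (hE he)
    have h3 := norm_sub_le P e
    linarith
  have hsep : ∀ P ∈ X, ∀ e ∈ E, P ≠ e → 1 / Λ ^ 2 ≤ ‖P - e‖ := fun P hP e he hne =>
    core2_sep T c Λ hC P e (hX hP) (hE he) hne
  have hpow : 2 ^ m = 2 * 2 ^ (2 * μ) := by
    rw [hm, pow_succ, mul_comm]
  have hτ : 2 * 2 ^ (2 * μ - 1) = 2 ^ (2 * μ) := by
    have h1 : 2 * μ = (2 * μ - 1) + 1 := by omega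
    conv_rhs => rw [h1, pow_succ, mul_comm]
  have hnum2 : 512 * (64 * Λ ^ 6) ^ m * (2 * θ) ^ (2 ^ (2 * μ - 1)) < 1 := by
    refine lt_of_le_of_lt ?_ hnum
    refine mul_le_mul_of_nonneg_left ?_ (by positivity)
    apply pow_le_pow_of_le_one (by linarith) (by linarith)
    exact Nat.pow_le_pow_right (by norm_num) (by omega)
  have hb : ∀ Q ∈ X, ∀ r : ℝ, 0 < r → ∀ D ⊆ E, 2 * m + 1 ≤ D.card → (∀ e ∈ D, r / θ ≤ ‖Q - e‖) →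
      (X.filter (fun P => ‖P - Q‖ ≤ r)).card ≤ 3 * δ + 1 := by
    intro Q hQ r hr D hD hDc hfar
    refine loc2 α γ β hβ (X.filter (fun P => ‖P - Q‖ ≤ r)) D m δ hδ.ge ?_ ?_ ?_ hDc
    · intro p _ hpD
      refine loc T c Λ hC m (2 ^ (2 * μ - 1)) (2 ^ (2 * μ)) θ r hpow hθ hθ1 hr Q (hX hQ) p
        (fun i => hE (hD (hpD i))) (fun i => hfar (p i) (hpD i)) (X.filter (fun P => ‖P - Q‖ ≤ r)) ?_ ?_ hnum2
      · intro P hP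
        rw [Finset.mem_filter] at hP
        exact ⟨hX hP.1, hP.2⟩
      · intro P hP
        have h1 := dim_lc α γ β Q hβ (hXΓ Q hQ) P
          (fun I => hXΓ (P I) (Finset.mem_filter.mp (hP I)).1) (2 ^ (2 * μ - 1))
        rwa [hτ] at h1
    · intro P hP
      exact hXΓ P (Finset.mem_filter.mp hP).1
    · intro p hp
      exact hEo p (hD hp)
  have hmain := cov X E (1 / Λ ^ 2) (2 * Λ) θ (2 * m + 1) (3 * δ + 1) (by omega) (by omega) hlam hlR hθ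
    (by linarith) hR hsep hb
  have hrat : 2 * Λ / (1 / Λ ^ 2) = 2 * Λ ^ 3 := by
    field_simp
  rw [hrat, hEc] at hmain
  push_cast at hmain
  exact hmain

end Pool.Agent.H43.RH
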