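/-
K3 (Core).  The parametrised dichotomy.  Needs Core1, Core2.  About 80 lines.
PROOF.  L = (100/θ²) (logb 2 (2Λ³) + 1) ≥ 1.  Suppose the first alternative fails: for all α, γ, β with αγ < |β|² the set
T \ GC has at least 2m + 2 points.  Then core2 (E a subset of T \ GC with 2m+2 points, X = S' any subset of T ∩ GC):
S'.card ≤ (3δ+1)(2m+2) L, so hM holds with M = ⌊(3δ+1)(2m+2) L⌋₊.  If |T| ≤ NN m δ: NN ≤ 4δ² ≤ 96 δ^5 L².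
Otherwise core1: |T| ≤ 2δ (M + 2δ² + 2δ) (NN + 1) L ≤ 96 δ^5 L²: m ≥ 3, δ = m 2^m ≥ 24, 3δ + 1 ≤ 4δ, 2m + 2 ≤ 2δ,
M ≤ 8 δ² L, 2δ² + 2δ ≤ 4δ² ≤ 4 δ² L, NN + 1 = 2δ² + 2δ + m(δ+2) + 2 ≤ 4δ² (m ≤ δ).
-/
import Pool.Agent.H43.RH.Core1
import Pool.Agent.H43.RH.Core2

namespace Pool.Agent.H43.RH

theorem core (T : Finset ℂ) (c : ℂ → ℕ) (Λ : ℝ) (hC : Cfg T c Λ) (μ m δ : ℕ) (hμ : 1 ≤ μ)
    (hm : m = 2 * μ + 1) (hδ : δ = m * 2 ^ m) (θ : ℝ) (hθ : 0 < θ) (hθ1 : θ ≤ 1 / 4)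
    (hnum : 512 * (64 * Λ ^ 6) ^ m * (2 * θ) ^ (2 ^ μ) < 1) :
    (∃ α γ : ℝ, ∃ β : ℂ, α * γ < ‖β‖ ^ 2 ∧
      ∀ E ⊆ T, (∀ p ∈ E, p ∉ GC α γ β) → E.card ≤ 2 * m + 1) ∨
    (T.card : ℝ) ≤ 96 * (δ : ℝ) ^ 5 * ((100 / θ ^ 2) * (Real.logb 2 (2 * Λ ^ 3) + 1)) ^ 2 := by
  obtain ⟨L, hL⟩ : ∃ L : ℝ, L = (100 / θ ^ 2) * (Real.logb 2 (2 * Λ ^ 3) + 1) := ⟨_, rfl⟩
  have hΛ : 2 ≤ Λ := hC.two
  have hL1 : 1 ≤ L := by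
    have h1 : (1 : ℝ) ≤ 100 / θ ^ 2 := by
      rw [le_div_iff₀ (by positivity)]
      nlinarith
    have h2 : (0 : ℝ) ≤ Real.logb 2 (2 * Λ ^ 3) := by
      apply Real.logb_nonneg (by norm_num)
      have h3 : (2 : ℝ) ^ 3 ≤ Λ ^ 3 := pow_le_pow_left₀ (by norm_num) hΛ 3
      linarith
    rw [hL]
    nlinarith
  have hm3 : 3 ≤ m := by omega
  have h8 : m * 8 ≤ δ := by
    rw [hδ]
    apply Nat.mul_le_mul_left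
    calc 8 = 2 ^ 3 := by norm_num
      _ ≤ 2 ^ m := Nat.pow_le_pow_right (by norm_num) hm3
  have h24 : 24 ≤ δ := by omega
  have h8' : (m : ℝ) * 8 ≤ δ := by exact_mod_cast h8
  have h24' : (24 : ℝ) ≤ δ := by exact_mod_cast h24
  have hm3' : (3 : ℝ) ≤ m := by exact_mod_cast hm3
  have hNN : ((NN m δ + 1 : ℕ) : ℝ) ≤ 4 * (δ : ℝ) ^ 2 := by
    unfold NN
    push_cast
    nlinarith
  rw [← hL]
  by_cases hex : ∃ α γ : ℝ, ∃ β : ℂ, α * γ < ‖β‖ ^ 2 ∧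
      ∀ E ⊆ T, (∀ p ∈ E, p ∉ GC α γ β) → E.card ≤ 2 * m + 1
  · exact Or.inl hex
  right
  push Not at hex
  obtain ⟨M, hMd⟩ : ∃ M : ℕ, M = ⌊(3 * δ + 1) * (2 * m + 2) * L⌋₊ := ⟨_, rfl⟩
  have hM : ∀ α γ : ℝ, ∀ β : ℂ, α * γ < ‖β‖ ^ 2 →
      ∀ S' ⊆ T, (∀ P ∈ S', P ∈ GC α γ β) → S'.card ≤ M := by
    intro α γ β hβ S' hS' hG
    obtain ⟨E, hE, hEo, hEc⟩ := hex α γ β hβ
    obtain ⟨E', hE', hEc'⟩ := Finset.exists_subset_card_eq (show 2 * m + 2 ≤ E.card by omega)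
    have h1 := core2 T c Λ hC μ m δ hμ hm hδ θ hθ hθ1 hnum α γ β hβ S' E' hS' hG
      (hE'.trans hE) (fun p hp => hEo p (hE' hp)) hEc'
    rw [hMd]
    apply Nat.le_floor
    rw [hL]
    refine h1.trans (le_of_eq ?_)
    ring
  have hM2 : (M : ℝ) ≤ 8 * (δ : ℝ) ^ 2 * L := by
    rw [hMd]
    refine (Nat.floor_le (by positivity)).trans ?_
    apply mul_le_mul_of_nonneg_right _ (by linarith)
    nlinarith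
  have hδ2 : (0 : ℝ) ≤ (δ : ℝ) ^ 2 := by positivity
  rcases Nat.lt_or_ge (NN m δ) T.card with hT | hT
  · have h1 := core1 T c Λ hC μ m δ M hμ hm hδ θ hθ hθ1 hnum hM hT
    have h2 : (M : ℝ) + (2 * (δ : ℝ) ^ 2 + 2 * δ) ≤ 12 * (δ : ℝ) ^ 2 * L := by
      have h3 : 2 * (δ : ℝ) ^ 2 + 2 * δ ≤ 4 * (δ : ℝ) ^ 2 := by nlinarith
      have h4 : 4 * (δ : ℝ) ^ 2 ≤ 4 * (δ : ℝ) ^ 2 * L := by nlinarith
      linarith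
    have h5 : (0 : ℝ) ≤ M := Nat.cast_nonneg M
    calc (T.card : ℝ) ≤ (2 * δ * (M + (2 * δ ^ 2 + 2 * δ)))
          * ((NN m δ + 1 : ℕ) * (100 / θ ^ 2) * (Real.logb 2 (2 * Λ ^ 3) + 1)) := h1
      _ = (2 * δ * (M + (2 * δ ^ 2 + 2 * δ))) * ((NN m δ + 1 : ℕ) * L) := by
        rw [hL]
        ring
      _ ≤ (2 * δ * (12 * (δ : ℝ) ^ 2 * L)) * ((4 * (δ : ℝ) ^ 2) * L) := by
        have hL0 : (0 : ℝ) ≤ L := by linarith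
        gcongr
      _ = 96 * (δ : ℝ) ^ 5 * L ^ 2 := by ring
  · have h1 : (T.card : ℝ) ≤ ((NN m δ + 1 : ℕ) : ℝ) := by exact_mod_cast hT.trans (Nat.le_succ _)
    have h2 : (4 : ℝ) * (δ : ℝ) ^ 2 ≤ 96 * (δ : ℝ) ^ 5 * L ^ 2 := by
      have h3 : (1 : ℝ) ≤ L ^ 2 := one_le_pow₀ hL1
      have h4 : (1 : ℝ) ≤ (δ : ℝ) ^ 3 := one_le_pow₀ (by linarith)
      have h5 : (δ : ℝ) ^ 2 ≤ (δ : ℝ) ^ 5 := by
        calc (δ : ℝ) ^ 2 = (δ : ℝ) ^ 2 * 1 := by ring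
          _ ≤ (δ : ℝ) ^ 2 * (δ : ℝ) ^ 3 := by gcongr
          _ = (δ : ℝ) ^ 5 := by ring
      have h6 : (δ : ℝ) ^ 5 ≤ (δ : ℝ) ^ 5 * L ^ 2 := by
        apply le_mul_of_one_le_right (by positivity) h3
      nlinarith
    linarith

end Pool.Agent.H43.RH
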