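/-
T2 (Five).  A line or circle cannot pass close to five points of a cross.  MATHLIB ONLY, about 120 lines.
PROOF.  Put v = z - x0: the equation becomes g(v) = α |v|² + 2 Re (b' v) + γ' = 0 with b' = β + α conj x0 and
γ' = α |x0|² + 2 Re (β x0) + γ; |b'|² - αγ' = |β|² - αγ > 0, so (α, b') ≠ (0, 0) (if α = 0 then b' = β ≠ 0).  v0 = P0 - x0, |v0| ≤ η;
v_k = P_k - x0 = b i^k + e_k, |e_k| ≤ η < b/20.
g(v0) = 0: |γ'| ≤ |α| η² + 2 |b'| η.   Sum of g(v_k), k = 0..3: 4 α b² + 4 γ' + error, |error| ≤ 4 |α| (2bη + η²) + 8 |b'| η,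
so |α| b² ≤ |α| (2bη + 2η²) + 4 |b'| η, |α| b² * (1 - 0.1 - 0.005) ≤ 4 |b'| η ≤ 0.2 |b'| b: |α| b ≤ 0.23 |b'|.
g(v_0) - g(v_2): |4 b Re b'| ≤ 4 |b'| η + 2 |α| (2bη + η²) ≤ |b'| b (0.2 + 0.05): |Re b'| ≤ 0.07 |b'|; the same with v_1, v_3 for
Im b'.  So |b'| ≤ 0.14 |b'|, b' = 0, then α = 0: contradiction.
-/
import Pool.Agent.H43.RH.Defs

namespace Pool.Agent.H43.RH

private theorem five_aux (α γ : ℝ) (β x0 c P : ℂ) (η : ℝ) (h : ‖P - (x0 + c)‖ ≤ η)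
    (m : P ∈ GC α γ β) :
    |α * ‖c‖ ^ 2 + 2 * ((β + α * (starRingEnd ℂ) x0) * c).re
        + (α * ‖x0‖ ^ 2 + 2 * (β * x0).re + γ)|
      ≤ |α| * (η * (2 * ‖c‖ + η)) + 2 * (‖β + α * (starRingEnd ℂ) x0‖ * η) := by
  have hm : α * ‖P‖ ^ 2 + 2 * (β * P).re + γ = 0 := m
  obtain ⟨e, he⟩ : ∃ e, e = P - (x0 + c) := ⟨_, rfl⟩
  have hP : P = x0 + (c + e) := by rw [he]; ring
  rw [← he] at h
  have hη : 0 ≤ η := le_trans (norm_nonneg _) h
  have hk : α * ‖c + e‖ ^ 2 + 2 * ((β + α * (starRingEnd ℂ) x0) * (c + e)).re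
      + (α * ‖x0‖ ^ 2 + 2 * (β * x0).re + γ) = 0 := by
    rw [← hm, hP]
    simp only [Complex.sq_norm, Complex.normSq_apply, Complex.add_re, Complex.add_im,
      Complex.mul_re, Complex.mul_im, Complex.conj_re, Complex.conj_im, Complex.ofReal_re,
      Complex.ofReal_im]
    ring
  have h1 : α * ‖c‖ ^ 2 + 2 * ((β + α * (starRingEnd ℂ) x0) * c).re
        + (α * ‖x0‖ ^ 2 + 2 * (β * x0).re + γ)
      = -(α * (‖c + e‖ ^ 2 - ‖c‖ ^ 2)) - 2 * ((β + α * (starRingEnd ℂ) x0) * e).re := by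
    have h2 : ((β + α * (starRingEnd ℂ) x0) * (c + e)).re
        = ((β + α * (starRingEnd ℂ) x0) * c).re + ((β + α * (starRingEnd ℂ) x0) * e).re := by
      rw [mul_add, Complex.add_re]
    rw [h2] at hk
    linarith
  rw [h1]
  have h3 : |((β + α * (starRingEnd ℂ) x0) * e).re| ≤ ‖β + α * (starRingEnd ℂ) x0‖ * η :=
    calc |((β + α * (starRingEnd ℂ) x0) * e).re| ≤ ‖(β + α * (starRingEnd ℂ) x0) * e‖ :=
          Complex.abs_re_le_norm _
      _ = ‖β + α * (starRingEnd ℂ) x0‖ * ‖e‖ := norm_mul _ _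
      _ ≤ _ := mul_le_mul_of_nonneg_left h (norm_nonneg _)
  have h4 : |‖c + e‖ ^ 2 - ‖c‖ ^ 2| ≤ η * (2 * ‖c‖ + η) := by
    have h5 : ‖c + e‖ ^ 2 - ‖c‖ ^ 2 = (‖c + e‖ - ‖c‖) * (‖c + e‖ + ‖c‖) := by ring
    have h6 : |‖c + e‖ - ‖c‖| ≤ η := by
      have := abs_norm_sub_norm_le (c + e) c
      rw [add_sub_cancel_left] at this
      exact this.trans h
    have h7 : ‖c + e‖ + ‖c‖ ≤ 2 * ‖c‖ + η := by
      have := norm_add_le c e
      linarith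
    rw [h5, abs_mul, abs_of_nonneg (a := ‖c + e‖ + ‖c‖) (by positivity)]
    exact mul_le_mul h6 h7 (by positivity) hη
  calc |-(α * (‖c + e‖ ^ 2 - ‖c‖ ^ 2)) - 2 * ((β + α * (starRingEnd ℂ) x0) * e).re|
      ≤ |-(α * (‖c + e‖ ^ 2 - ‖c‖ ^ 2))| + |2 * ((β + α * (starRingEnd ℂ) x0) * e).re| :=
        abs_sub _ _
    _ = |α| * |‖c + e‖ ^ 2 - ‖c‖ ^ 2| + 2 * |((β + α * (starRingEnd ℂ) x0) * e).re| := by
        rw [abs_neg, abs_mul, abs_mul, abs_of_pos (show (0 : ℝ) < 2 by norm_num)]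
    _ ≤ _ := by
        have := mul_le_mul_of_nonneg_left h4 (abs_nonneg α)
        linarith

theorem five (α γ : ℝ) (β : ℂ) (hβ : α * γ < ‖β‖ ^ 2) (x0 : ℂ) (b η : ℝ) (hb : 0 < b)
    (hη : η < b / 20) (P P0 P1 P2 P3 : ℂ) (h : ‖P - x0‖ ≤ η) (h0 : ‖P0 - (x0 + b)‖ ≤ η)
    (h1 : ‖P1 - (x0 + b * Complex.I)‖ ≤ η) (h2 : ‖P2 - (x0 - b)‖ ≤ η)
    (h3 : ‖P3 - (x0 - b * Complex.I)‖ ≤ η) (m : P ∈ GC α γ β) (m0 : P0 ∈ GC α γ β)
    (m1 : P1 ∈ GC α γ β) (m2 : P2 ∈ GC α γ β) (m3 : P3 ∈ GC α γ β) : False := by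
  have hη0 : 0 ≤ η := le_trans (norm_nonneg _) h
  obtain ⟨B, hB⟩ : ∃ B, B = β + α * (starRingEnd ℂ) x0 := ⟨_, rfl⟩
  obtain ⟨g, hg⟩ : ∃ g, g = α * ‖x0‖ ^ 2 + 2 * (β * x0).re + γ := ⟨_, rfl⟩
  have hdisc : α * g < ‖B‖ ^ 2 := by
    have : ‖B‖ ^ 2 - α * g = ‖β‖ ^ 2 - α * γ := by
      rw [hB, hg]
      simp only [Complex.sq_norm, Complex.normSq_apply, Complex.add_re, Complex.add_im,
        Complex.mul_re, Complex.mul_im, Complex.conj_re, Complex.conj_im, Complex.ofReal_re,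
        Complex.ofReal_im]
      ring
    linarith
  have hnb : ‖(b : ℂ)‖ = b := by rw [Complex.norm_real, Real.norm_of_nonneg hb.le]
  have a := five_aux α γ β x0 0 P η (by rwa [add_zero]) m
  have a0 := five_aux α γ β x0 b P0 η h0 m0
  have a1 := five_aux α γ β x0 (b * Complex.I) P1 η h1 m1
  have a2 := five_aux α γ β x0 (-b) P2 η (by rwa [← sub_eq_add_neg]) m2
  have a3 := five_aux α γ β x0 (-(b * Complex.I)) P3 η (by rwa [← sub_eq_add_neg]) m3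
  rw [← hB, ← hg] at a a0 a1 a2 a3
  have e1 : (B * (b : ℂ)).re = b * B.re := by simp [mul_comm]
  have e2 : (B * ((b : ℂ) * Complex.I)).re = -(b * B.im) := by simp [mul_comm]
  have e3 : (B * (-(b : ℂ))).re = -(b * B.re) := by simp [mul_comm]
  have e4 : (B * (-((b : ℂ) * Complex.I))).re = b * B.im := by simp [mul_comm]
  rw [norm_zero, mul_zero, Complex.zero_re] at a
  rw [hnb, e1] at a0
  rw [norm_mul, Complex.norm_I, mul_one, hnb, e2] at a1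
  rw [norm_neg, hnb, e3] at a2
  rw [norm_neg, norm_mul, Complex.norm_I, mul_one, hnb, e4] at a3
  have hN : ‖B‖ ≤ |B.re| + |B.im| := Complex.norm_le_abs_re_add_abs_im B
  obtain ⟨N, hN'⟩ : ∃ N, N = ‖B‖ := ⟨_, rfl⟩
  obtain ⟨A, hA⟩ : ∃ A, A = |α| := ⟨_, rfl⟩
  have hN0 : 0 ≤ N := hN' ▸ norm_nonneg _
  have hA0 : 0 ≤ A := hA ▸ abs_nonneg _
  rw [← hN', ← hA] at a a0 a1 a2 a3
  rw [← hN'] at hN hdisc
  have aa := abs_le.1 a
  have aa0 := abs_le.1 a0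
  have aa1 := abs_le.1 a1
  have aa2 := abs_le.1 a2
  have aa3 := abs_le.1 a3
  have hηb : η * η ≤ b / 20 * η := mul_le_mul_of_nonneg_right hη.le hη0
  have hAη : A * η ≤ A * (b / 20) := mul_le_mul_of_nonneg_left hη.le hA0
  have hNη : N * η ≤ N * (b / 20) := mul_le_mul_of_nonneg_left hη.le hN0
  have hAb : 0 ≤ A * b := mul_nonneg hA0 hb.le
  have hAbη : A * b * η ≤ A * b * (b / 20) := mul_le_mul_of_nonneg_left hη.le hAb
  have hAηη : A * (η * η) ≤ A * b * (b / 400) := by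
    have h1 : A * (η * η) ≤ A * (b / 20 * η) := mul_le_mul_of_nonneg_left hηb hA0
    have h2 : A * (b / 20 * η) = A * b * η / 20 := by ring
    linarith
  have hαb : |α * b ^ 2| = A * b * b := by
    rw [abs_mul, ← hA, abs_of_nonneg (by positivity)]; ring
  have hα1 : |α * b ^ 2| ≤ A * (2 * (b * η) + 2 * (η * η)) + 4 * (N * η) := by
    rw [abs_le]
    constructor <;> nlinarith [aa.1, aa.2, aa0.1, aa0.2, aa1.1, aa1.2, aa2.1, aa2.2, aa3.1, aa3.2]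
  have hα2 : A * b ≤ 0.2235 * N := by
    rw [hαb] at hα1
    have h1 : A * b * b * 0.895 ≤ N * b * 0.2 := by nlinarith
    have h2 : (A * b * 0.895) * b ≤ (N * 0.2) * b := by nlinarith
    have h3 := le_of_mul_le_mul_right h2 hb
    nlinarith
  have hre : |B.re| * b * 2 ≤ A * (2 * (b * η) + η * η) + 2 * (N * η) := by
    have : |B.re * b * 2| ≤ A * (2 * (b * η) + η * η) + 2 * (N * η) := by
      rw [abs_le]
      constructor <;> nlinarith [aa0.1, aa0.2, aa2.1, aa2.2]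
    rwa [abs_mul, abs_mul, abs_of_pos hb, abs_of_pos (show (0 : ℝ) < 2 by norm_num)] at this
  have him : |B.im| * b * 2 ≤ A * (2 * (b * η) + η * η) + 2 * (N * η) := by
    have : |B.im * b * 2| ≤ A * (2 * (b * η) + η * η) + 2 * (N * η) := by
      rw [abs_le]
      constructor <;> nlinarith [aa1.1, aa1.2, aa3.1, aa3.2]
    rwa [abs_mul, abs_mul, abs_of_pos hb, abs_of_pos (show (0 : ℝ) < 2 by norm_num)] at this
  have hN1 : N * b * 2 ≤ 2 * (A * (2 * (b * η) + η * η) + 2 * (N * η)) := by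
    have := mul_le_mul_of_nonneg_right hN (mul_nonneg hb.le (show (0 : ℝ) ≤ 2 by norm_num))
    nlinarith
  have hN2 : (N * 2) * b ≤ (N * 0.5) * b := by
    have h1 : A * b * b ≤ 0.2235 * N * b := mul_le_mul_of_nonneg_right hα2 hb.le
    nlinarith
  have hN3 := le_of_mul_le_mul_right hN2 hb
  have hN4 : N = 0 := by linarith
  have hA4 : A * b ≤ 0 := by rw [hN4] at hα2; linarith
  have hA5 : A = 0 := by
    have : A ≤ 0 := by
      by_contra hc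
      rw [not_le] at hc
      have := mul_pos hc hb
      linarith
    linarith
  have hα0 : α = 0 := by rw [hA] at hA5; exact abs_eq_zero.1 hA5
  rw [hα0, hN4] at hdisc
  norm_num at hdisc

end Pool.Agent.H43.RH
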