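/-
T1 (Trans).  Lines and circles: transport by a similarity, and the two descriptions.  MATHLIB ONLY, about 120 lines.
trans: with d = B - A ≠ 0, |(z-A)/d|² = |z-A|²/|d|², expand |z - A|² = |z|² - 2 Re(Ā z) + |A|²: α' = α/|d|²,
β' = β/d - α Ā/|d|², γ' = γ + α |A|²/|d|² - 2 Re(β A/d); |β'|² - α'γ' = (|β|² - αγ)/|d|².
isLC_iff: α ≠ 0: GC = sphere with centre - β̄/α and radius sqrt(|β|² - αγ)/|α|; α = 0: β ≠ 0, the line through
a = - γ β̄/(2|β|²) with direction i β̄.  Conversely: the sphere c, r is GC 1 (|c|² - r²) (- c̄); the line a + t(b-a) is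
GC 0 γ β with β = i conj(b-a), γ = - 2 Re(β a)  (Re (β (b-a)) = 0).
-/
import Pool.Agent.H43.RH.Defs

namespace Pool.Agent.H43.RH

private theorem nsq (z : ℂ) : ‖z‖ ^ 2 = z.re * z.re + z.im * z.im := by
  rw [← Complex.normSq_eq_norm_sq, Complex.normSq_apply]

private theorem trans_key (A d z : ℂ) (hd : d ≠ 0) (α γ : ℝ) (β : ℂ) :
    α * ‖z‖ ^ 2 + 2 * ((β * (starRingEnd ℂ) d - α * (starRingEnd ℂ) A) * z).re +
      (γ * ‖d‖ ^ 2 + α * ‖A‖ ^ 2 - 2 * (β * A * (starRingEnd ℂ) d).re) =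
      ‖d‖ ^ 2 * (α * ‖(z - A) / d‖ ^ 2 + 2 * (β * ((z - A) / d)).re + γ) := by
  have hD : ‖d‖ ^ 2 ≠ 0 := pow_ne_zero _ (norm_ne_zero_iff.2 hd)
  have h1 : ‖(z - A) / d‖ ^ 2 = ‖z - A‖ ^ 2 / ‖d‖ ^ 2 := by
    rw [norm_div, div_pow]
  have h2 : (β * ((z - A) / d)).re = (β * (z - A) * (starRingEnd ℂ) d).re / ‖d‖ ^ 2 := by
    have h3 : β * ((z - A) / d) = (β * (z - A) * (starRingEnd ℂ) d) / ((‖d‖ ^ 2 : ℝ) : ℂ) := by
      rw [eq_div_iff (by exact_mod_cast hD)]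
      have h4 : ((‖d‖ ^ 2 : ℝ) : ℂ) = d * (starRingEnd ℂ) d := by
        rw [Complex.mul_conj, Complex.normSq_eq_norm_sq]
      rw [h4]
      field_simp
    rw [h3, Complex.div_ofReal_re]
  rw [h1, h2]
  have h5 : ‖d‖ ^ 2 * (α * (‖z - A‖ ^ 2 / ‖d‖ ^ 2) +
      2 * ((β * (z - A) * (starRingEnd ℂ) d).re / ‖d‖ ^ 2) + γ) =
      α * ‖z - A‖ ^ 2 + 2 * (β * (z - A) * (starRingEnd ℂ) d).re + γ * ‖d‖ ^ 2 := by
    field_simp
  rw [h5]
  simp only [nsq, Complex.mul_re, Complex.mul_im, Complex.sub_re, Complex.sub_im, Complex.conj_re,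
    Complex.conj_im, Complex.ofReal_re, Complex.ofReal_im]
  ring

theorem trans (A B : ℂ) (hAB : A ≠ B) (α γ : ℝ) (β : ℂ) (hβ : α * γ < ‖β‖ ^ 2) :
    ∃ α' γ' : ℝ, ∃ β' : ℂ, α' * γ' < ‖β'‖ ^ 2 ∧
      ∀ z : ℂ, z ∈ GC α' γ' β' ↔ (z - A) / (B - A) ∈ GC α γ β := by
  have hd : B - A ≠ 0 := sub_ne_zero.2 (Ne.symm hAB)
  have hD : 0 < ‖B - A‖ ^ 2 := pow_pos (norm_pos_iff.2 hd) 2
  refine ⟨α, γ * ‖B - A‖ ^ 2 + α * ‖A‖ ^ 2 - 2 * (β * A * (starRingEnd ℂ) (B - A)).re,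
    β * (starRingEnd ℂ) (B - A) - α * (starRingEnd ℂ) A, ?_, fun z => ?_⟩
  · have h1 : ‖β * (starRingEnd ℂ) (B - A) - α * (starRingEnd ℂ) A‖ ^ 2 -
        α * (γ * ‖B - A‖ ^ 2 + α * ‖A‖ ^ 2 - 2 * (β * A * (starRingEnd ℂ) (B - A)).re) =
        ‖B - A‖ ^ 2 * (‖β‖ ^ 2 - α * γ) := by
      simp only [nsq, Complex.mul_re, Complex.mul_im, Complex.sub_re, Complex.sub_im,
        Complex.conj_re, Complex.conj_im, Complex.ofReal_re, Complex.ofReal_im]
      ring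
    have h2 := mul_pos hD (sub_pos.2 hβ)
    linarith
  · change α * ‖z‖ ^ 2 + 2 * ((β * (starRingEnd ℂ) (B - A) - α * (starRingEnd ℂ) A) * z).re +
      (γ * ‖B - A‖ ^ 2 + α * ‖A‖ ^ 2 - 2 * (β * A * (starRingEnd ℂ) (B - A)).re) = 0 ↔
      α * ‖(z - A) / (B - A)‖ ^ 2 + 2 * (β * ((z - A) / (B - A))).re + γ = 0
    rw [trans_key A (B - A) z hd α γ β, mul_eq_zero, or_iff_right hD.ne']

theorem isLC_of_GC (α γ : ℝ) (β : ℂ) (hβ : α * γ < ‖β‖ ^ 2) : IsLC (GC α γ β) := by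
  by_cases hα : α = 0
  · subst hα
    left
    have hB : 0 < ‖β‖ ^ 2 := by linarith
    have hβ0 : β ≠ 0 := by
      rintro rfl
      simp at hB
    have hB' : ((‖β‖ ^ 2 : ℝ) : ℂ) ≠ 0 := by exact_mod_cast hB.ne'
    have hBB : ((‖β‖ ^ 2 : ℝ) : ℂ) = β * (starRingEnd ℂ) β := by
      rw [Complex.mul_conj, Complex.normSq_eq_norm_sq]
    have hc0 : (starRingEnd ℂ) β ≠ 0 := (map_ne_zero _).2 hβ0
    refine ⟨-(γ : ℂ) * (starRingEnd ℂ) β / (2 * ((‖β‖ ^ 2 : ℝ) : ℂ)),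
      -(γ : ℂ) * (starRingEnd ℂ) β / (2 * ((‖β‖ ^ 2 : ℝ) : ℂ)) + Complex.I * (starRingEnd ℂ) β,
      ?_, ?_⟩
    · intro h
      have h1 := left_eq_add.1 h
      rcases mul_eq_zero.1 h1 with h2 | h2
      · exact Complex.I_ne_zero h2
      · exact hc0 h2
    · have hmul : ∀ t : ℂ, β * (-(γ : ℂ) * (starRingEnd ℂ) β / (2 * ((‖β‖ ^ 2 : ℝ) : ℂ)) +
          t * (Complex.I * (starRingEnd ℂ) β)) = -(γ : ℂ) / 2 + t * Complex.I * ((‖β‖ ^ 2 : ℝ) : ℂ) := by
        intro t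
        rw [hBB]
        field_simp
      ext z
      simp only [Set.mem_ofPred_eq, add_sub_cancel_left, GC, zero_mul, zero_add]
      constructor
      · intro hz
        refine ⟨(β * z).im / ‖β‖ ^ 2, ?_⟩
        refine mul_left_cancel₀ hβ0 ?_
        rw [hmul]
        apply Complex.ext
        · have h1 : (-(γ : ℂ) / 2 + (((β * z).im / ‖β‖ ^ 2 : ℝ) : ℂ) * Complex.I *
              ((‖β‖ ^ 2 : ℝ) : ℂ)).re = -γ / 2 := by
            have : -(γ : ℂ) / 2 = ((-γ / 2 : ℝ) : ℂ) := by push_cast; ring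
            rw [this]
            simp only [Complex.add_re, Complex.mul_re, Complex.ofReal_re, Complex.ofReal_im,
              Complex.I_re, Complex.I_im, Complex.mul_im]
            ring
          rw [h1]
          linarith
        · have h1 : (-(γ : ℂ) / 2 + (((β * z).im / ‖β‖ ^ 2 : ℝ) : ℂ) * Complex.I *
              ((‖β‖ ^ 2 : ℝ) : ℂ)).im = (β * z).im := by
            have : -(γ : ℂ) / 2 = ((-γ / 2 : ℝ) : ℂ) := by push_cast; ring
            rw [this]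
            simp only [Complex.add_im, Complex.mul_re, Complex.ofReal_re, Complex.ofReal_im,
              Complex.I_re, Complex.I_im, Complex.mul_im]
            field_simp
            ring
          rw [h1]
      · rintro ⟨t, rfl⟩
        rw [hmul]
        have : -(γ : ℂ) / 2 = ((-γ / 2 : ℝ) : ℂ) := by push_cast; ring
        rw [this]
        simp only [Complex.add_re, Complex.mul_re, Complex.ofReal_re, Complex.ofReal_im,
          Complex.I_re, Complex.I_im, Complex.mul_im]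
        ring
  · right
    have hpos : 0 < ‖β‖ ^ 2 - α * γ := sub_pos.2 hβ
    refine ⟨-(starRingEnd ℂ) β / α, Real.sqrt (‖β‖ ^ 2 - α * γ) / |α|,
      div_pos (Real.sqrt_pos.2 hpos) (abs_pos.2 hα), ?_⟩
    ext z
    rw [mem_sphere_iff_norm]
    have h1 : (‖z - -(starRingEnd ℂ) β / α‖ = Real.sqrt (‖β‖ ^ 2 - α * γ) / |α|) ↔
        ‖z - -(starRingEnd ℂ) β / α‖ ^ 2 = (Real.sqrt (‖β‖ ^ 2 - α * γ) / |α|) ^ 2 :=
      (sq_eq_sq₀ (norm_nonneg _) (div_nonneg (Real.sqrt_nonneg _) (abs_nonneg _))).symm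
    have h2 : (Real.sqrt (‖β‖ ^ 2 - α * γ) / |α|) ^ 2 = (‖β‖ ^ 2 - α * γ) / α ^ 2 := by
      rw [div_pow, Real.sq_sqrt hpos.le, sq_abs]
    have h3 : ‖z - -(starRingEnd ℂ) β / α‖ ^ 2 =
        (α * (α * ‖z‖ ^ 2 + 2 * (β * z).re) + ‖β‖ ^ 2) / α ^ 2 := by
      have h4 : z - -(starRingEnd ℂ) β / α = (α * z + (starRingEnd ℂ) β) / α := by
        have : (α : ℂ) ≠ 0 := by exact_mod_cast hα
        field_simp
        ring
      rw [h4, norm_div, div_pow, Complex.norm_real, Real.norm_eq_abs, sq_abs]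
      congr 1
      simp only [nsq, Complex.mul_re, Complex.mul_im, Complex.add_re, Complex.add_im,
        Complex.conj_re, Complex.conj_im, Complex.ofReal_re, Complex.ofReal_im]
      ring
    have hα2 : α ^ 2 ≠ 0 := pow_ne_zero _ hα
    rw [h1, h2, h3, div_left_inj' hα2]
    change α * ‖z‖ ^ 2 + 2 * (β * z).re + γ = 0 ↔ _
    constructor
    · intro h
      have h5 : α * ‖z‖ ^ 2 + 2 * (β * z).re = -γ := by linarith
      rw [h5]
      ring
    · intro h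
      have h6 : α * (α * ‖z‖ ^ 2 + 2 * (β * z).re + γ) = 0 := by linarith
      exact (mul_eq_zero.1 h6).resolve_left hα

theorem GC_of_isLC (Γ : Set ℂ) (h : IsLC Γ) :
    ∃ α γ : ℝ, ∃ β : ℂ, α * γ < ‖β‖ ^ 2 ∧ Γ = GC α γ β := by
  rcases h with ⟨a, b, hab, rfl⟩ | ⟨c, r, hr, rfl⟩
  · have hd : b - a ≠ 0 := sub_ne_zero.2 (Ne.symm hab)
    have hc0 : (starRingEnd ℂ) (b - a) ≠ 0 := (map_ne_zero _).2 hd
    have hD : 0 < ‖b - a‖ ^ 2 := pow_pos (norm_pos_iff.2 hd) 2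
    refine ⟨0, -2 * (Complex.I * (starRingEnd ℂ) (b - a) * a).re,
      Complex.I * (starRingEnd ℂ) (b - a), ?_, ?_⟩
    · rw [zero_mul, norm_mul, Complex.norm_I, one_mul, Complex.norm_conj]
      exact hD
    · ext z
      change (∃ t : ℝ, z = a + (t : ℂ) * (b - a)) ↔
        0 * ‖z‖ ^ 2 + 2 * (Complex.I * (starRingEnd ℂ) (b - a) * z).re +
          -2 * (Complex.I * (starRingEnd ℂ) (b - a) * a).re = 0
      have h0 : 0 * ‖z‖ ^ 2 + 2 * (Complex.I * (starRingEnd ℂ) (b - a) * z).re +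
          -2 * (Complex.I * (starRingEnd ℂ) (b - a) * a).re =
          -2 * ((starRingEnd ℂ) (b - a) * (z - a)).im := by
        simp only [Complex.mul_re, Complex.mul_im, Complex.sub_re, Complex.sub_im, Complex.conj_re,
          Complex.conj_im, Complex.I_re, Complex.I_im]
        ring
      rw [h0]
      constructor
      · rintro ⟨t, rfl⟩
        simp only [add_sub_cancel_left, Complex.mul_re, Complex.mul_im, Complex.sub_re,
          Complex.sub_im, Complex.conj_re, Complex.conj_im, Complex.ofReal_re, Complex.ofReal_im]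
        ring
      · intro h
        have h1 : ((starRingEnd ℂ) (b - a) * (z - a)).im = 0 := by linarith
        refine ⟨((starRingEnd ℂ) (b - a) * (z - a)).re / ‖b - a‖ ^ 2, ?_⟩
        have h2 : (starRingEnd ℂ) (b - a) * (z - a) =
            ((((starRingEnd ℂ) (b - a) * (z - a)).re : ℝ) : ℂ) := by
          apply Complex.ext
          · rw [Complex.ofReal_re]
          · rw [Complex.ofReal_im, h1]
        have h3 : ((‖b - a‖ ^ 2 : ℝ) : ℂ) = (starRingEnd ℂ) (b - a) * (b - a) := by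
          rw [mul_comm, Complex.mul_conj, Complex.normSq_eq_norm_sq]
        have h4 : z - a = (((((starRingEnd ℂ) (b - a) * (z - a)).re / ‖b - a‖ ^ 2 : ℝ)) : ℂ) *
            (b - a) := by
          refine mul_left_cancel₀ hc0 ?_
          rw [Complex.ofReal_div, h3, ← h2]
          field_simp
        rw [← h4]
        ring
  · refine ⟨1, ‖c‖ ^ 2 - r ^ 2, -(starRingEnd ℂ) c, ?_, ?_⟩
    · rw [norm_neg, Complex.norm_conj]
      have := pow_pos hr 2
      linarith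
    · ext z
      rw [mem_sphere_iff_norm, ← sq_eq_sq₀ (norm_nonneg _) hr.le]
      change ‖z - c‖ ^ 2 = r ^ 2 ↔
        1 * ‖z‖ ^ 2 + 2 * (-(starRingEnd ℂ) c * z).re + (‖c‖ ^ 2 - r ^ 2) = 0
      have h0 : ‖z - c‖ ^ 2 = ‖z‖ ^ 2 + 2 * (-(starRingEnd ℂ) c * z).re + ‖c‖ ^ 2 := by
        simp only [nsq, Complex.mul_re, Complex.sub_re, Complex.sub_im, Complex.conj_re,
          Complex.conj_im, Complex.neg_re, Complex.neg_im]
        ring
      rw [h0]
      constructor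
      · intro h
        linarith
      · intro h
        linarith

end Pool.Agent.H43.RH
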