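/-
T7 (Dense).  A somewhere dense set has infinitely many points off every line and circle.  Needs Five, Trans.
-/
import Pool.Agent.H43.RH.Five
import Pool.Agent.H43.RH.Trans

namespace Pool.Agent.H43.RH

theorem continuous_GCfun (α γ : ℝ) (β : ℂ) :
    Continuous fun z : ℂ => α * ‖z‖ ^ 2 + 2 * (β * z).re + γ := by
  fun_prop

theorem isClosed_GC (α γ : ℝ) (β : ℂ) : IsClosed (GC α γ β) :=
  isClosed_eq (continuous_GCfun α γ β) continuous_const

theorem infinite_of_dense (S U : Set ℂ) (hU : IsOpen U) (hne : U.Nonempty) (hUS : U ⊆ closure S)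
    (Γ : Set ℂ) (hΓ : IsLC Γ) : (S \ Γ).Infinite := by
  obtain ⟨α, γ, β, hβ, rfl⟩ := GC_of_isLC Γ hΓ
  intro hfin
  have hcl : closure S ⊆ GC α γ β ∪ (S \ GC α γ β) := by
    refine closure_minimal ?_ ((isClosed_GC α γ β).union hfin.isClosed)
    intro x hx
    by_cases h : x ∈ GC α γ β
    · exact Or.inl h
    · exact Or.inr ⟨hx, h⟩
  have hVo : IsOpen (U \ (S \ GC α γ β)) := hU.sdiff hfin.isClosed
  have hVn : (U \ (S \ GC α γ β)).Nonempty := by
    have hinf : U.Infinite := infinite_of_mem_nhds hne.some (hU.mem_nhds hne.some_mem)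
    exact (hinf.sdiff hfin).nonempty
  obtain ⟨x1, hx1⟩ := hVn
  obtain ⟨r, hr, hb⟩ := Metric.isOpen_iff.1 hVo x1 hx1
  have hV : ∀ z : ℂ, ‖z - x1‖ < r → z ∈ GC α γ β := by
    intro z hz
    have h1 := hb (show z ∈ Metric.ball x1 r by rw [Metric.mem_ball, dist_eq_norm]; exact hz)
    rcases hcl (hUS h1.1) with h | h
    · exact h
    · exact absurd h h1.2
  have hb2 : (0 : ℝ) < r / 2 := by positivity
  have hn : ‖((r / 2 : ℝ) : ℂ)‖ < r := by
    rw [Complex.norm_real, Real.norm_eq_abs, abs_of_pos hb2]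
    linarith
  have hnI : ‖((r / 2 : ℝ) : ℂ) * Complex.I‖ < r := by
    rw [norm_mul, Complex.norm_I, mul_one]
    exact hn
  refine five α γ β hβ x1 (r / 2) 0 hb2 (by positivity) x1 (x1 + ((r / 2 : ℝ) : ℂ))
    (x1 + ((r / 2 : ℝ) : ℂ) * Complex.I) (x1 - ((r / 2 : ℝ) : ℂ))
    (x1 - ((r / 2 : ℝ) : ℂ) * Complex.I) (by simp) (by simp) (by simp) (by simp) (by simp)
    (hV _ (by simpa using hr)) (hV _ ?_) (hV _ ?_) (hV _ ?_) (hV _ ?_)
  · rw [add_sub_cancel_left]; exact hn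
  · rw [add_sub_cancel_left]; exact hnI
  · rw [sub_sub_cancel_left, norm_neg]; exact hn
  · rw [sub_sub_cancel_left, norm_neg]; exact hnI

end Pool.Agent.H43.RH
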