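/-
T3 (FinSH).  The points of bounded height form a finite set.  MATHLIB ONLY, about 60 lines.
PROOF.  The set V of reals x with Ht H x is finite (image of a finite set of pairs).  The map
P ↦ (|P - A|, |P - B|, sign or decidable (0 ≤ Im ((P - A)/(B - A)))) is injective on ℂ: with z = (P-A)/(B-A), |z| and |z - 1| are
determined, hence Re z, (Im z)², and the sign gives Im z.  Set.Finite.of_injOn / Finite.preimage.
-/
import Pool.Agent.H43.RH.Defs

namespace Pool.Agent.H43.RH

private theorem finSH_ht (H : ℕ) : {x : ℝ | Ht H x}.Finite := by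
  refine ((Finset.range (H + 1) ×ˢ Finset.range (H + 1)).image
    fun p : ℕ × ℕ => (p.1 : ℝ) / p.2).finite_toSet.subset ?_
  rintro x ⟨a, b, _, ha, hb, rfl⟩
  rw [Finset.mem_coe, Finset.mem_image]
  exact ⟨(a, b), Finset.mem_product.2 ⟨Finset.mem_range.2 (by omega),
    Finset.mem_range.2 (by omega)⟩, rfl⟩

private theorem finSH_eq {z w : ℂ} (h0 : ‖z‖ = ‖w‖) (h1 : ‖z - 1‖ = ‖w - 1‖)
    (hs : (0 ≤ z.im) ↔ (0 ≤ w.im)) : z = w := by
  have e0 : z.re ^ 2 + z.im ^ 2 = w.re ^ 2 + w.im ^ 2 := by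
    have := congrArg (fun x : ℝ => x ^ 2) h0
    simp only [← Complex.normSq_eq_norm_sq, Complex.normSq_apply] at this
    linarith
  have e1 : (z.re - 1) ^ 2 + z.im ^ 2 = (w.re - 1) ^ 2 + w.im ^ 2 := by
    have := congrArg (fun x : ℝ => x ^ 2) h1
    simp only [← Complex.normSq_eq_norm_sq, Complex.normSq_apply, Complex.sub_re, Complex.sub_im,
      Complex.one_re, Complex.one_im] at this
    linarith
  have hre : z.re = w.re := by linarith
  have him2 : z.im ^ 2 = w.im ^ 2 := by
    rw [hre] at e0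
    linarith
  have him : z.im = w.im := by
    rcases sq_eq_sq_iff_eq_or_eq_neg.1 him2 with h | h
    · exact h
    · by_cases hz : 0 ≤ z.im
      · have := hs.1 hz
        linarith
      · have hw : ¬ 0 ≤ w.im := fun h2 => hz (hs.2 h2)
        push Not at hz hw
        linarith
  exact Complex.ext hre him

theorem finSH (S : Set ℂ) (A B : ℂ) (hAB : A ≠ B) (H : ℕ) : (SH S A B H).Finite := by
  classical
  have hBA : B - A ≠ 0 := sub_ne_zero.2 hAB.symm
  let Φ : ℂ → ℝ × (ℝ × Bool) := fun P => (‖P - A‖, (‖P - B‖, decide (0 ≤ ((P - A) / (B - A)).im)))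
  refine Set.Finite.of_injOn (f := Φ)
    (t := {x : ℝ | Ht H x} ×ˢ ({x : ℝ | Ht H x} ×ˢ (Set.univ : Set Bool))) ?_ ?_
    ((finSH_ht H).prod ((finSH_ht H).prod Set.finite_univ))
  · rintro P ⟨_, h1, h2⟩
    exact ⟨h1, h2, Set.mem_univ _⟩
  · intro P _ Q _ hPQ
    simp only [Φ, Prod.mk.injEq, decide_eq_decide] at hPQ
    obtain ⟨h1, h2, h3⟩ := hPQ
    have h4 : (P - A) / (B - A) = (Q - A) / (B - A) := by
      refine finSH_eq ?_ ?_ h3
      · rw [norm_div, norm_div, h1]
      · have e : ∀ X : ℂ, (X - A) / (B - A) - 1 = (X - B) / (B - A) := by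
          intro X
          field_simp
          ring
        rw [e, e, norm_div, norm_div, h2]
    have h5 : P - A = Q - A := by
      field_simp at h4
      exact h4
    exact sub_left_inj.1 h5

end Pool.Agent.H43.RH
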