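/-
X1 (NumA).  Choice of μ for the logarithmic bound.  MATHLIB ONLY, about 100 lines.
PROOF.  l = logb 2 Λ ≥ 1.  Let μ ≥ 1 be the least natural number ≥ 1 with 400 l² ≤ 2^μ; as 400 l² ≥ 400 > 2, μ ≥ 2 and
2^μ ≤ 800 l² (minimality).  hnum: (1/4)^(2^μ) = 2^(-2^(μ+1)), 512 (64 Λ^6)^m = 2^(9 + m (6 + 6 l)), and
9 + (2μ+1)(6 + 6l) ≤ (24 μ + 21) l < 2 * 2^μ because l ≤ 2^(μ/2)/20 and 24 μ + 21 < 40 * 2^(μ/2) for μ ≥ 2
(e.g. square: (24μ+21)² < 1600 * 2^μ by induction; true at μ = 2: 4761 < 6400, μ = 3: 8649 < 12800, ...).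
(iii) μ ≤ logb 2 (800 l²).
-/
import Pool.Agent.H43.RH.Defs

namespace Pool.Agent.H43.RH

private theorem num_sq (μ : ℕ) : (24 * μ + 21) ^ 2 < 1600 * 2 ^ μ := by
  rcases Nat.lt_or_ge μ 2 with h | h
  · interval_cases μ <;> norm_num
  · induction μ, h using Nat.le_induction with
    | base => norm_num
    | succ n hn ih =>
      have h1 : (24 * (n + 1) + 21) ^ 2 ≤ 2 * (24 * n + 21) ^ 2 := by nlinarith
      calc (24 * (n + 1) + 21) ^ 2 ≤ 2 * (24 * n + 21) ^ 2 := h1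
        _ < 2 * (1600 * 2 ^ n) := by omega
        _ = 1600 * 2 ^ (n + 1) := by ring

theorem numA (Λ : ℝ) (hΛ : 2 ≤ Λ) :
    ∃ μ : ℕ, 1 ≤ μ ∧ (2 : ℝ) ^ μ ≤ 800 * (Real.logb 2 Λ) ^ 2 ∧
      512 * (64 * Λ ^ 6) ^ (2 * μ + 1) * (2 * (1 / 8 : ℝ)) ^ (2 ^ μ) < 1 := by
  classical
  set l : ℝ := Real.logb 2 Λ with hl
  have hΛ0 : 0 < Λ := by linarith
  have hl1 : 1 ≤ l := by
    rw [hl, Real.le_logb_iff_rpow_le (by norm_num) hΛ0]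
    simpa using hΛ
  have hΛl : (2 : ℝ) ^ l = Λ := Real.rpow_logb (by norm_num) (by norm_num) hΛ0
  have hex : ∃ n : ℕ, 400 * l ^ 2 ≤ (2 : ℝ) ^ n := by
    obtain ⟨n, hn⟩ := pow_unbounded_of_one_lt (400 * l ^ 2) (by norm_num : (1 : ℝ) < 2)
    exact ⟨n, hn.le⟩
  set μ : ℕ := Nat.find hex with hμ
  have hμ1 : 400 * l ^ 2 ≤ (2 : ℝ) ^ μ := Nat.find_spec hex
  have hl2 : 1 ≤ l ^ 2 := by nlinarith
  have hμpos : 1 ≤ μ := by
    rcases Nat.eq_zero_or_pos μ with h | h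
    · exfalso
      rw [h] at hμ1
      norm_num at hμ1
      linarith
    · exact h
  refine ⟨μ, hμpos, ?_, ?_⟩
  · have h1 : ¬ (400 * l ^ 2 ≤ (2 : ℝ) ^ (μ - 1)) := Nat.find_min hex (by omega)
    push Not at h1
    have h2 : (2 : ℝ) ^ μ = 2 * 2 ^ (μ - 1) := by
      obtain ⟨k, hk⟩ : ∃ k, μ = k + 1 := ⟨μ - 1, by omega⟩
      rw [hk, pow_succ]
      simp
      ring
    rw [h2]
    linarith
  · have hs : ((24 * μ + 21 : ℝ)) ^ 2 < 1600 * 2 ^ μ := by exact_mod_cast num_sq μ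
    have hM : (0 : ℝ) < 2 ^ μ := by positivity
    have hsq : ((24 * μ + 21 : ℝ) * l) ^ 2 < (2 * 2 ^ μ) ^ 2 := by
      have h1 : ((24 * μ + 21 : ℝ) * l) ^ 2 * 400 ≤ (24 * μ + 21 : ℝ) ^ 2 * 2 ^ μ := by
        have : ((24 * μ + 21 : ℝ) * l) ^ 2 * 400 = (24 * μ + 21 : ℝ) ^ 2 * (400 * l ^ 2) := by ring
        rw [this]
        exact mul_le_mul_of_nonneg_left hμ1 (by positivity)
      have h2 : (24 * μ + 21 : ℝ) ^ 2 * 2 ^ μ < 1600 * 2 ^ μ * 2 ^ μ :=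
        mul_lt_mul_of_pos_right hs hM
      nlinarith
    have hlt : (24 * μ + 21 : ℝ) * l < 2 * 2 ^ μ := lt_of_pow_lt_pow_left₀ 2 (by positivity) hsq
    have hE : 9 + (6 + 6 * l) * (2 * μ + 1) < 2 * 2 ^ μ := by
      have hmu0 : (0 : ℝ) ≤ μ := Nat.cast_nonneg μ
      have : 9 + (6 + 6 * l) * (2 * μ + 1) ≤ (24 * μ + 21 : ℝ) * l := by nlinarith
      linarith
    have e1 : (64 : ℝ) * Λ ^ 6 = (2 : ℝ) ^ (6 + 6 * l) := by
      rw [Real.rpow_add (by norm_num), mul_comm (6 : ℝ) l, Real.rpow_mul (by norm_num), hΛl]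
      have : (2 : ℝ) ^ (6 : ℝ) = 64 := by
        rw [show (6 : ℝ) = ((6 : ℕ) : ℝ) by norm_num, Real.rpow_natCast]
        norm_num
      rw [this, show (6 : ℝ) = ((6 : ℕ) : ℝ) by norm_num, Real.rpow_natCast]
    have e2 : ((64 : ℝ) * Λ ^ 6) ^ (2 * μ + 1) = (2 : ℝ) ^ ((6 + 6 * l) * (2 * μ + 1)) := by
      rw [e1, Real.rpow_mul (by norm_num), ← Real.rpow_natCast]
      push_cast
      rfl
    have e3 : (512 : ℝ) = (2 : ℝ) ^ (9 : ℝ) := by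
      rw [show (9 : ℝ) = ((9 : ℕ) : ℝ) by norm_num, Real.rpow_natCast]
      norm_num
    have e4 : ((2 * (1 / 8 : ℝ)) ^ (2 ^ μ)) = (2 : ℝ) ^ (-(2 * 2 ^ μ) : ℝ) := by
      have h1 : (2 * (1 / 8 : ℝ)) = (2 : ℝ) ^ (-2 : ℝ) := by
        rw [Real.rpow_neg (by norm_num), show (2 : ℝ) ^ (2 : ℝ) = 4 by
          rw [show (2 : ℝ) = ((2 : ℕ) : ℝ) by norm_num, Real.rpow_natCast]; norm_num]
        norm_num
      rw [h1, ← Real.rpow_natCast, ← Real.rpow_mul (by norm_num)]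
      push_cast
      ring_nf
    rw [e2, e4, e3, ← Real.rpow_add (by norm_num), ← Real.rpow_add (by norm_num)]
    have h5 : (2 : ℝ) ^ (9 + (6 + 6 * l) * (2 * (μ : ℝ) + 1) + -(2 * 2 ^ μ)) < (2 : ℝ) ^ (0 : ℝ) := by
      apply Real.rpow_lt_rpow_of_exponent_lt (by norm_num)
      linarith
    simpa using h5

end Pool.Agent.H43.RH
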