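/-
X2 (NumB).  The logarithmic bounds.  MATHLIB ONLY, about 120 lines.
PROOF.  Λ = 2 H^6, l = logb 2 Λ = 1 + 6 logb 2 H ≤ 10 log H * ... (logb 2 H = log H/log 2, log H ≥ log 16 > 2, so
l ≤ 1 + 9 log H ≤ 10 log H).  2^μ ≤ 800 l² ≤ 80000 (log H)².  m = 2μ+1 ≤ 3 * 2^μ, δ = m 2^m ≤ 3 * 2^μ * 2 * 4^μ = 6 (2^μ)^3.
θ = 1/8: 100/θ² = 6400, logb 2 (2 Λ^3) + 1 = 2 + 3 l ≤ 5 l.  So 96 δ^5 (6400 * 5 l)² ≤ C (log H)^32 with an explicit C, and
2m + 1 = 4μ + 3 ≤ 4 logb 2 (80000 (log H)²) + 3 ≤ C' (1 + log log H) ≤ 2 C' log log H as log log 16 > 1.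
K = max of everything (log H ≥ 1, so (log H)^32 ≤ (log H)^K for K ≥ 32, rpow).
-/
import Pool.Agent.H43.RH.Defs

namespace Pool.Agent.H43.RH

theorem numB : ∃ K : ℝ, 0 < K ∧ ∀ H : ℕ, 16 ≤ H → ∀ μ m δ : ℕ, 1 ≤ μ → m = 2 * μ + 1 → δ = m * 2 ^ m →
    (2 : ℝ) ^ μ ≤ 800 * (Real.logb 2 (2 * (H : ℝ) ^ 6)) ^ 2 →
    96 * (δ : ℝ) ^ 5
        * ((100 / (1 / 8 : ℝ) ^ 2) * (Real.logb 2 (2 * (2 * (H : ℝ) ^ 6) ^ 3) + 1)) ^ 2
      ≤ K * (Real.log H) ^ K ∧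
    ((2 * m + 1 : ℕ) : ℝ) ≤ K * Real.log (Real.log H) := by
  refine ⟨96 * 7776 * 80000 ^ 15 * 320000 ^ 2, by norm_num, ?_⟩
  intro H hH μ m δ hμ hm hδ h2
  have hl2 : (0.6931471803 : ℝ) < Real.log 2 := Real.log_two_gt_d9
  have hl2p : 0 < Real.log 2 := by linarith
  have hHr : (16 : ℝ) ≤ (H : ℝ) := by exact_mod_cast hH
  have hH0 : (0 : ℝ) < (H : ℝ) := by linarith
  have hL16 : 4 * Real.log 2 ≤ Real.log H := by
    have h1 : Real.log 16 ≤ Real.log H := Real.log_le_log (by norm_num) hHr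
    have h3 : Real.log 16 = 4 * Real.log 2 := by
      have h4 : (16 : ℝ) = 2 ^ 4 := by norm_num
      rw [h4, Real.log_pow]; norm_num
    rw [h3] at h1
    exact h1
  set L := Real.log H with hL
  have hL2 : (2.7725 : ℝ) < L := by linarith
  have hL1 : (1 : ℝ) ≤ L := by linarith
  have hL0 : 0 < L := by linarith
  have hll : 1 ≤ Real.log L := by
    rw [Real.le_log_iff_exp_le hL0]
    have := Real.exp_one_lt_d9
    linarith
  -- the logarithm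
  have hlb : Real.logb 2 (2 * (H : ℝ) ^ 6) = 1 + 6 * (L / Real.log 2) := by
    rw [Real.logb_mul (by norm_num) (by positivity), Real.logb_self_eq_one (by norm_num),
      Real.logb_pow]
    rfl
  set l := Real.logb 2 (2 * (H : ℝ) ^ 6) with hl
  have hl1 : 1 ≤ l := by
    rw [hlb]
    have : 0 ≤ L / Real.log 2 := by positivity
    linarith
  have hl10 : l ≤ 10 * L := by
    rw [hlb]
    have h1 : L / Real.log 2 ≤ 1.45 * L := by
      rw [div_le_iff₀ hl2p]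
      nlinarith
    linarith
  have hl0 : 0 ≤ l := by linarith
  have hlsq : l ^ 2 ≤ 100 * L ^ 2 := by
    have : l ^ 2 ≤ (10 * L) ^ 2 := pow_le_pow_left₀ hl0 hl10 2
    calc l ^ 2 ≤ (10 * L) ^ 2 := this
      _ = 100 * L ^ 2 := by ring
  have h2' : (2 : ℝ) ^ μ ≤ 80000 * L ^ 2 := by
    calc (2 : ℝ) ^ μ ≤ 800 * l ^ 2 := h2
      _ ≤ 800 * (100 * L ^ 2) := by linarith
      _ = 80000 * L ^ 2 := by ring
  constructor
  · have hδ6 : (δ : ℝ) ≤ 6 * ((2 : ℝ) ^ μ) ^ 3 := by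
      have hmu : μ ≤ 2 ^ μ := Nat.lt_two_pow_self.le
      have h1 : δ ≤ 6 * (2 ^ μ) ^ 3 := by
        rw [hδ, hm]
        have h3 : 2 * μ + 1 ≤ 3 * 2 ^ μ := by omega
        calc (2 * μ + 1) * 2 ^ (2 * μ + 1) ≤ (3 * 2 ^ μ) * 2 ^ (2 * μ + 1) :=
              Nat.mul_le_mul_right _ h3
          _ = 6 * (2 ^ μ) ^ 3 := by
              rw [pow_succ, pow_mul', ]
              ring
      exact_mod_cast h1
    have hδ0 : (0 : ℝ) ≤ (δ : ℝ) := Nat.cast_nonneg _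
    have hδ5 : (δ : ℝ) ^ 5 ≤ 7776 * (80000 ^ 15 * L ^ 30) := by
      calc (δ : ℝ) ^ 5 ≤ (6 * ((2 : ℝ) ^ μ) ^ 3) ^ 5 := pow_le_pow_left₀ hδ0 hδ6 5
        _ = 7776 * ((2 : ℝ) ^ μ) ^ 15 := by ring
        _ ≤ 7776 * (80000 * L ^ 2) ^ 15 := by
            have : ((2 : ℝ) ^ μ) ^ 15 ≤ (80000 * L ^ 2) ^ 15 :=
              pow_le_pow_left₀ (by positivity) h2' 15
            linarith
        _ = 7776 * (80000 ^ 15 * L ^ 30) := by
            rw [mul_pow, ← pow_mul]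
    have hlog3 : Real.logb 2 (2 * (2 * (H : ℝ) ^ 6) ^ 3) = 1 + 3 * l := by
      rw [Real.logb_mul (by norm_num) (by positivity), Real.logb_self_eq_one (by norm_num),
        Real.logb_pow]
      norm_num
      exact hl.symm
    have hx : (100 / (1 / 8 : ℝ) ^ 2) * (Real.logb 2 (2 * (2 * (H : ℝ) ^ 6) ^ 3) + 1)
        ≤ 320000 * L := by
      rw [hlog3]
      have : (100 / (1 / 8 : ℝ) ^ 2) = 6400 := by norm_num
      rw [this]
      nlinarith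
    have hx0 : 0 ≤ (100 / (1 / 8 : ℝ) ^ 2) * (Real.logb 2 (2 * (2 * (H : ℝ) ^ 6) ^ 3) + 1) := by
      rw [hlog3]
      have : (100 / (1 / 8 : ℝ) ^ 2) = 6400 := by norm_num
      rw [this]
      nlinarith
    have hx2 : ((100 / (1 / 8 : ℝ) ^ 2) * (Real.logb 2 (2 * (2 * (H : ℝ) ^ 6) ^ 3) + 1)) ^ 2
        ≤ 320000 ^ 2 * L ^ 2 := by
      calc _ ≤ (320000 * L) ^ 2 := pow_le_pow_left₀ hx0 hx 2
        _ = 320000 ^ 2 * L ^ 2 := mul_pow _ _ _
    have hrp : L ^ 32 ≤ L ^ ((96 * 7776 * 80000 ^ 15 * 320000 ^ 2 : ℝ)) := by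
      rw [← Real.rpow_natCast]
      exact Real.rpow_le_rpow_of_exponent_le hL1 (by norm_num)
    calc 96 * (δ : ℝ) ^ 5
        * ((100 / (1 / 8 : ℝ) ^ 2) * (Real.logb 2 (2 * (2 * (H : ℝ) ^ 6) ^ 3) + 1)) ^ 2
        ≤ 96 * (7776 * (80000 ^ 15 * L ^ 30)) * (320000 ^ 2 * L ^ 2) := by
          gcongr
      _ = (96 * 7776 * 80000 ^ 15 * 320000 ^ 2) * L ^ 32 := by ring
      _ ≤ (96 * 7776 * 80000 ^ 15 * 320000 ^ 2)
          * L ^ ((96 * 7776 * 80000 ^ 15 * 320000 ^ 2 : ℝ)) :=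
          mul_le_mul_of_nonneg_left hrp (by norm_num)
  · have h3 : (μ : ℝ) * Real.log 2 ≤ 17 * Real.log 2 + 2 * Real.log L := by
      have h4 : Real.log ((2 : ℝ) ^ μ) ≤ Real.log (2 ^ 17 * L ^ 2) := by
        refine Real.log_le_log (by positivity) (h2'.trans ?_)
        have : 0 ≤ L ^ 2 := by positivity
        nlinarith
      rw [Real.log_pow, Real.log_mul (by norm_num) (by positivity), Real.log_pow,
        Real.log_pow] at h4
      push_cast at h4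
      exact h4
    have h5 : (μ : ℝ) ≤ 17 + 3 * Real.log L := by
      by_contra hcon
      push Not at hcon
      have h6 : (17 + 3 * Real.log L) * Real.log 2 < (μ : ℝ) * Real.log 2 :=
        mul_lt_mul_of_pos_right hcon hl2p
      nlinarith
    have h7 : ((2 * m + 1 : ℕ) : ℝ) = 4 * (μ : ℝ) + 3 := by
      rw [hm]; push_cast; ring
    rw [h7]
    have h8 : (83 : ℝ) * Real.log L ≤ 96 * 7776 * 80000 ^ 15 * 320000 ^ 2 * Real.log L :=
      mul_le_mul_of_nonneg_right (by norm_num) (by linarith)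
    linarith

end Pool.Agent.H43.RH
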