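/-
R2 (RedPair).  Integrality of c d |z - w|.  MATHLIB ONLY, about 60 lines.
PROOF.  Put x = c Re z, x' = d Re w (integers), Y = c Im z, Y' = d Im w (squares are naturals y, y').
(c d |z-w|)² = (d x - c x')² + d² Y² + c² Y'² - 2 c d Y Y'.  The left side is rational (|z-w| rational), so
Y Y' is rational (c d ≠ 0); (Y Y')² = y y' is an integer, so Y Y' is an integer (a rational whose square is an
integer is an integer, e.g. `Rat.isInt`/ `IsIntegrallyClosed`, `Rat.den_eq_one...`, or num_den argument).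
So (c d |z-w|)² is an integer, c d |z-w| is rational and nonnegative, hence a natural number.
-/
import Pool.Agent.H43.RH.Defs

namespace Pool.Agent.H43.RH

private theorem rat_of_sq_int (t : ℚ) (n : ℤ) (h : ((t : ℚ) : ℝ) ^ 2 = (n : ℝ)) :
    ∃ m : ℤ, ((t : ℚ) : ℝ) = (m : ℝ) := by
  have h2 : t ^ 2 = (n : ℚ) := by
    have : ((t ^ 2 : ℚ) : ℝ) = ((n : ℚ) : ℝ) := by push_cast; exact h
    exact_mod_cast this
  have h3 : (t ^ 2).den = 1 := by rw [h2]; exact Rat.den_intCast n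
  rw [Rat.den_pow] at h3
  have h4 : t.den = 1 := by
    rcases Nat.pow_eq_one.mp h3 with h | h
    · exact h
    · omega
  refine ⟨t.num, ?_⟩
  have h5 : t = (t.num : ℚ) := ((Rat.den_eq_one_iff t).mp h4).symm
  have : ((t : ℚ) : ℝ) = (((t.num : ℤ) : ℚ) : ℝ) := congrArg (fun u : ℚ => (u : ℝ)) h5
  rw [this]
  push_cast
  rfl

theorem redPair (z w : ℂ) (c d : ℕ) (hc : 1 ≤ c) (hd : 1 ≤ d)
    (hx : ∃ x : ℤ, (c : ℝ) * z.re = x) (hy : ∃ y : ℕ, ((c : ℝ) * z.im) ^ 2 = y)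
    (hx' : ∃ x : ℤ, (d : ℝ) * w.re = x) (hy' : ∃ y : ℕ, ((d : ℝ) * w.im) ^ 2 = y)
    (hq : ∃ q : ℚ, ‖z - w‖ = q) :
    ∃ m : ℕ, (c : ℝ) * d * ‖z - w‖ = m := by
  obtain ⟨x, hx⟩ := hx
  obtain ⟨y, hy⟩ := hy
  obtain ⟨x', hx'⟩ := hx'
  obtain ⟨y', hy'⟩ := hy'
  obtain ⟨q, hq⟩ := hq
  have hc0 : (0 : ℝ) < c := by exact_mod_cast hc
  have hd0 : (0 : ℝ) < d := by exact_mod_cast hd
  have hn : ‖z - w‖ ^ 2 = (z.re - w.re) ^ 2 + (z.im - w.im) ^ 2 := by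
    rw [← Complex.normSq_eq_norm_sq, Complex.normSq_apply, Complex.sub_re, Complex.sub_im]
    ring
  set Y : ℝ := (c : ℝ) * z.im with hY
  set Y' : ℝ := (d : ℝ) * w.im with hY'
  have key : ((c : ℝ) * d * ‖z - w‖) ^ 2
      = ((d : ℝ) * x - c * x') ^ 2 + d ^ 2 * y + c ^ 2 * y' - 2 * c * d * (Y * Y') := by
    have e1 : ((c : ℝ) * d * ‖z - w‖) ^ 2 = (c : ℝ) ^ 2 * d ^ 2 * ‖z - w‖ ^ 2 := by ring
    rw [e1, hn, ← hx, ← hx', ← hy, ← hy', hY, hY']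
    ring
  -- the product is rational
  have hr : ∃ r : ℚ, Y * Y' = (r : ℝ) := by
    refine ⟨(((d : ℚ) * x - c * x') ^ 2 + d ^ 2 * y + c ^ 2 * y' - ((c : ℚ) * d * q) ^ 2) / (2 * c * d), ?_⟩
    push_cast
    rw [eq_div_iff (by positivity)]
    rw [hq] at key
    linarith [key]
  obtain ⟨r, hr⟩ := hr
  have hr2 : ((r : ℚ) : ℝ) ^ 2 = (((y * y' : ℕ) : ℤ) : ℝ) := by
    rw [← hr]
    push_cast
    rw [mul_pow, hy, hy']
  obtain ⟨s, hs⟩ := rat_of_sq_int r _ hr2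
  have hq2 : (((c : ℚ) * d * q : ℚ) : ℝ) ^ 2
      = ((((d : ℤ) * x - c * x') ^ 2 + d ^ 2 * y + c ^ 2 * y' - 2 * c * d * s : ℤ) : ℝ) := by
    push_cast
    rw [hq, hr, hs] at key
    exact key
  obtain ⟨m, hm⟩ := rat_of_sq_int _ _ hq2
  have hm' : (c : ℝ) * d * ‖z - w‖ = (m : ℝ) := by
    rw [hq]
    push_cast at hm
    exact hm
  have hm0 : 0 ≤ m := by
    have : (0 : ℝ) ≤ (m : ℝ) := by
      rw [← hm']
      positivity
    exact_mod_cast this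
  refine ⟨m.toNat, ?_⟩
  rw [hm']
  have : ((m.toNat : ℤ) : ℝ) = (m : ℝ) := by rw [Int.toNat_of_nonneg hm0]
  rw [← this]
  push_cast
  rfl

end Pool.Agent.H43.RH
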