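/-
R1 (RedPt).  A point with |z| = r/e, |z-1| = s/e has 2e² Re z integral and (2e² Im z)² integral.  MATHLIB ONLY, about 40 lines.
PROOF.  |z-1|² = |z|² - 2 Re z + 1, so 2e² Re z = r² - s² + e², an integer.  (2e² Im z)² = 4e⁴ |z|² - (2e² Re z)²
= 4e² r² - (r² - s² + e²)² is an integer and nonnegative.
-/
import Pool.Agent.H43.RH.Defs

namespace Pool.Agent.H43.RH

theorem redPt (z : ℂ) (e r s : ℕ) (he : 1 ≤ e) (h1 : ‖z‖ = (r : ℝ) / e) (h2 : ‖z - 1‖ = (s : ℝ) / e) :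
    (∃ x : ℤ, ((2 * e ^ 2 : ℕ) : ℝ) * z.re = x) ∧
      ∃ y : ℕ, (((2 * e ^ 2 : ℕ) : ℝ) * z.im) ^ 2 = y := by
  have he0 : (e : ℝ) ≠ 0 := by positivity
  have a1 : z.re ^ 2 + z.im ^ 2 = (r : ℝ) ^ 2 / e ^ 2 := by
    have h := Complex.sq_norm z
    rw [Complex.normSq_apply, h1, div_pow] at h
    linarith
  have a2 : (z.re - 1) ^ 2 + z.im ^ 2 = (s : ℝ) ^ 2 / e ^ 2 := by
    have h := Complex.sq_norm (z - 1)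
    rw [Complex.normSq_apply, h2, div_pow] at h
    simp only [Complex.sub_re, Complex.one_re, Complex.sub_im, Complex.one_im, sub_zero] at h
    linarith
  have b1 : (e : ℝ) ^ 2 * (z.re ^ 2 + z.im ^ 2) = (r : ℝ) ^ 2 := by
    rw [a1]; field_simp
  have b2 : (e : ℝ) ^ 2 * ((z.re - 1) ^ 2 + z.im ^ 2) = (s : ℝ) ^ 2 := by
    rw [a2]; field_simp
  have c1 : 2 * (e : ℝ) ^ 2 * z.re = (r : ℝ) ^ 2 - (s : ℝ) ^ 2 + (e : ℝ) ^ 2 := by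
    linarith
  have c2 : (2 * (e : ℝ) ^ 2 * z.im) ^ 2
      = 4 * (e : ℝ) ^ 2 * (r : ℝ) ^ 2 - ((r : ℝ) ^ 2 - (s : ℝ) ^ 2 + (e : ℝ) ^ 2) ^ 2 := by
    rw [← c1, ← b1]; ring
  refine ⟨⟨(r : ℤ) ^ 2 - (s : ℤ) ^ 2 + (e : ℤ) ^ 2, by push_cast; exact c1⟩,
    (4 * (e : ℤ) ^ 2 * (r : ℤ) ^ 2 - ((r : ℤ) ^ 2 - (s : ℤ) ^ 2 + (e : ℤ) ^ 2) ^ 2).toNat, ?_⟩
  have h0 : (0 : ℤ) ≤ 4 * (e : ℤ) ^ 2 * (r : ℤ) ^ 2 - ((r : ℤ) ^ 2 - (s : ℤ) ^ 2 + (e : ℤ) ^ 2) ^ 2 := by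
    have : (0 : ℝ) ≤ 4 * (e : ℝ) ^ 2 * (r : ℝ) ^ 2 - ((r : ℝ) ^ 2 - (s : ℝ) ^ 2 + (e : ℝ) ^ 2) ^ 2 := by
      rw [← c2]; positivity
    exact_mod_cast this
  have h3 : (((4 * (e : ℤ) ^ 2 * (r : ℤ) ^ 2
      - ((r : ℤ) ^ 2 - (s : ℤ) ^ 2 + (e : ℤ) ^ 2) ^ 2).toNat : ℤ) : ℝ)
      = 4 * (e : ℝ) ^ 2 * (r : ℝ) ^ 2 - ((r : ℝ) ^ 2 - (s : ℝ) ^ 2 + (e : ℝ) ^ 2) ^ 2 := by
    rw [Int.toNat_of_nonneg h0]; push_cast; ring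
  rw [Int.cast_natCast] at h3
  rw [h3, ← c2]
  push_cast
  ring

end Pool.Agent.H43.RH
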