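/-
R3 (Red).  Reduction to a normalised configuration.  Needs RedPt, RedPair.  About 80 lines.
PROOF.  φ z = (z - A)/(B - A).  |B - A| = u/v with 1 ≤ u, v ≤ H (Ht for P = B, first distance; u ≥ 1 as A ≠ B).
For P with |P-A| = a/b, |P-B| = a'/b': |φ P| = (a b' v)/(b b' u), |φ P - 1| = (a' b v)/(b b' u), e = b b' u ≤ H³,
c (φ P) = 2 e² ≤ 2 H⁶ (choose for every point of the image such an e; use `Classical.choose` / `choose` over the
image, c z = 2 e(z)^2, c z = 0 outside is fine).  |φ P| = a v/(b u) ≤ H² ≤ 2 H⁶.  1 ≤ H because b ≤ H.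
Distances: |φ P - φ Q| = |P - Q|/|B - A| rational.  redPt and redPair give the rest.
-/
import Pool.Agent.H43.RH.RedPt
import Pool.Agent.H43.RH.RedPair

namespace Pool.Agent.H43.RH

/-- data for one point of the image -/
private theorem point_aux (A B P : ℂ) (hAB : A ≠ B) (H : ℕ) (hB : Ht H ‖B - A‖)
    (h1 : Ht H ‖P - A‖) (h2 : Ht H ‖P - B‖) :
    ∃ e r s : ℕ, 1 ≤ e ∧ e ≤ H ^ 3 ∧ ‖(P - A) / (B - A)‖ = (r : ℝ) / e ∧
      ‖(P - A) / (B - A) - 1‖ = (s : ℝ) / e ∧ ‖(P - A) / (B - A)‖ ≤ (H : ℝ) ^ 2 := by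
  obtain ⟨u, v, hv, huH, hvH, huv⟩ := hB
  obtain ⟨a, b, hb, haH, hbH, hab⟩ := h1
  obtain ⟨a', b', hb', haH', hbH', hab'⟩ := h2
  have hBA : B - A ≠ 0 := sub_ne_zero.2 (Ne.symm hAB)
  have hpos : 0 < ‖B - A‖ := norm_pos_iff.2 hBA
  have hv0 : (0 : ℝ) < v := by exact_mod_cast hv
  have hb0 : (0 : ℝ) < b := by exact_mod_cast hb
  have hb0' : (0 : ℝ) < b' := by exact_mod_cast hb'
  have hu0 : (0 : ℝ) < u := by
    rcases Nat.eq_zero_or_pos u with h | h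
    · rw [huv, h] at hpos
      simp at hpos
    · exact_mod_cast h
  have hu1 : 1 ≤ u := by exact_mod_cast hu0
  have hn1 : ‖(P - A) / (B - A)‖ = ((a : ℝ) / b) / ((u : ℝ) / v) := by
    rw [norm_div, hab, huv]
  have hn2 : ‖(P - A) / (B - A) - 1‖ = ((a' : ℝ) / b') / ((u : ℝ) / v) := by
    have h3 : (P - A) / (B - A) - 1 = (P - B) / (B - A) := by
      field_simp
      ring
    rw [h3, norm_div, hab', huv]
  refine ⟨b * b' * u, a * b' * v, a' * b * v, ?_, ?_, ?_, ?_, ?_⟩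
  · exact Nat.mul_pos (Nat.mul_pos hb hb') hu1
  · calc b * b' * u ≤ H * H * H := Nat.mul_le_mul (Nat.mul_le_mul hbH hbH') huH
      _ = H ^ 3 := by ring
  · rw [hn1]
    push_cast
    field_simp
  · rw [hn2]
    push_cast
    field_simp
  · rw [hn1]
    have ha' : (a : ℝ) ≤ H := by exact_mod_cast haH
    have hv' : (v : ℝ) ≤ H := by exact_mod_cast hvH
    have hb1 : (1 : ℝ) ≤ b := by exact_mod_cast hb
    have hu1' : (1 : ℝ) ≤ u := by exact_mod_cast hu1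
    have h4 : ((a : ℝ) / b) / ((u : ℝ) / v) = (a * v) / (b * u) := by field_simp
    rw [h4]
    have h5 : (1 : ℝ) ≤ b * u := by nlinarith
    calc ((a : ℝ) * v) / (b * u) ≤ (a * v) / 1 :=
          div_le_div_of_nonneg_left (by positivity) one_pos h5
      _ = a * v := div_one _
      _ ≤ H * H := mul_le_mul ha' hv' hv0.le (by positivity)
      _ = (H : ℝ) ^ 2 := by ring

theorem red (T : Finset ℂ) (hT : RatDist (T : Set ℂ)) (A B : ℂ) (hA : A ∈ T) (hB : B ∈ T)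
    (hAB : A ≠ B) (H : ℕ) (hH : ∀ P ∈ T, Ht H ‖P - A‖ ∧ Ht H ‖P - B‖) :
    ∃ c : ℂ → ℕ, Cfg (T.image fun z => (z - A) / (B - A)) c (2 * (H : ℝ) ^ 6) := by
  classical
  have hBA : B - A ≠ 0 := sub_ne_zero.2 (Ne.symm hAB)
  have hH1 : 1 ≤ H := by
    obtain ⟨a, b, hb, _, hbH, _⟩ := (hH B hB).1
    omega
  have hHr : (1 : ℝ) ≤ H := by exact_mod_cast hH1
  have hkey : ∀ w : ℂ, ∃ e : ℕ, (w ∈ T.image fun z => (z - A) / (B - A)) →
      ∃ r s : ℕ, 1 ≤ e ∧ e ≤ H ^ 3 ∧ ‖w‖ = (r : ℝ) / e ∧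
      ‖w - 1‖ = (s : ℝ) / e ∧ ‖w‖ ≤ (H : ℝ) ^ 2 := by
    intro w
    by_cases hw : w ∈ T.image fun z => (z - A) / (B - A)
    · have hw2 := hw
      rw [Finset.mem_image] at hw2
      obtain ⟨P, hP, rfl⟩ := hw2
      obtain ⟨e, r, s, h⟩ := point_aux A B P hAB H (hH B hB).1 (hH P hP).1 (hH P hP).2
      exact ⟨e, fun _ => ⟨r, s, h⟩⟩
    · exact ⟨0, fun h => absurd h hw⟩
  choose e he using hkey
  refine ⟨fun w => 2 * e w ^ 2, ?_, ?_, ?_, ?_, ?_⟩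
  · have h6 : (1 : ℝ) ≤ (H : ℝ) ^ 6 := one_le_pow₀ hHr
    linarith
  · intro w hw
    obtain ⟨r, s, h1, _⟩ := he w hw
    have := Nat.pow_pos (n := 2) h1
    omega
  · intro w hw
    obtain ⟨r, s, h1, h2, _⟩ := he w hw
    push_cast
    have h3 : ((e w : ℕ) : ℝ) ≤ (H : ℝ) ^ 3 := by exact_mod_cast h2
    have h4 : ((e w : ℕ) : ℝ) ^ 2 ≤ ((H : ℝ) ^ 3) ^ 2 := pow_le_pow_left₀ (by positivity) h3 2
    have h5 : ((H : ℝ) ^ 3) ^ 2 = (H : ℝ) ^ 6 := by ring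
    linarith
  · intro w hw
    obtain ⟨r, s, _, _, _, _, h5⟩ := he w hw
    have h6 : (H : ℝ) ^ 2 ≤ (H : ℝ) ^ 6 := pow_le_pow_right₀ hHr (by norm_num)
    have h7 : (0 : ℝ) ≤ (H : ℝ) ^ 6 := by positivity
    linarith
  · intro w hw w' hw'
    obtain ⟨r, s, h1, h2, h3, h4, h5⟩ := he w hw
    obtain ⟨r', s', h1', h2', h3', h4', h5'⟩ := he w' hw'
    have hp := redPt w (e w) r s h1 h3 h4
    have hp' := redPt w' (e w') r' s' h1' h3' h4'
    have hq : ∃ q : ℚ, ‖w - w'‖ = q := by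
      rw [Finset.mem_image] at hw hw'
      obtain ⟨P, hP, hPw⟩ := hw
      obtain ⟨Q, hQ, hQw⟩ := hw'
      obtain ⟨q1, hq1⟩ := hT P (by exact_mod_cast hP) Q (by exact_mod_cast hQ)
      obtain ⟨q2, hq2⟩ := hT B (by exact_mod_cast hB) A (by exact_mod_cast hA)
      refine ⟨q1 / q2, ?_⟩
      have h8 : w - w' = (P - Q) / (B - A) := by
        rw [← hPw, ← hQw]
        field_simp
        ring
      rw [h8, norm_div, hq1, hq2]
      push_cast
      rfl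
    have hc : 1 ≤ 2 * e w ^ 2 := by
      have := Nat.pow_pos (n := 2) h1
      omega
    have hc' : 1 ≤ 2 * e w' ^ 2 := by
      have := Nat.pow_pos (n := 2) h1'
      omega
    exact redPair w w' (2 * e w ^ 2) (2 * e w' ^ 2) hc hc' hp.1 hp.2 hp'.1 hp'.2 hq

end Pool.Agent.H43.RH
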