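/-
M1 (Main1).  The dichotomy.  Needs Red, Core, NumA, NumB, Trans, FinSH.  About 80 lines.
PROOF.  T = (finSH ..).toFinset contains A and B (Ht H 0 and Ht H |A - B|).  red: Cfg (T.image φ) c (2 H^6), φ z = (z-A)/(B-A).
numA with Λ = 2 H^6 gives μ; core with θ = 1/8.  Second alternative: card (image) = card T (φ injective) and numB.
First alternative: GC α γ β; trans gives GC α' γ' β' =: Γ (isLC_of_GC); the points of T outside Γ have images outside GC α γ β, so there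
are at most 2m + 1 ≤ K log log H of them (numB).
-/
import Pool.Agent.H43.RH.Red
import Pool.Agent.H43.RH.Core
import Pool.Agent.H43.RH.NumA
import Pool.Agent.H43.RH.NumB
import Pool.Agent.H43.RH.Trans
import Pool.Agent.H43.RH.FinSH

namespace Pool.Agent.H43.RH

/-- the general dichotomy for the normalised parameters, in the original coordinates -/
theorem dich (S : Set ℂ) (hS : RatDist S) (A B : ℂ) (hA : A ∈ S) (hB : B ∈ S) (hAB : A ≠ B) (H : ℕ)
    (hH : 1 ≤ H) (hAH : Ht H ‖A - B‖) (μ m δ : ℕ) (hμ : 1 ≤ μ)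
    (hm : m = 2 * μ + 1) (hδ : δ = m * 2 ^ m) (θ : ℝ) (hθ : 0 < θ) (hθ1 : θ ≤ 1 / 4)
    (hnum : 512 * (64 * (2 * (H : ℝ) ^ 6) ^ 6) ^ m * (2 * θ) ^ (2 ^ μ) < 1) :
    (∃ Γ : Set ℂ, IsLC Γ ∧ (SH S A B H \ Γ).ncard ≤ 2 * m + 1) ∨
    ((SH S A B H).ncard : ℝ)
      ≤ 96 * (δ : ℝ) ^ 5 * ((100 / θ ^ 2) * (Real.logb 2 (2 * (2 * (H : ℝ) ^ 6) ^ 3) + 1)) ^ 2 := by
  classical
  have hfin := finSH S A B hAB H
  have hBA : B - A ≠ 0 := sub_ne_zero.2 (Ne.symm hAB)
  have hmem : ∀ P, P ∈ hfin.toFinset ↔ P ∈ SH S A B H := fun P => hfin.mem_toFinset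
  have h0 : Ht H 0 := ⟨0, 1, le_refl 1, Nat.zero_le _, hH, by simp⟩
  have hAT : A ∈ hfin.toFinset := by
    rw [hmem]
    refine ⟨hA, ?_, hAH⟩
    rw [sub_self, norm_zero]
    exact h0
  have hBT : B ∈ hfin.toFinset := by
    rw [hmem]
    refine ⟨hB, ?_, ?_⟩
    · rw [norm_sub_rev]
      exact hAH
    · rw [sub_self, norm_zero]
      exact h0
  have hT : RatDist (hfin.toFinset : Set ℂ) := by
    intro P hP Q hQ
    rw [Finset.mem_coe, hmem] at hP hQ
    exact hS P hP.1 Q hQ.1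
  have hHt : ∀ P ∈ hfin.toFinset, Ht H ‖P - A‖ ∧ Ht H ‖P - B‖ := by
    intro P hP
    rw [hmem] at hP
    exact hP.2
  have hinj : Function.Injective fun z : ℂ => (z - A) / (B - A) := by
    intro z w hzw
    simp only at hzw
    field_simp at hzw
    exact sub_left_inj.1 hzw
  obtain ⟨c, hC⟩ := red hfin.toFinset hT A B hAT hBT hAB H hHt
  rcases core _ c _ hC μ m δ hμ hm hδ θ hθ hθ1 hnum with h | h
  · left
    obtain ⟨α, γ, β, hβ, hE⟩ := h
    obtain ⟨α', γ', β', hβ', hz⟩ := trans A B hAB α γ β hβ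
    refine ⟨GC α' γ' β', isLC_of_GC α' γ' β' hβ', ?_⟩
    have h1 : ((hfin.toFinset.filter (fun P => P ∉ GC α' γ' β')).image
        fun z => (z - A) / (B - A)).card ≤ 2 * m + 1 := by
      apply hE
      · exact Finset.image_subset_image (Finset.filter_subset _ _)
      · intro p hp
        rw [Finset.mem_image] at hp
        obtain ⟨P, hP, rfl⟩ := hp
        rw [Finset.mem_filter] at hP
        exact fun h2 => hP.2 ((hz P).2 h2)
    rw [Finset.card_image_of_injective _ hinj] at h1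
    have h2 : SH S A B H \ GC α' γ' β'
        = ((hfin.toFinset.filter (fun P => P ∉ GC α' γ' β') : Finset ℂ) : Set ℂ) := by
      ext P
      rw [Finset.mem_coe, Finset.mem_filter, hmem]
      exact Iff.rfl
    rw [h2, Set.ncard_coe_finset]
    exact h1
  · right
    rw [Finset.card_image_of_injective _ hinj] at h
    rw [Set.ncard_eq_toFinset_card _ hfin]
    exact h

theorem main1 : ∃ K : ℝ, 0 < K ∧ ∀ S : Set ℂ, RatDist S → ∀ A ∈ S, ∀ B ∈ S, A ≠ B →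
    ∀ H : ℕ, 16 ≤ H → Ht H ‖A - B‖ →
      ((SH S A B H).ncard : ℝ) ≤ K * (Real.log H) ^ K ∨
      ∃ Γ : Set ℂ, IsLC Γ ∧ ((SH S A B H \ Γ).ncard : ℝ) ≤ K * Real.log (Real.log H) := by
  obtain ⟨K, hK, hnB⟩ := numB
  refine ⟨K, hK, ?_⟩
  intro S hS A hA B hB hAB H hH hAH
  have hH1 : (1 : ℝ) ≤ H := by
    have : 1 ≤ H := by omega
    exact_mod_cast this
  have hΛ : (2 : ℝ) ≤ 2 * (H : ℝ) ^ 6 := by
    have := one_le_pow₀ (n := 6) hH1
    linarith
  obtain ⟨μ, hμ, hμ2, hnum⟩ := numA _ hΛ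
  obtain ⟨hb1, hb2⟩ := hnB H hH μ (2 * μ + 1) ((2 * μ + 1) * 2 ^ (2 * μ + 1)) hμ rfl rfl hμ2
  rcases dich S hS A B hA hB hAB H (by omega) hAH μ (2 * μ + 1) ((2 * μ + 1) * 2 ^ (2 * μ + 1)) hμ
    rfl rfl (1 / 8) (by norm_num) (by norm_num) hnum with h | h
  · right
    obtain ⟨Γ, hΓ, hc⟩ := h
    refine ⟨Γ, hΓ, le_trans ?_ hb2⟩
    exact_mod_cast hc
  · left
    exact h.trans hb1

end Pool.Agent.H43.RH
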