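/-
T4 (Uniq).  Three distinct points determine the line or circle.  MATHLIB ONLY, about 70 lines.
PROOF.  For P on both curves put v = P - x.  With b = α x̄ + β the equation of P minus the equation of x is α |v|² + 2 Re (b v) = 0, and
|b|² = |β|² - αγ > 0.  For v1 = y - x, v2 = z - x (not 0, different) divide by |v|²: α + 2 Re (b u) = 0 with u = v/|v|² = 1/conj v,
so Re (b (u1 - u2)) = 0 with u1 ≠ u2, i.e. b = i s conj(u1 - u2) with s real, s ≠ 0 (b ≠ 0), and α = - 2 Re (b u1).  The same for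
(α', b') with s'.  So (α', b') = t (α, b) with t = s'/s ≠ 0 real, and the equations (in the form α |P-x|² + 2 Re (b (P - x)) = 0)
define the same set.
-/
import Pool.Agent.H43.RH.Defs

namespace Pool.Agent.H43.RH

private lemma uq_mem (α γ : ℝ) (β z : ℂ) : z ∈ GC α γ β ↔
    α * (z.re ^ 2 + z.im ^ 2) + 2 * (β.re * z.re - β.im * z.im) + γ = 0 := by
  unfold GC
  rw [Set.mem_ofPred_eq, Complex.sq_norm, Complex.normSq_apply, Complex.mul_re]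
  constructor <;> intro h <;> nlinarith [h]

private lemma uq_key {v1 v2 v1' v2' α b1 b2 : ℝ} (hw : (v1' ^ 2 + v2' ^ 2) * v1 -
    (v1 ^ 2 + v2 ^ 2) * v1' ≠ 0 ∨ (v1' ^ 2 + v2' ^ 2) * v2 - (v1 ^ 2 + v2 ^ 2) * v2' ≠ 0)
    (h1 : α * (v1 ^ 2 + v2 ^ 2) + 2 * (b1 * v1 - b2 * v2) = 0)
    (h2 : α * (v1' ^ 2 + v2' ^ 2) + 2 * (b1 * v1' - b2 * v2') = 0) :
    ∃ s : ℝ, b1 = s * ((v1' ^ 2 + v2' ^ 2) * v2 - (v1 ^ 2 + v2 ^ 2) * v2') ∧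
      b2 = s * ((v1' ^ 2 + v2' ^ 2) * v1 - (v1 ^ 2 + v2 ^ 2) * v1') := by
  obtain ⟨w1, hw1⟩ : ∃ w1, w1 = (v1' ^ 2 + v2' ^ 2) * v1 - (v1 ^ 2 + v2 ^ 2) * v1' := ⟨_, rfl⟩
  obtain ⟨w2, hw2⟩ : ∃ w2, w2 = (v1' ^ 2 + v2' ^ 2) * v2 - (v1 ^ 2 + v2 ^ 2) * v2' := ⟨_, rfl⟩
  rw [← hw1, ← hw2] at hw ⊢
  have h3 : b1 * w1 = b2 * w2 := by
    rw [hw1, hw2]
    linear_combination (v1' ^ 2 + v2' ^ 2) / 2 * h1 - (v1 ^ 2 + v2 ^ 2) / 2 * h2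
  have h4 : w1 ^ 2 + w2 ^ 2 ≠ 0 := by
    rcases hw with h | h
    · have := sq_nonneg w2
      have := pow_pos (abs_pos.2 h) 2
      rw [sq_abs] at this
      exact ne_of_gt (by linarith)
    · have := sq_nonneg w1
      have := pow_pos (abs_pos.2 h) 2
      rw [sq_abs] at this
      exact ne_of_gt (by linarith)
  refine ⟨(b1 * w2 + b2 * w1) / (w1 ^ 2 + w2 ^ 2), ?_, ?_⟩
  · rw [div_mul_eq_mul_div, eq_div_iff h4]
    linear_combination w1 * h3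
  · rw [div_mul_eq_mul_div, eq_div_iff h4]
    linear_combination -w2 * h3

private lemma uq_main (α γ : ℝ) (β x y z : ℂ) (hβ : α * γ < ‖β‖ ^ 2) (hxy : x ≠ y) (hxz : x ≠ z)
    (hyz : y ≠ z) (hx : x ∈ GC α γ β) (hy : y ∈ GC α γ β) (hz : z ∈ GC α γ β) (P : ℂ) :
    P ∈ GC α γ β ↔
      -2 * ((((z.re - x.re) ^ 2 + (z.im - x.im) ^ 2) * (y.im - x.im) -
        ((y.re - x.re) ^ 2 + (y.im - x.im) ^ 2) * (z.im - x.im)) * (y.re - x.re) -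
        (((z.re - x.re) ^ 2 + (z.im - x.im) ^ 2) * (y.re - x.re) -
        ((y.re - x.re) ^ 2 + (y.im - x.im) ^ 2) * (z.re - x.re)) * (y.im - x.im)) *
        ((P.re - x.re) ^ 2 + (P.im - x.im) ^ 2) +
      2 * ((y.re - x.re) ^ 2 + (y.im - x.im) ^ 2) *
        ((((z.re - x.re) ^ 2 + (z.im - x.im) ^ 2) * (y.im - x.im) -
        ((y.re - x.re) ^ 2 + (y.im - x.im) ^ 2) * (z.im - x.im)) * (P.re - x.re) -
        (((z.re - x.re) ^ 2 + (z.im - x.im) ^ 2) * (y.re - x.re) -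
        ((y.re - x.re) ^ 2 + (y.im - x.im) ^ 2) * (z.re - x.re)) * (P.im - x.im)) = 0 := by
  rw [uq_mem] at hx hy hz ⊢
  rw [Complex.sq_norm, Complex.normSq_apply] at hβ
  have hne : ∀ {a b : ℂ}, a ≠ b → 0 < (b.re - a.re) ^ 2 + (b.im - a.im) ^ 2 := by
    intro a b hab
    by_contra hcon
    apply hab
    have e1 := sq_nonneg (b.re - a.re)
    have e2 := sq_nonneg (b.im - a.im)
    have e3 : (b.re - a.re) ^ 2 = 0 := by linarith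
    have e4 : (b.im - a.im) ^ 2 = 0 := by linarith
    refine Complex.ext ?_ ?_
    · have := pow_eq_zero_iff (two_ne_zero) |>.1 e3
      linarith
    · have := pow_eq_zero_iff (two_ne_zero) |>.1 e4
      linarith
  have hn1 := hne hxy
  have hn2 := hne hxz
  have hn3 := hne hyz
  obtain ⟨v1, hv1⟩ : ∃ v1, v1 = y.re - x.re := ⟨_, rfl⟩
  obtain ⟨v2, hv2⟩ : ∃ v2, v2 = y.im - x.im := ⟨_, rfl⟩
  obtain ⟨v1', hv1'⟩ : ∃ v1', v1' = z.re - x.re := ⟨_, rfl⟩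
  obtain ⟨v2', hv2'⟩ : ∃ v2', v2' = z.im - x.im := ⟨_, rfl⟩
  have hw : (v1' ^ 2 + v2' ^ 2) * v1 - (v1 ^ 2 + v2 ^ 2) * v1' ≠ 0 ∨
      (v1' ^ 2 + v2' ^ 2) * v2 - (v1 ^ 2 + v2 ^ 2) * v2' ≠ 0 := by
    by_contra hcon
    push Not at hcon
    obtain ⟨c1, c2⟩ := hcon
    rw [← hv1, ← hv2] at hn1
    rw [← hv1', ← hv2'] at hn2
    have h5 : (v1' ^ 2 + v2' ^ 2) * (v1' ^ 2 + v2' ^ 2) * (v1 ^ 2 + v2 ^ 2) =
        (v1 ^ 2 + v2 ^ 2) * (v1 ^ 2 + v2 ^ 2) * (v1' ^ 2 + v2' ^ 2) := by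
      have d1 : (v1' ^ 2 + v2' ^ 2) * v1 = (v1 ^ 2 + v2 ^ 2) * v1' := by linarith
      have d2 : (v1' ^ 2 + v2' ^ 2) * v2 = (v1 ^ 2 + v2 ^ 2) * v2' := by linarith
      calc (v1' ^ 2 + v2' ^ 2) * (v1' ^ 2 + v2' ^ 2) * (v1 ^ 2 + v2 ^ 2)
          = ((v1' ^ 2 + v2' ^ 2) * v1) ^ 2 + ((v1' ^ 2 + v2' ^ 2) * v2) ^ 2 := by ring
        _ = ((v1 ^ 2 + v2 ^ 2) * v1') ^ 2 + ((v1 ^ 2 + v2 ^ 2) * v2') ^ 2 := by rw [d1, d2]
        _ = _ := by ring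
    have h6 : v1' ^ 2 + v2' ^ 2 = v1 ^ 2 + v2 ^ 2 := by
      have h7 : (v1' ^ 2 + v2' ^ 2) * (v1 ^ 2 + v2 ^ 2) * (v1' ^ 2 + v2' ^ 2) =
          (v1' ^ 2 + v2' ^ 2) * (v1 ^ 2 + v2 ^ 2) * (v1 ^ 2 + v2 ^ 2) := by
        linear_combination h5
      exact mul_left_cancel₀ (mul_pos hn2 hn1).ne' h7
    rw [h6] at c1 c2
    have c3 : v1 = v1' := by
      have : (v1 ^ 2 + v2 ^ 2) * v1 = (v1 ^ 2 + v2 ^ 2) * v1' := by linarith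
      exact mul_left_cancel₀ hn1.ne' this
    have c4 : v2 = v2' := by
      have : (v1 ^ 2 + v2 ^ 2) * v2 = (v1 ^ 2 + v2 ^ 2) * v2' := by linarith
      exact mul_left_cancel₀ hn1.ne' this
    have c5 : z.re - y.re = 0 := by linarith
    have c6 : z.im - y.im = 0 := by linarith
    rw [c5, c6] at hn3
    norm_num at hn3
  have e1 : α * (v1 ^ 2 + v2 ^ 2) + 2 * ((α * x.re + β.re) * v1 - (-α * x.im + β.im) * v2) = 0 := by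
    rw [hv1, hv2]
    linear_combination hy - hx
  have e2 : α * (v1' ^ 2 + v2' ^ 2) +
      2 * ((α * x.re + β.re) * v1' - (-α * x.im + β.im) * v2') = 0 := by
    rw [hv1', hv2']
    linear_combination hz - hx
  obtain ⟨s, hs1, hs2⟩ := uq_key hw e1 e2
  have hs : s ≠ 0 := by
    rintro rfl
    rw [zero_mul] at hs1 hs2
    have h8 : (α * x.re + β.re) ^ 2 + (-α * x.im + β.im) ^ 2 = β.re * β.re + β.im * β.im - α * γ := by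
      linear_combination α * hx
    rw [hs1, hs2] at h8
    linarith
  rw [← hv1, ← hv2, ← hv1', ← hv2']
  rw [← hv1, ← hv2] at hn1
  obtain ⟨w1, hw1⟩ : ∃ w1, w1 = (v1' ^ 2 + v2' ^ 2) * v1 - (v1 ^ 2 + v2 ^ 2) * v1' := ⟨_, rfl⟩
  obtain ⟨w2, hw2⟩ : ∃ w2, w2 = (v1' ^ 2 + v2' ^ 2) * v2 - (v1 ^ 2 + v2 ^ 2) * v2' := ⟨_, rfl⟩
  rw [← hw1] at hs2 ⊢
  rw [← hw2] at hs1 ⊢
  have h9 : (v1 ^ 2 + v2 ^ 2) * (α * (P.re ^ 2 + P.im ^ 2) + 2 * (β.re * P.re - β.im * P.im) + γ) =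
      s * (-2 * (w2 * v1 - w1 * v2) * ((P.re - x.re) ^ 2 + (P.im - x.im) ^ 2) +
        2 * (v1 ^ 2 + v2 ^ 2) * (w2 * (P.re - x.re) - w1 * (P.im - x.im))) := by
    have e3 : α * (v1 ^ 2 + v2 ^ 2) = -2 * s * (w2 * v1 - w1 * v2) := by
      rw [hs1, hs2] at e1
      linear_combination e1
    linear_combination (v1 ^ 2 + v2 ^ 2) * hx +
      ((P.re - x.re) ^ 2 + (P.im - x.im) ^ 2) * e3 +
      2 * (v1 ^ 2 + v2 ^ 2) * (P.re - x.re) * hs1 - 2 * (v1 ^ 2 + v2 ^ 2) * (P.im - x.im) * hs2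
  constructor
  · intro h
    rw [h, mul_zero] at h9
    exact (mul_eq_zero.1 h9.symm).resolve_left hs
  · intro h
    rw [h, mul_zero] at h9
    exact (mul_eq_zero.1 h9).resolve_left hn1.ne'

theorem uniq (α γ α' γ' : ℝ) (β β' : ℂ) (hβ : α * γ < ‖β‖ ^ 2) (hβ' : α' * γ' < ‖β'‖ ^ 2)
    (x y z : ℂ) (hxy : x ≠ y) (hxz : x ≠ z) (hyz : y ≠ z)
    (hx : x ∈ GC α γ β) (hy : y ∈ GC α γ β) (hz : z ∈ GC α γ β)
    (hx' : x ∈ GC α' γ' β') (hy' : y ∈ GC α' γ' β') (hz' : z ∈ GC α' γ' β') :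
    GC α γ β = GC α' γ' β' := by
  ext P
  rw [uq_main α γ β x y z hβ hxy hxz hyz hx hy hz P,
    uq_main α' γ' β' x y z hβ' hxy hxz hyz hx' hy' hz' P]

end Pool.Agent.H43.RH
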