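/-
T5 (Missing).  A finite subset which misses k points of every line and circle.  Needs Uniq, Trans.  About 100 lines.
PROOF.  S is infinite (there is some line or circle).  F0 ⊆ S with k + 3 points.  For every triple t = (x, y, z) of distinct points of
F0 choose (if it exists) a line or circle Γ_t containing them and a set G_t ⊆ S \ Γ_t with k points (Set.Infinite.exists_subset_card_eq);
F = F0 ∪ all G_t.  Let Γ be a line or circle.  If Γ contains at most 2 points of F0, it misses ≥ k + 1 points of F0.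
Otherwise it contains a triple t, Γ = Γ_t (uniq with GC_of_isLC), and it misses the k points of G_t.
-/
import Pool.Agent.H43.RH.Uniq
import Pool.Agent.H43.RH.Trans

namespace Pool.Agent.H43.RH

theorem missing (S : Set ℂ) (hS : ∀ Γ : Set ℂ, IsLC Γ → (S \ Γ).Infinite) (k : ℕ) :
    ∃ F : Finset ℂ, (F : Set ℂ) ⊆ S ∧ ∀ Γ : Set ℂ, IsLC Γ →
      ∃ E ⊆ F, (∀ p ∈ E, p ∉ Γ) ∧ k ≤ E.card := by
  classical
  have hSinf : S.Infinite :=
    (hS (Metric.sphere (0 : ℂ) 1) (Or.inr ⟨0, 1, one_pos, rfl⟩)).mono Set.sdiff_subset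
  obtain ⟨F0, hF0S, hF0c⟩ := hSinf.exists_subset_card_eq (k + 3)
  have h : ∀ t : ℂ × ℂ × ℂ, ∃ G : Finset ℂ, (G : Set ℂ) ⊆ S ∧
      (t.1 ≠ t.2.1 → t.1 ≠ t.2.2 → t.2.1 ≠ t.2.2 → ∀ Γ : Set ℂ, IsLC Γ → t.1 ∈ Γ → t.2.1 ∈ Γ →
        t.2.2 ∈ Γ → (∀ p ∈ G, p ∉ Γ) ∧ k ≤ G.card) := by
    rintro ⟨x, y, z⟩
    by_cases hex : ∃ Γ : Set ℂ, IsLC Γ ∧ x ∈ Γ ∧ y ∈ Γ ∧ z ∈ Γ
    · obtain ⟨Γ0, hΓ0, hx, hy, hz⟩ := hex
      obtain ⟨G, hG, hGc⟩ := (hS Γ0 hΓ0).exists_subset_card_eq k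
      refine ⟨G, fun p hp => (hG hp).1, ?_⟩
      intro hxy hxz hyz Γ hΓ hx' hy' hz'
      have hEq : Γ0 = Γ := by
        obtain ⟨α, γ, β, hβ, rfl⟩ := GC_of_isLC Γ0 hΓ0
        obtain ⟨α', γ', β', hβ', rfl⟩ := GC_of_isLC Γ hΓ
        exact uniq α γ α' γ' β β' hβ hβ' x y z hxy hxz hyz hx hy hz hx' hy' hz'
      subst hEq
      exact ⟨fun p hp => (hG hp).2, hGc.ge⟩
    · refine ⟨∅, by simp, ?_⟩
      intro hxy hxz hyz Γ hΓ hx' hy' hz'
      exact absurd ⟨Γ, hΓ, hx', hy', hz'⟩ hex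
  choose G hGS hG using h
  refine ⟨F0 ∪ (F0 ×ˢ F0 ×ˢ F0).biUnion G, ?_, ?_⟩
  · intro p hp
    rw [Finset.coe_union, Set.mem_union] at hp
    rcases hp with hp | hp
    · exact hF0S hp
    · rw [Finset.mem_coe, Finset.mem_biUnion] at hp
      obtain ⟨t, _, ht⟩ := hp
      exact hGS t ht
  · intro Γ hΓ
    by_cases hk : k ≤ (F0.filter (fun p => p ∉ Γ)).card
    · refine ⟨F0.filter (fun p => p ∉ Γ), ?_, fun p hp => (Finset.mem_filter.1 hp).2, hk⟩
      exact (Finset.filter_subset _ _).trans Finset.subset_union_left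
    · have hsum := Finset.card_filter_add_card_filter_not (s := F0) (fun p => p ∈ Γ)
      have h2 : 2 < (F0.filter (fun p => p ∈ Γ)).card := by omega
      rw [Finset.two_lt_card] at h2
      obtain ⟨x, hx, y, hy, z, hz, hxy, hxz, hyz⟩ := h2
      rw [Finset.mem_filter] at hx hy hz
      have h3 := hG (x, y, z) hxy hxz hyz Γ hΓ hx.2 hy.2 hz.2
      refine ⟨G (x, y, z), ?_, h3.1, h3.2⟩
      intro p hp
      apply Finset.mem_union_right
      rw [Finset.mem_biUnion]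
      refine ⟨(x, y, z), ?_, hp⟩
      simp only [Finset.mem_product]
      exact ⟨hx.1, hy.1, hz.1⟩

end Pool.Agent.H43.RH
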