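/-
X3 (NumC).  Choice of μ and θ for the power bound.  MATHLIB ONLY, about 120 lines.
PROOF.  Given ε > 0 choose μ ≥ 1 with 24 (2μ+1)/2^μ * 6 ≤ ε/2 (possible: (2μ+1)/2^μ → 0).  m = 2μ+1, n = 2^μ, Λ = 2 H^6.
θ := (1/2) (1/(1024 (64 Λ^6)^m))^(1/n) (rpow).  Then 0 < θ, (2θ)^n = 1/(1024 (64 Λ^6)^m), so hnum holds (512/1024 < 1), and
θ ≤ 1/4 if (1024 (64Λ^6)^m)^(1/n) ≥ 2, which may fail for large n: so take θ := min of this and 1/4 (min keeps hnum: smaller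
θ is fine).  1/θ² ≤ 16 + 4 (1024 (64 Λ^6)^m)^(2/n) ≤ C Λ^(12 m/n) with C = C(μ) (Λ ≥ 2).
96 δ^5 ((100/θ²)(logb 2 (2Λ³)+1))² ≤ C' Λ^(24 m/n) (logb 2 (2Λ^3) + 1)² ≤ C'' H^(144 m/n) (1 + log H)² ≤ C''' H^ε, because
144 (2μ+1)/2^μ ≤ ε/2 and (1 + log H)² ≤ C H^(ε/2) (Real.log_le_rpow_div or isLittleO).
-/
import Pool.Agent.H43.RH.Defs

namespace Pool.Agent.H43.RH

theorem numC (ε : ℝ) (hε : 0 < ε) : ∃ μ : ℕ, 1 ≤ μ ∧ ∃ C : ℝ, 0 < C ∧ ∀ m δ : ℕ, m = 2 * μ + 1 →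
    δ = m * 2 ^ m → ∀ H : ℕ, 1 ≤ H → ∃ θ : ℝ, 0 < θ ∧ θ ≤ 1 / 4 ∧
      512 * (64 * (2 * (H : ℝ) ^ 6) ^ 6) ^ m * (2 * θ) ^ (2 ^ μ) < 1 ∧
      96 * (δ : ℝ) ^ 5 * ((100 / θ ^ 2) * (Real.logb 2 (2 * (2 * (H : ℝ) ^ 6) ^ 3) + 1)) ^ 2
        ≤ C * (H : ℝ) ^ ε := by
  obtain ⟨μ, hμ1, hμ⟩ : ∃ μ : ℕ, 1 ≤ μ ∧ (μ : ℝ) ^ 1 / 2 ^ μ < ε / 864 := by
    have h1 := tendsto_pow_const_div_const_pow_of_one_lt 1 (by norm_num : (1 : ℝ) < 2)
    have h2 := (h1.eventually_lt_const (show (0 : ℝ) < ε / 864 by positivity)).and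
      (Filter.eventually_ge_atTop 1)
    obtain ⟨μ, h3, h4⟩ := h2.exists
    exact ⟨μ, h4, h3⟩
  have hpow : (0 : ℝ) < 2 ^ μ := by positivity
  set M : ℕ := 2 * μ + 1 with hM
  set a : ℝ := 36 * (M : ℝ) / 2 ^ μ with ha
  have ha0 : 0 ≤ a := by positivity
  have ha4 : 4 * a ≤ ε / 2 := by
    have h1 : (M : ℝ) ≤ 3 * μ := by
      have : M ≤ 3 * μ := by omega
      exact_mod_cast this
    rw [pow_one, div_lt_iff₀ hpow] at hμ
    have h2 : a * 2 ^ μ = 36 * M := by rw [ha]; field_simp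
    by_contra hcon
    push Not at hcon
    have h3 : ε / 2 * 2 ^ μ < 4 * a * 2 ^ μ := mul_lt_mul_of_pos_right hcon hpow
    nlinarith
  set b : ℝ := ε / 4 with hb
  have hb0 : 0 < b := by positivity
  set c : ℝ := 1 / (4 * 512 * 4096 ^ M) with hc
  have hc0 : 0 < c := by positivity
  have h4096 : (1 : ℝ) ≤ 4096 ^ M := one_le_pow₀ (by norm_num)
  have hc4 : c ≤ 1 / 4 := by
    rw [hc]
    apply one_div_le_one_div_of_le (by norm_num)
    nlinarith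
  have hc2 : 512 * 4096 ^ M * (2 * c) = 1 / 2 := by
    rw [hc]; field_simp; norm_num
  refine ⟨μ, hμ1, 96 * ((M * 2 ^ M : ℕ) : ℝ) ^ 5 * (10000 * (c ^ 4)⁻¹) * (5 + 26 / b) ^ 2,
    ?_, ?_⟩
  · have : 0 < ((M * 2 ^ M : ℕ) : ℝ) := by
      have : 0 < M * 2 ^ M := Nat.mul_pos (by omega) (by positivity)
      exact_mod_cast this
    positivity
  · rintro m δ rfl rfl H hH
    have hHr : (1 : ℝ) ≤ (H : ℝ) := by exact_mod_cast hH
    have hH0 : (0 : ℝ) < (H : ℝ) := by linarith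
    have hHa : (H : ℝ) ^ (-a) ≤ 1 :=
      Real.rpow_le_one_of_one_le_of_nonpos hHr (by linarith)
    have hHa0 : 0 < (H : ℝ) ^ (-a) := Real.rpow_pos_of_pos hH0 _
    refine ⟨c * (H : ℝ) ^ (-a), by positivity, ?_, ?_, ?_⟩
    · calc c * (H : ℝ) ^ (-a) ≤ c * 1 := mul_le_mul_of_nonneg_left hHa hc0.le
        _ ≤ 1 / 4 := by linarith
    · have h1 : ((H : ℝ) ^ (-a)) ^ (2 ^ μ) = ((H : ℝ) ^ (36 * M))⁻¹ := by
        rw [← Real.rpow_natCast, ← Real.rpow_mul hH0.le, ← Real.rpow_natCast,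
          ← Real.rpow_neg hH0.le]
        congr 1
        rw [ha]
        push_cast
        field_simp
      have h2 : (64 * (2 * (H : ℝ) ^ 6) ^ 6) ^ M = 4096 ^ M * (H : ℝ) ^ (36 * M) := by
        rw [pow_mul, ← mul_pow]
        congr 1
        ring
      have h3 : (2 * (c * (H : ℝ) ^ (-a))) ^ (2 ^ μ)
          = (2 * c) ^ (2 ^ μ) * ((H : ℝ) ^ (36 * M))⁻¹ := by
        rw [← h1, ← mul_pow]
        congr 1
        ring
      have h4 : (2 * c) ^ (2 ^ μ) ≤ 2 * c := by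
        have h5 : (2 * c) ^ (2 ^ μ) ≤ (2 * c) ^ 1 :=
          pow_le_pow_of_le_one (by positivity) (by linarith) (Nat.one_le_two_pow)
        rwa [pow_one] at h5
      have h6 : (0 : ℝ) < (H : ℝ) ^ (36 * M) := by positivity
      rw [← hM, h2, h3]
      calc 512 * (4096 ^ M * (H : ℝ) ^ (36 * M)) * ((2 * c) ^ (2 ^ μ) * ((H : ℝ) ^ (36 * M))⁻¹)
          = 512 * 4096 ^ M * (2 * c) ^ (2 ^ μ) := by field_simp
        _ ≤ 512 * 4096 ^ M * (2 * c) := mul_le_mul_of_nonneg_left h4 (by positivity)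
        _ = 1 / 2 := hc2
        _ < 1 := by norm_num
    · rw [← hM]
      have hl2 : (0.6931471803 : ℝ) < Real.log 2 := Real.log_two_gt_d9
      have hl2p : 0 < Real.log 2 := by linarith
      have hlog0 : 0 ≤ Real.log H := Real.log_nonneg hHr
      have hlogb : Real.logb 2 (2 * (2 * (H : ℝ) ^ 6) ^ 3) + 1
          = 5 + 18 * (Real.log H / Real.log 2) := by
        have h1 : (2 * (2 * (H : ℝ) ^ 6) ^ 3) = 16 * (H : ℝ) ^ 18 := by ring
        have h2 : Real.logb 2 16 = 4 := by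
          have h3 : (16 : ℝ) = 2 ^ 4 := by norm_num
          rw [h3, Real.logb_pow, Real.logb_self_eq_one (by norm_num)]
          norm_num
        rw [h1, Real.logb_mul (by norm_num) (by positivity), h2, Real.logb_pow, Real.logb]
        push_cast
        ring
      have hHb1 : (1 : ℝ) ≤ (H : ℝ) ^ b := Real.one_le_rpow hHr hb0.le
      have hHb : Real.log H ≤ (H : ℝ) ^ b / b := Real.log_le_rpow_div hH0.le hb0
      have hx : 5 + 18 * (Real.log H / Real.log 2) ≤ (5 + 26 / b) * (H : ℝ) ^ b := by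
        have h1 : 18 * (Real.log H / Real.log 2) ≤ 26 * Real.log H := by
          have h2 : Real.log H / Real.log 2 ≤ 26 / 18 * Real.log H := by
            rw [div_le_iff₀ hl2p]
            nlinarith
          linarith
        have h2 : 26 * Real.log H ≤ 26 / b * (H : ℝ) ^ b := by
          calc 26 * Real.log H ≤ 26 * ((H : ℝ) ^ b / b) := by linarith
            _ = 26 / b * (H : ℝ) ^ b := by ring
        nlinarith
      have hx0 : 0 ≤ 5 + 18 * (Real.log H / Real.log 2) := by positivity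
      have hθ : 100 / (c * (H : ℝ) ^ (-a)) ^ 2 = 100 * (c ^ 2)⁻¹ * (H : ℝ) ^ (2 * a) := by
        have h1 : ((H : ℝ) ^ (-a)) ^ 2 = ((H : ℝ) ^ (2 * a))⁻¹ := by
          rw [← Real.rpow_natCast, ← Real.rpow_mul hH0.le, ← Real.rpow_neg hH0.le]
          congr 1
          push_cast
          ring
        have h2 : (0 : ℝ) < (H : ℝ) ^ (2 * a) := Real.rpow_pos_of_pos hH0 _
        rw [mul_pow, h1]
        field_simp
      have hxx : (100 / (c * (H : ℝ) ^ (-a)) ^ 2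
          * (Real.logb 2 (2 * (2 * (H : ℝ) ^ 6) ^ 3) + 1)) ^ 2
          ≤ (10000 * (c ^ 4)⁻¹) * (5 + 26 / b) ^ 2 * (H : ℝ) ^ ε := by
        rw [hlogb, hθ]
        have h2 : (0 : ℝ) < (H : ℝ) ^ (2 * a) := Real.rpow_pos_of_pos hH0 _
        have h3 : (5 + 18 * (Real.log H / Real.log 2)) ^ 2
            ≤ ((5 + 26 / b) * (H : ℝ) ^ b) ^ 2 := pow_le_pow_left₀ hx0 hx 2
        have h4 : ((H : ℝ) ^ (2 * a)) ^ 2 * ((H : ℝ) ^ b) ^ 2 ≤ (H : ℝ) ^ ε := by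
          rw [← Real.rpow_natCast, ← Real.rpow_natCast, ← Real.rpow_mul hH0.le,
            ← Real.rpow_mul hH0.le, ← Real.rpow_add hH0]
          apply Real.rpow_le_rpow_of_exponent_le hHr
          push_cast
          linarith
        calc (100 * (c ^ 2)⁻¹ * (H : ℝ) ^ (2 * a) * (5 + 18 * (Real.log H / Real.log 2))) ^ 2
            = (10000 * (c ^ 4)⁻¹) * (((H : ℝ) ^ (2 * a)) ^ 2
              * (5 + 18 * (Real.log H / Real.log 2)) ^ 2) := by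
              rw [mul_pow, mul_pow, mul_pow, inv_pow, ← pow_mul]
              ring
          _ ≤ (10000 * (c ^ 4)⁻¹) * (((H : ℝ) ^ (2 * a)) ^ 2
              * ((5 + 26 / b) * (H : ℝ) ^ b) ^ 2) := by gcongr
          _ = (10000 * (c ^ 4)⁻¹) * (5 + 26 / b) ^ 2
              * (((H : ℝ) ^ (2 * a)) ^ 2 * ((H : ℝ) ^ b) ^ 2) := by ring
          _ ≤ (10000 * (c ^ 4)⁻¹) * (5 + 26 / b) ^ 2 * (H : ℝ) ^ ε := by gcongr
      calc _ ≤ 96 * ((M * 2 ^ M : ℕ) : ℝ) ^ 5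
            * ((10000 * (c ^ 4)⁻¹) * (5 + 26 / b) ^ 2 * (H : ℝ) ^ ε) := by gcongr
        _ = _ := by ring

end Pool.Agent.H43.RH
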