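/-
M2 (Main2).  The power bound.  Needs Main1 (dich), NumC, Missing.  About 80 lines.
main2: numC gives μ, C; m = 2μ+1, k = 2m + 2; dich with the θ of numC; the first alternative contradicts the hypothesis.
main2b: k, C from main2; missing gives F with k points off every Γ; the numbers |P - A|, |P - B| (P in F) and |A - B| are nonnegative
rationals (RatDist), so they have Ht H0 for some H0 ≥ 1 (monotone in H).  For H ≥ H0: F ⊆ SH S A B H, main2 applies.  For H < H0: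
SH S A B H ⊆ SH S A B H0, so ncard ≤ C0 = ncard (SH S A B H0) ≤ C0 H^ε (H ≥ 1).  Take C + C0.
-/
import Pool.Agent.H43.RH.Main1
import Pool.Agent.H43.RH.NumC
import Pool.Agent.H43.RH.Missing

namespace Pool.Agent.H43.RH

theorem main2 (ε : ℝ) (hε : 0 < ε) : ∃ k : ℕ, ∃ C : ℝ, 0 < C ∧ ∀ S : Set ℂ, RatDist S →
    ∀ A ∈ S, ∀ B ∈ S, A ≠ B → ∀ H : ℕ, 1 ≤ H → Ht H ‖A - B‖ →
      (∀ Γ : Set ℂ, IsLC Γ → k ≤ (SH S A B H \ Γ).ncard) →
      ((SH S A B H).ncard : ℝ) ≤ C * (H : ℝ) ^ ε := by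
  obtain ⟨μ, hμ, C, hC, hnumC⟩ := numC ε hε
  refine ⟨2 * (2 * μ + 1) + 2, C, hC, fun S hS A hA B hB hAB H hH hAH hk => ?_⟩
  obtain ⟨θ, hθ, hθ1, hnum, hfin⟩ := hnumC (2 * μ + 1) ((2 * μ + 1) * 2 ^ (2 * μ + 1)) rfl rfl H hH
  rcases dich S hS A B hA hB hAB H hH hAH μ (2 * μ + 1) ((2 * μ + 1) * 2 ^ (2 * μ + 1)) hμ rfl rfl θ
    hθ hθ1 hnum with ⟨Γ, hΓ, hc⟩ | hc
  · have := hk Γ hΓ
    omega
  · exact hc.trans hfin

theorem main2b (S : Set ℂ) (hS : RatDist S) (hL : ∀ Γ : Set ℂ, IsLC Γ → (S \ Γ).Infinite)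
    (A B : ℂ) (hA : A ∈ S) (hB : B ∈ S) (hAB : A ≠ B) (ε : ℝ) (hε : 0 < ε) :
    ∃ C : ℝ, ∀ H : ℕ, 1 ≤ H → ((SH S A B H).ncard : ℝ) ≤ C * (H : ℝ) ^ ε := by
  classical
  obtain ⟨k, C, hC, hmain⟩ := main2 ε hε
  obtain ⟨F, hFS, hF⟩ := missing S hL k
  -- every nonnegative rational has a height
  have hmono : ∀ H H' : ℕ, H ≤ H' → ∀ x : ℝ, Ht H x → Ht H' x := by
    rintro H H' h x ⟨a, b, hb, ha, hb', hx⟩
    exact ⟨a, b, hb, ha.trans h, hb'.trans h, hx⟩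
  have hrat : ∀ P ∈ S, ∀ Q ∈ S, ∃ H : ℕ, Ht H ‖P - Q‖ := by
    intro P hP Q hQ
    obtain ⟨q, hq⟩ := hS P hP Q hQ
    have hq0 : 0 ≤ q := by
      have : (0 : ℝ) ≤ q := by rw [← hq]; exact norm_nonneg _
      exact_mod_cast this
    refine ⟨max q.num.toNat q.den, q.num.toNat, q.den, q.den_pos, le_max_left _ _, le_max_right _ _, ?_⟩
    rw [hq]
    have h1 : ((q.num.toNat : ℕ) : ℤ) = q.num := Int.toNat_of_nonneg (Rat.num_nonneg.mpr hq0)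
    have h2 : ((q.num.toNat : ℕ) : ℝ) = (q.num : ℝ) := by exact_mod_cast congrArg (fun z : ℤ => (z : ℝ)) h1
    rw [h2]
    exact_mod_cast (Rat.num_div_den q).symm
  choose! hA' hA'' using fun P (hP : P ∈ S) => hrat P hP A hA
  choose! hB' hB'' using fun P (hP : P ∈ S) => hrat P hP B hB
  obtain ⟨H1, hH1⟩ := hrat A hA B hB
  set H0 : ℕ := H1 + ∑ P ∈ F, (hA' P + hB' P) + 1 with hH0
  have hAH0 : Ht H0 ‖A - B‖ := hmono H1 H0 (by omega) _ hH1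
  have hsum : ∀ P ∈ F, hA' P + hB' P ≤ ∑ P ∈ F, (hA' P + hB' P) := fun P hP =>
    Finset.single_le_sum (f := fun P => hA' P + hB' P) (fun _ _ => Nat.zero_le _) hP
  have hFSH : ∀ P ∈ F, P ∈ SH S A B H0 := by
    intro P hP
    have hPS := hFS (Finset.mem_coe.mpr hP)
    have := hsum P hP
    exact ⟨hPS, hmono _ H0 (by omega) _ (hA'' P hPS), hmono _ H0 (by omega) _ (hB'' P hPS)⟩
  have hSHmono : ∀ H H' : ℕ, H ≤ H' → SH S A B H ⊆ SH S A B H' := by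
    rintro H H' h P ⟨h1, h2, h3⟩
    exact ⟨h1, hmono _ _ h _ h2, hmono _ _ h _ h3⟩
  refine ⟨C + ((SH S A B H0).ncard : ℝ), fun H hH => ?_⟩
  have hH1r : (1 : ℝ) ≤ H := by exact_mod_cast hH
  have hHε : 1 ≤ (H : ℝ) ^ ε := Real.one_le_rpow hH1r hε.le
  have hC0 : (0 : ℝ) ≤ ((SH S A B H0).ncard : ℝ) := Nat.cast_nonneg _
  rcases le_total H0 H with h | h
  · have h2 := hmain S hS A hA B hB hAB H hH (hmono _ _ h _ hAH0) (by
      intro Γ hΓ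
      obtain ⟨E, hEF, hE, hEk⟩ := hF Γ hΓ
      have hsub : (E : Set ℂ) ⊆ SH S A B H \ Γ := fun P hP =>
        ⟨hSHmono _ _ h (hFSH P (hEF (Finset.mem_coe.mp hP))), hE P (Finset.mem_coe.mp hP)⟩
      have hfin : (SH S A B H \ Γ).Finite := (finSH S A B hAB H).subset Set.sdiff_subset
      have := Set.ncard_le_ncard hsub hfin
      rw [Set.ncard_coe_finset] at this
      omega)
    have : (0 : ℝ) ≤ ((SH S A B H0).ncard : ℝ) * (H : ℝ) ^ ε := by positivity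
    nlinarith
  · have h2 : ((SH S A B H).ncard : ℝ) ≤ ((SH S A B H0).ncard : ℝ) := by
      exact_mod_cast Set.ncard_le_ncard (hSHmono _ _ h) (finSH S A B hAB H0)
    have h3 : ((SH S A B H0).ncard : ℝ) * 1 ≤ ((SH S A B H0).ncard : ℝ) * (H : ℝ) ^ ε :=
      mul_le_mul_of_nonneg_left hHε hC0
    have h4 : (0 : ℝ) ≤ C * (H : ℝ) ^ ε := by positivity
    nlinarith

end Pool.Agent.H43.RH
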