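/-
X4 (NumD).  Constants for the covering radius.  MATHLIB ONLY, about 60 lines.
PROOF.  K = max of K1 + 2, 16 and exp(41 (K1 + 1)).  For H ≥ K: log H ≥ 41 (K1+1) > 1, 0 ≤ log log H ≤ log H.
(log H)^K ≥ (log H)^(K1+2) ≥ ... : (K1 (log H)^K1 + 1) ≤ (K1+1) (log H)^K1 < (log H)^(K1+1) ≤ (log H)^K;
40 (K1 log log H + 1) ≤ 40 (K1+1) log H < (log H)² ≤ (log H)^K.
-/
import Pool.Agent.H43.RH.Defs

namespace Pool.Agent.H43.RH

theorem numD (K1 : ℝ) (hK1 : 0 < K1) : ∃ K : ℝ, 0 < K ∧ ∀ H : ℕ, K ≤ H → 16 ≤ H ∧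
    (K1 * (Real.log H) ^ K1 + 1) * (1 / (Real.log H) ^ K) < 1 ∧
    40 * (K1 * Real.log (Real.log H) + 1) * (1 / (Real.log H) ^ K) < 1 := by
  refine ⟨max (max (K1 + 2) 16) (Real.exp (41 * (K1 + 1))), ?_, fun H hH => ?_⟩
  · exact lt_of_lt_of_le (by norm_num) ((le_max_right (K1 + 2) (16 : ℝ)).trans (le_max_left _ _))
  · set K := max (max (K1 + 2) 16) (Real.exp (41 * (K1 + 1))) with hK
    have hKa : K1 + 2 ≤ K := (le_max_left _ _).trans (le_max_left _ _)
    have hKb : (16 : ℝ) ≤ K := (le_max_right _ _).trans (le_max_left _ _)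
    have hKc : Real.exp (41 * (K1 + 1)) ≤ K := le_max_right _ _
    have hL : 41 * (K1 + 1) ≤ Real.log H := by
      rw [← Real.log_exp (41 * (K1 + 1))]
      exact Real.log_le_log (Real.exp_pos _) (hKc.trans hH)
    set L := Real.log H with hLd
    have hL1 : 1 ≤ L := by linarith
    have hL0 : 0 < L := by linarith
    have hll : Real.log L ≤ L := Real.log_le_self hL0.le
    have hp1 : (1 : ℝ) ≤ L ^ K1 := Real.one_le_rpow hL1 hK1.le
    have hKL : L ^ K1 * L ^ 2 ≤ L ^ K := by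
      have h1 : L ^ (K1 + 2) ≤ L ^ K := Real.rpow_le_rpow_of_exponent_le hL1 hKa
      have h2 : L ^ (K1 + 2) = L ^ K1 * L ^ 2 := by
        rw [Real.rpow_add hL0]
        norm_num
      rwa [h2] at h1
    have hK2 : L ^ 2 ≤ L ^ K := by
      have h1 : L ^ (2 : ℝ) ≤ L ^ K := Real.rpow_le_rpow_of_exponent_le hL1 (by linarith)
      have h2 : L ^ (2 : ℝ) = L ^ 2 := by norm_num
      rwa [h2] at h1
    have hKpos : 0 < L ^ K := Real.rpow_pos_of_pos hL0 K
    refine ⟨?_, ?_, ?_⟩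
    · exact_mod_cast hKb.trans hH
    · rw [mul_one_div, div_lt_one hKpos]
      have h3 : K1 * L ^ K1 + 1 ≤ (K1 + 1) * L ^ K1 := by nlinarith
      have h4 : (K1 + 1) * L ^ K1 < L ^ K1 * L ^ 2 := by
        rw [mul_comm]
        refine mul_lt_mul_of_pos_left ?_ (by linarith)
        nlinarith
      linarith
    · rw [mul_one_div, div_lt_one hKpos]
      have h3 : K1 * Real.log L + 1 ≤ (K1 + 1) * L := by nlinarith
      have h4 : 40 * ((K1 + 1) * L) < L ^ 2 := by nlinarith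
      nlinarith

end Pool.Agent.H43.RH
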