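/-
T6 (Sub).  Points of a relatively dense set.  Needs Five.  About 120 lines.
sub1: z_j = x0 + a (-1 + 2j/N), j = 0..N, P_j in U with |P_j - z_j| ≤ a η; |z_j - z_k| ≥ 2a/N > 2aη for j ≠ k, so the P_j are distinct.
sub2: x_j = x0 + a (-1 + (2j+1)/n), j < n, b = a/(2n).  The points x_j, x_j ± b, x_j ± i b are in closedBall x0 a
(|x_j - x0| ≤ a (1 - 1/n)); take points of U at distance ≤ aη < b/20 from them.  By `five` one of the five, P_j, is not in GC.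
|P_j - x_j| ≤ b + aη < a/n, |x_j - x_k| ≥ 2a/n: distinct for different j.
-/
import Pool.Agent.H43.RH.Five

namespace Pool.Agent.H43.RH

private theorem inj_aux (n : ℕ) (x0 : ℂ) (a r s M : ℝ) (ha : 0 < a) (hM : 0 < M) (hr : r < a / M)
    (P : Fin n → ℂ)
    (hP : ∀ j, ‖P j - (x0 + ((a * (s + 2 * ((j : ℕ) : ℝ) / M) : ℝ) : ℂ))‖ ≤ r) :
    Function.Injective P := by
  intro j k hjk
  by_contra hne
  have h1 := hP j
  have h2 := hP k
  rw [hjk] at h1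
  have h3 : ‖((a * (s + 2 * ((j : ℕ) : ℝ) / M) : ℝ) : ℂ)
      - ((a * (s + 2 * ((k : ℕ) : ℝ) / M) : ℝ) : ℂ)‖ ≤ r + r := by
    have h5 : ((a * (s + 2 * ((j : ℕ) : ℝ) / M) : ℝ) : ℂ)
      - ((a * (s + 2 * ((k : ℕ) : ℝ) / M) : ℝ) : ℂ)
      = (P k - (x0 + ((a * (s + 2 * ((k : ℕ) : ℝ) / M) : ℝ) : ℂ)))
        - (P k - (x0 + ((a * (s + 2 * ((j : ℕ) : ℝ) / M) : ℝ) : ℂ))) := by ring
    rw [h5]
    exact (norm_sub_le _ _).trans (add_le_add h2 h1)
  rw [← Complex.ofReal_sub, Complex.norm_real, Real.norm_eq_abs] at h3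
  have h6 : a * (s + 2 * ((j : ℕ) : ℝ) / M) - a * (s + 2 * ((k : ℕ) : ℝ) / M)
      = (a / M) * 2 * (((j : ℕ) : ℝ) - ((k : ℕ) : ℝ)) := by
    field_simp
    ring
  rw [h6, abs_mul, abs_of_pos (by positivity)] at h3
  have h4 : (1 : ℝ) ≤ |((j : ℕ) : ℝ) - ((k : ℕ) : ℝ)| := by
    have h7 : ((j : ℕ) : ℤ) - ((k : ℕ) : ℤ) ≠ 0 := by
      intro h8
      apply hne
      apply Fin.ext
      omega
    have h9 := Int.one_le_abs h7
    exact_mod_cast h9
  have h10 : 0 < a / M := by positivity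
  nlinarith

theorem sub1 (U : Set ℂ) (hU : U.Finite) (x0 : ℂ) (a η : ℝ) (ha : 0 < a) (hη : 0 ≤ η)
    (hd : ∀ z : ℂ, ‖z - x0‖ ≤ a → ∃ P ∈ U, ‖P - z‖ ≤ a * η) (N : ℕ) (hN : 1 ≤ N)
    (hNη : N * η < 1) : N + 1 ≤ U.ncard := by
  have hN0 : (0 : ℝ) < N := by exact_mod_cast hN
  have hz : ∀ j : Fin (N + 1),
      ‖(x0 + ((a * (-1 + 2 * ((j : ℕ) : ℝ) / (N : ℝ)) : ℝ) : ℂ)) - x0‖ ≤ a := by
    intro j
    rw [add_sub_cancel_left, Complex.norm_real, Real.norm_eq_abs, abs_mul, abs_of_pos ha]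
    have h1 : |(-1 + 2 * ((j : ℕ) : ℝ) / (N : ℝ))| ≤ 1 := by
      have hj : ((j : ℕ) : ℝ) ≤ N := by exact_mod_cast Nat.lt_succ_iff.mp j.2
      have h2 : ((j : ℕ) : ℝ) / N ≤ 1 := by
        rw [div_le_one hN0]
        exact hj
      have h3 : 0 ≤ ((j : ℕ) : ℝ) / N := by positivity
      rw [mul_div_assoc, abs_le]
      constructor <;> linarith
    nlinarith
  choose P hPU hP using fun j : Fin (N + 1) => hd _ (hz j)
  have hinj : Function.Injective P := by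
    refine inj_aux (N + 1) x0 a (a * η) (-1) N ha hN0 ?_ P hP
    rw [lt_div_iff₀ hN0]
    nlinarith
  have h1 : (Set.range P).ncard = N + 1 := by
    rw [← Set.image_univ, Set.ncard_image_of_injective _ hinj, Set.ncard_univ, Nat.card_eq_fintype_card,
      Fintype.card_fin]
  rw [← h1]
  apply Set.ncard_le_ncard _ hU
  rintro _ ⟨j, rfl⟩
  exact hPU j

theorem sub2 (U : Set ℂ) (hU : U.Finite) (x0 : ℂ) (a η : ℝ) (ha : 0 < a) (hη : 0 ≤ η)
    (hd : ∀ z : ℂ, ‖z - x0‖ ≤ a → ∃ P ∈ U, ‖P - z‖ ≤ a * η) (n : ℕ) (hn : 1 ≤ n)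
    (hnη : 40 * n * η < 1) (α γ : ℝ) (β : ℂ) (hβ : α * γ < ‖β‖ ^ 2) :
    n ≤ (U \ GC α γ β).ncard := by
  have hn0 : (0 : ℝ) < n := by exact_mod_cast hn
  have hb0 : 0 < a / (2 * n) := by positivity
  have hη1 : a * η < a / (2 * n) / 20 := by
    rw [div_div, lt_div_iff₀ (by positivity)]
    nlinarith
  have hkey : ∀ j : Fin n, ∃ P ∈ U \ GC α γ β,
      ‖P - (x0 + ((a * ((-1 + 1 / n) + 2 * ((j : ℕ) : ℝ) / (n : ℝ)) : ℝ) : ℂ))‖
        ≤ a / (2 * n) + a * η := by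
    intro j
    set xj : ℂ := x0 + ((a * ((-1 + 1 / n) + 2 * ((j : ℕ) : ℝ) / (n : ℝ)) : ℝ) : ℂ) with hxj
    have hx : ‖xj - x0‖ ≤ a - a / n := by
      rw [hxj, add_sub_cancel_left, Complex.norm_real, Real.norm_eq_abs, abs_mul, abs_of_pos ha]
      have h1 : |((-1 + 1 / n) + 2 * ((j : ℕ) : ℝ) / (n : ℝ))| ≤ 1 - 1 / n := by
        have hj : ((j : ℕ) : ℝ) + 1 ≤ n := by exact_mod_cast j.2
        have h2 : (((j : ℕ) : ℝ) + 1) / n ≤ 1 := by
          rw [div_le_one hn0]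
          exact hj
        rw [add_div] at h2
        have h3 : 0 ≤ ((j : ℕ) : ℝ) / n := by positivity
        rw [mul_div_assoc, abs_le]
        constructor <;> linarith
      have h4 : a - a / n = a * (1 - 1 / n) := by ring
      rw [h4]
      exact mul_le_mul_of_nonneg_left h1 ha.le
    have hin : ∀ w : ℂ, ‖w‖ ≤ a / (2 * n) → ∃ P ∈ U, ‖P - (xj + w)‖ ≤ a * η := by
      intro w hw
      apply hd
      have h5 : xj + w - x0 = (xj - x0) + w := by ring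
      rw [h5]
      have h6 : a / (2 * n) ≤ a / n := by
        apply div_le_div_of_nonneg_left ha.le hn0
        linarith
      exact (norm_add_le _ _).trans (by linarith)
    have hnear : ∀ P w : ℂ, ‖w‖ ≤ a / (2 * n) → ‖P - (xj + w)‖ ≤ a * η →
        ‖P - xj‖ ≤ a / (2 * n) + a * η := by
      intro P w hw hP
      have h7 : P - xj = w + (P - (xj + w)) := by ring
      rw [h7]
      exact (norm_add_le _ _).trans (add_le_add hw hP)
    have e0 : ‖(0 : ℂ)‖ ≤ a / (2 * n) := by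
      rw [norm_zero]
      exact hb0.le
    have e1 : ‖(((a / (2 * n) : ℝ)) : ℂ)‖ ≤ a / (2 * n) := by
      rw [Complex.norm_real, Real.norm_eq_abs, abs_of_pos hb0]
    have e2 : ‖(((a / (2 * n) : ℝ)) : ℂ) * Complex.I‖ ≤ a / (2 * n) := by
      rw [norm_mul, Complex.norm_I, mul_one]
      exact e1
    have e3 : ‖-(((a / (2 * n) : ℝ)) : ℂ)‖ ≤ a / (2 * n) := by
      rw [norm_neg]
      exact e1
    have e4 : ‖-((((a / (2 * n) : ℝ)) : ℂ) * Complex.I)‖ ≤ a / (2 * n) := by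
      rw [norm_neg]
      exact e2
    obtain ⟨Q, hQ, hQ'⟩ := hin _ e0
    obtain ⟨Q0, hQ0, hQ0'⟩ := hin _ e1
    obtain ⟨Q1, hQ1, hQ1'⟩ := hin _ e2
    obtain ⟨Q2, hQ2, hQ2'⟩ := hin _ e3
    obtain ⟨Q3, hQ3, hQ3'⟩ := hin _ e4
    by_contra hcon
    push Not at hcon
    have m : Q ∈ GC α γ β := by
      by_contra h
      exact absurd (hnear _ _ e0 hQ') (not_le.2 (hcon Q ⟨hQ, h⟩))
    have m0 : Q0 ∈ GC α γ β := by
      by_contra h
      exact absurd (hnear _ _ e1 hQ0') (not_le.2 (hcon Q0 ⟨hQ0, h⟩))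
    have m1 : Q1 ∈ GC α γ β := by
      by_contra h
      exact absurd (hnear _ _ e2 hQ1') (not_le.2 (hcon Q1 ⟨hQ1, h⟩))
    have m2 : Q2 ∈ GC α γ β := by
      by_contra h
      exact absurd (hnear _ _ e3 hQ2') (not_le.2 (hcon Q2 ⟨hQ2, h⟩))
    have m3 : Q3 ∈ GC α γ β := by
      by_contra h
      exact absurd (hnear _ _ e4 hQ3') (not_le.2 (hcon Q3 ⟨hQ3, h⟩))
    rw [add_zero] at hQ'
    rw [← sub_eq_add_neg] at hQ2' hQ3'
    exact five α γ β hβ xj (a / (2 * n)) (a * η) hb0 hη1 Q Q0 Q1 Q2 Q3 hQ' hQ0' hQ1' hQ2' hQ3'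
      m m0 m1 m2 m3
  choose P hPU hP using hkey
  have hinj : Function.Injective P := by
    refine inj_aux n x0 a (a / (2 * n) + a * η) (-1 + 1 / n) n ha hn0 ?_ P hP
    have h8 : a / (n : ℝ) = 2 * (a / (2 * n)) := by
      field_simp
    rw [h8]
    linarith
  have h1 : (Set.range P).ncard = n := by
    rw [← Set.image_univ, Set.ncard_image_of_injective _ hinj, Set.ncard_univ, Nat.card_eq_fintype_card,
      Fintype.card_fin]
  rw [← h1]
  apply Set.ncard_le_ncard _ (hU.subset Set.sdiff_subset)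
  rintro _ ⟨j, rfl⟩
  exact hPU j

end Pool.Agent.H43.RH
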