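/-
M3 (Main3).  The covering radius.  Needs Main1 (main1), Sub, NumD, FinSH, Trans (GC_of_isLC).  About 60 lines.
PROOF.  K1 from main1, K from numD K1.  Suppose not: then with U = SH S A B H (finite) and η = 1/(log H)^K (a/(log H)^K = a η) every z in the
disc has P in U with |P - z| ≤ a η.  main1: (i) ncard U ≤ K1 (log H)^K1: sub1 with N = ⌊K1 (log H)^K1⌋₊ + 1 (N η < 1 by numD, as
N ≤ K1 (log H)^K1 + 1) gives ncard U ≥ N + 1 > K1 (log H)^K1.  (ii) Γ: sub2 with n = ⌊K1 log log H⌋₊ + 1 ≤ K1 log log H + 1 gives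
n ≤ ncard (U \ Γ) ≤ K1 log log H < n.
-/
import Pool.Agent.H43.RH.Main1
import Pool.Agent.H43.RH.Sub
import Pool.Agent.H43.RH.NumD

namespace Pool.Agent.H43.RH

theorem main3 : ∃ K : ℝ, 0 < K ∧ ∀ S : Set ℂ, RatDist S → ∀ A ∈ S, ∀ B ∈ S, A ≠ B →
    ∀ H : ℕ, K ≤ H → Ht H ‖A - B‖ → ∀ (x0 : ℂ) (a : ℝ), 0 < a →
      ∃ z : ℂ, ‖z - x0‖ ≤ a ∧ ∀ P ∈ SH S A B H, a / (Real.log H) ^ K < ‖P - z‖ := by
  obtain ⟨K1, hK1, h1⟩ := main1
  obtain ⟨K, hK, h2⟩ := numD K1 hK1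
  refine ⟨K, hK, fun S hS A hA B hB hAB H hH hAH x0 a ha => ?_⟩
  obtain ⟨h16, hn1, hn2⟩ := h2 H hH
  by_contra hcon
  push Not at hcon
  have h16r : (16 : ℝ) ≤ H := by exact_mod_cast h16
  have hlog1 : 1 ≤ Real.log H := by
    rw [Real.le_log_iff_exp_le (by linarith)]
    have := Real.exp_one_lt_d9
    linarith
  have hη : (0 : ℝ) ≤ 1 / (Real.log H) ^ K := by positivity
  have hd : ∀ z : ℂ, ‖z - x0‖ ≤ a →
      ∃ P ∈ SH S A B H, ‖P - z‖ ≤ a * (1 / (Real.log H) ^ K) := by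
    intro z hz
    obtain ⟨P, hP, hPz⟩ := hcon z hz
    refine ⟨P, hP, ?_⟩
    rw [mul_one_div]
    exact hPz
  have hU : (SH S A B H).Finite := finSH S A B hAB H
  rcases h1 S hS A hA B hB hAB H h16 hAH with hc | ⟨Γ, hΓ, hc⟩
  · have h0 : 0 ≤ K1 * (Real.log H) ^ K1 := by positivity
    have hNle : ((⌊K1 * (Real.log H) ^ K1⌋₊ + 1 : ℕ) : ℝ) ≤ K1 * (Real.log H) ^ K1 + 1 := by
      push_cast
      have := Nat.floor_le h0
      linarith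
    have hNlt : K1 * (Real.log H) ^ K1 < ((⌊K1 * (Real.log H) ^ K1⌋₊ + 1 : ℕ) : ℝ) := by
      push_cast
      exact Nat.lt_floor_add_one _
    have hNη : ((⌊K1 * (Real.log H) ^ K1⌋₊ + 1 : ℕ) : ℝ) * (1 / (Real.log H) ^ K) < 1 :=
      lt_of_le_of_lt (mul_le_mul_of_nonneg_right hNle hη) hn1
    have h3 := sub1 _ hU x0 a _ ha hη hd _ (Nat.succ_le_succ (Nat.zero_le _)) hNη
    have h4 : ((⌊K1 * (Real.log H) ^ K1⌋₊ + 1 : ℕ) : ℝ) + 1 ≤ ((SH S A B H).ncard : ℝ) := by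
      exact_mod_cast h3
    linarith
  · obtain ⟨α, γ, β, hβ, rfl⟩ := GC_of_isLC Γ hΓ
    have h0 : 0 ≤ K1 * Real.log (Real.log H) := mul_nonneg hK1.le (Real.log_nonneg hlog1)
    have hNle : ((⌊K1 * Real.log (Real.log H)⌋₊ + 1 : ℕ) : ℝ) ≤ K1 * Real.log (Real.log H) + 1 := by
      push_cast
      have := Nat.floor_le h0
      linarith
    have hNlt : K1 * Real.log (Real.log H) < ((⌊K1 * Real.log (Real.log H)⌋₊ + 1 : ℕ) : ℝ) := by
      push_cast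
      exact Nat.lt_floor_add_one _
    have hNη : 40 * ((⌊K1 * Real.log (Real.log H)⌋₊ + 1 : ℕ) : ℝ) * (1 / (Real.log H) ^ K) < 1 :=
      lt_of_le_of_lt (mul_le_mul_of_nonneg_right (mul_le_mul_of_nonneg_left hNle (by norm_num)) hη)
        hn2
    have h3 := sub2 _ hU x0 a _ ha hη hd _ (Nat.succ_le_succ (Nat.zero_le _)) hNη α γ β hβ
    have h4 : ((⌊K1 * Real.log (Real.log H)⌋₊ + 1 : ℕ) : ℝ) ≤ ((SH S A B H \ GC α γ β).ncard : ℝ) := by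
      exact_mod_cast h3
    linarith

end Pool.Agent.H43.RH
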